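import Pool.Agent.LR.B2b.Cls

/-! # LR-B2b-10: locally Lipschitz functions of the plane and the density `gsq`

PLAN. `P = ℝ × ℝ` with the sup norm. 
`ll_ae`: on each open square `{‖z‖ < K}` `H` agrees with a Lipschitz function (`LipschitzOnWith.extend_real`), so Rademacher
(`LipschitzWith.ae_differentiableAt`) gives differentiability a.e. (countable union over `K`).
`ll_meas`: `gsq H` is measurable: `measurable_fderiv_apply_const ℝ H v`.
`ll_bd`: if `|H z - H w| ≤ A ‖z - w‖` on `{‖·‖ ≤ K}` then `gsq H z ≤ 2 A²` for `‖z‖ < K` (norm of `fderiv` ≤ `A` when differentiable: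
`norm_fderiv_le_of_lip'`/`HasFDerivAt.le_of_lip`, `0` otherwise; `‖(1,0)‖ = 1`).
`ll_int`: hence `IntegrableOn (gsq H) U` for bounded `U` (bounded on a bounded measurable set of finite measure; if `U` is not measurable use
`IntegrableOn.mono_set` from a ball).
`ll_para`: where both are differentiable (a.e.) `gsq (F+G) + gsq (F-G) = 2 gsq F + 2 gsq G`; integrate.
`ll_near` (continuity): if `|(H-G) z - (H-G) w| ≤ ε ‖z-w‖` on `{‖·‖ ≤ K}` and `rct a b c d ⊆ {‖·‖ ≤ K}`: pointwise a.e.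
`gsq G ≤ (1+t) gsq H + (1+1/t) 2ε²`, for all `t > 0`; integrate (`vol (rct) ≤ (2K)²`). -/

set_option autoImplicit false

noncomputable section

open scoped BigOperators Topology
open MeasureTheory Filter Set

namespace Pool.Agent.LR

private theorem norm_e1 : ‖((1 : ℝ), (0 : ℝ))‖ = 1 := by simp [Prod.norm_def]

private theorem norm_e2 : ‖((0 : ℝ), (1 : ℝ))‖ = 1 := by simp [Prod.norm_def]

private theorem gsq_nonneg' (H : P → ℝ) (z : P) : 0 ≤ gsq H z := by
  unfold gsq
  positivity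

theorem ll_of_contDiff {H : P → ℝ} (hH : ContDiff ℝ 1 H) : LL H := by
  intro K
  have hc : IsCompact (Metric.closedBall (0 : P) K) := isCompact_closedBall 0 K
  obtain ⟨A, hA⟩ := hc.exists_bound_of_continuousOn (f := fun z => fderiv ℝ H z)
    (hH.continuous_fderiv one_ne_zero).continuousOn
  refine ⟨A, fun z w hz hw => ?_⟩
  have h1 := Convex.norm_image_sub_le_of_norm_fderiv_le (𝕜 := ℝ) (f := H) (C := A)
    (s := Metric.closedBall (0 : P) K) (fun x _ => (hH.differentiable one_ne_zero) x)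
    (fun x hx => hA x hx) (convex_closedBall 0 (K : ℝ)) (x := w) (y := z)
    (mem_closedBall_zero_iff.2 hw) (mem_closedBall_zero_iff.2 hz)
  rwa [Real.norm_eq_abs] at h1

theorem ll_add {F G : P → ℝ} (hF : LL F) (hG : LL G) : LL (fun z => F z + G z) := by
  intro K
  obtain ⟨A, hA⟩ := hF K
  obtain ⟨B, hB⟩ := hG K
  refine ⟨A + B, fun z w hz hw => ?_⟩
  have h1 := hA z w hz hw
  have h2 := hB z w hz hw
  have h3 : (F z + G z) - (F w + G w) = (F z - F w) + (G z - G w) := by ring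
  change |(F z + G z) - (F w + G w)| ≤ (A + B) * ‖z - w‖
  rw [h3, add_mul]
  exact (abs_add_le _ _).trans (add_le_add h1 h2)

theorem ll_smul {F : P → ℝ} (hF : LL F) (s : ℝ) : LL (fun z => s * F z) := by
  intro K
  obtain ⟨A, hA⟩ := hF K
  refine ⟨|s| * A, fun z w hz hw => ?_⟩
  change |s * F z - s * F w| ≤ |s| * A * ‖z - w‖
  rw [← mul_sub, abs_mul, mul_assoc]
  exact mul_le_mul_of_nonneg_left (hA z w hz hw) (abs_nonneg s)

theorem ll_sub {F G : P → ℝ} (hF : LL F) (hG : LL G) : LL (fun z => F z - G z) := by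
  have h := ll_add hF (ll_smul hG (-1))
  have e : (fun z => F z - G z) = fun z => F z + (-1) * G z := by
    funext z
    ring
  rw [e]
  exact h

theorem ll_ae {H : P → ℝ} (hH : LL H) : ∀ᵐ z : P, DifferentiableAt ℝ H z := by
  have hK : ∀ K : ℕ, ∀ᵐ z : P, z ∈ Metric.ball (0 : P) K → DifferentiableWithinAt ℝ H
      (Metric.ball (0 : P) K) z := by
    intro K
    obtain ⟨A, hA⟩ := hH K
    have hl : LipschitzOnWith A.toNNReal H (Metric.ball (0 : P) K) := by
      refine LipschitzOnWith.of_dist_le_mul fun z hz w hw => ?_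
      rw [Real.dist_eq, dist_eq_norm]
      refine (hA z w (mem_ball_zero_iff.1 hz).le (mem_ball_zero_iff.1 hw).le).trans ?_
      exact mul_le_mul_of_nonneg_right (Real.le_coe_toNNReal A) (norm_nonneg _)
    exact hl.ae_differentiableWithinAt_of_mem
  filter_upwards [ae_all_iff.2 hK] with z hz
  obtain ⟨K, hK'⟩ := exists_nat_gt ‖z‖
  have hm : z ∈ Metric.ball (0 : P) K := mem_ball_zero_iff.2 hK'
  exact (hz K hm).differentiableAt (Metric.isOpen_ball.mem_nhds hm)

theorem ll_meas (H : P → ℝ) : Measurable (gsq H) := by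
  unfold gsq
  exact ((measurable_fderiv_apply_const ℝ H (1, 0)).pow_const 2).add
    ((measurable_fderiv_apply_const ℝ H (0, 1)).pow_const 2)

theorem ll_bd {H : P → ℝ} {A : ℝ} {K : ℝ}
    (hA : ∀ z w : P, ‖z‖ ≤ K → ‖w‖ ≤ K → |H z - H w| ≤ A * ‖z - w‖) (z : P) (hz : ‖z‖ < K) :
    gsq H z ≤ 2 * A ^ 2 := by
  have h1 : ‖fderiv ℝ H z‖ ≤ |A| := by
    refine norm_fderiv_le_of_lip' ℝ (abs_nonneg A) ?_
    have h0 : ∀ᶠ x in 𝓝 z, ‖x‖ < K := (continuous_norm.tendsto z).eventually (gt_mem_nhds hz)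
    filter_upwards [h0] with x hx
    rw [Real.norm_eq_abs]
    exact (hA x z hx.le hz.le).trans
      (mul_le_mul_of_nonneg_right (le_abs_self A) (norm_nonneg _))
  have h2 : |fderiv ℝ H z (1, 0)| ≤ |A| := by
    have h := (fderiv ℝ H z).le_opNorm ((1 : ℝ), (0 : ℝ))
    rw [norm_e1, mul_one, Real.norm_eq_abs] at h
    exact h.trans h1
  have h3 : |fderiv ℝ H z (0, 1)| ≤ |A| := by
    have h := (fderiv ℝ H z).le_opNorm ((0 : ℝ), (1 : ℝ))
    rw [norm_e2, mul_one, Real.norm_eq_abs] at h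
    exact h.trans h1
  have h4 := sq_le_sq.mpr h2
  have h5 := sq_le_sq.mpr h3
  unfold gsq
  linarith

theorem ll_int {H : P → ℝ} (hH : LL H) {U : Set P} (hU : Bornology.IsBounded U) :
    IntegrableOn (gsq H) U := by
  obtain ⟨R, hR⟩ := hU.subset_ball (0 : P)
  obtain ⟨K, hK⟩ := exists_nat_gt R
  obtain ⟨A, hA⟩ := hH K
  have h1 : IntegrableOn (gsq H) (Metric.ball (0 : P) K) := by
    refine Measure.integrableOn_of_bounded (M := 2 * A ^ 2) (measure_ball_lt_top.ne)
      ((ll_meas H).aestronglyMeasurable) ?_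
    refine (ae_restrict_iff' measurableSet_ball).2 (Filter.Eventually.of_forall fun z hz => ?_)
    rw [Real.norm_of_nonneg (gsq_nonneg' H z)]
    exact ll_bd hA z (mem_ball_zero_iff.1 hz)
  exact h1.mono_set (hR.trans (Metric.ball_subset_ball hK.le))

theorem gsq_smul (H : P → ℝ) (s : ℝ) (z : P) : gsq (fun w => s * H w) z = s ^ 2 * gsq H z := by
  have e : (fun w => s * H w) = s • H := by
    funext w
    simp
  unfold gsq
  rw [e, fderiv_const_smul_field]
  simp only [Pi.smul_apply, _root_.smul_apply, smul_eq_mul]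
  ring

theorem gsq_congr {F G : P → ℝ} {z : P} (h : F =ᶠ[𝓝 z] G) : gsq F z = gsq G z := by
  unfold gsq
  rw [h.fderiv_eq]

theorem ll_para {F G : P → ℝ} (hF : LL F) (hG : LL G) {U : Set P} (hU : Bornology.IsBounded U) :
    (∫ z in U, gsq (fun w => F w + G w) z) + (∫ z in U, gsq (fun w => F w - G w) z) =
      2 * (∫ z in U, gsq F z) + 2 * (∫ z in U, gsq G z) := by
  rw [← integral_add (ll_int (ll_add hF hG) hU) (ll_int (ll_sub hF hG) hU),
    ← integral_const_mul, ← integral_const_mul,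
    ← integral_add ((ll_int hF hU).const_mul 2) ((ll_int hG hU).const_mul 2)]
  refine integral_congr_ae (ae_restrict_of_ae ?_)
  filter_upwards [ll_ae hF, ll_ae hG] with z h1 h2
  have e1 : fderiv ℝ (fun w => F w + G w) z = fderiv ℝ F z + fderiv ℝ G z := fderiv_fun_add h1 h2
  have e2 : fderiv ℝ (fun w => F w - G w) z = fderiv ℝ F z - fderiv ℝ G z := fderiv_fun_sub h1 h2
  simp only [gsq, e1, e2, _root_.add_apply, _root_.sub_apply]
  ring

private theorem real_near (x y t : ℝ) (ht : 0 < t) :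
    y ^ 2 ≤ (1 + t) * x ^ 2 + (1 + t⁻¹) * (x - y) ^ 2 := by
  have h : (1 + t) * x ^ 2 + (1 + t⁻¹) * (x - y) ^ 2 - y ^ 2 = t⁻¹ * (t * x + (x - y)) ^ 2 := by
    field_simp
    ring
  have h2 : 0 ≤ t⁻¹ * (t * x + (x - y)) ^ 2 := by positivity
  linarith

theorem ll_near {H G : P → ℝ} (hH : LL H) (hG : LL G) {K : ℝ} (hK : 0 < K) {ε : ℝ} (hε : 0 ≤ ε)
    (hd : ∀ z w : P, ‖z‖ ≤ K → ‖w‖ ≤ K → |(H z - G z) - (H w - G w)| ≤ ε * ‖z - w‖)
    {a b c d : ℝ} (hR : rct a b c d ⊆ {z | ‖z‖ ≤ K}) {t : ℝ} (ht : 0 < t) :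
    (∫ z in rct a b c d, gsq G z) ≤ (1 + t) * (∫ z in rct a b c d, gsq H z) +
      (1 + t⁻¹) * (8 * ε ^ 2 * K ^ 2) := by
  have hbd : Bornology.IsBounded (rct a b c d) :=
    (Metric.isBounded_Icc a b).prod (Metric.isBounded_Icc c d)
  have hm : MeasurableSet (rct a b c d) := measurableSet_Icc.prod measurableSet_Icc
  have hvol : volume (rct a b c d) ≤ ENNReal.ofReal ((2 * K) ^ 2) := by
    have h1 : rct a b c d ⊆ Metric.closedBall (0 : ℝ) K ×ˢ Metric.closedBall (0 : ℝ) K := by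
      rw [closedBall_prod_same]
      intro z hz
      exact mem_closedBall_zero_iff.2 (hR hz)
    refine (measure_mono h1).trans ?_
    rw [Measure.volume_eq_prod, Measure.prod_prod, Real.volume_closedBall,
      ← ENNReal.ofReal_mul (by positivity), sq]
  have hfin : volume (rct a b c d) ≠ ⊤ := (hvol.trans_lt ENNReal.ofReal_lt_top).ne
  have hvr : (volume : Measure P).real (rct a b c d) ≤ (2 * K) ^ 2 := by
    unfold Measure.real
    refine (ENNReal.toReal_mono ENNReal.ofReal_ne_top hvol).trans ?_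
    rw [ENNReal.toReal_ofReal (by positivity)]
  have hae : ∀ᵐ z : P, z ∉ Metric.sphere (0 : P) K := by
    have h0 : volume (Metric.sphere (0 : P) K) = 0 := Measure.addHaar_sphere volume (0 : P) K
    exact measure_eq_zero_iff_ae_notMem.1 h0
  have key : (∫ z in rct a b c d, gsq G z) ≤
      ∫ z in rct a b c d, ((1 + t) * gsq H z + (1 + t⁻¹) * (2 * ε ^ 2)) := by
    refine integral_mono_ae (ll_int hG hbd)
      (((ll_int hH hbd).const_mul (1 + t)).add (integrableOn_const hfin)) ?_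
    refine (ae_restrict_iff' hm).2 ?_
    filter_upwards [ll_ae hH, ll_ae hG, hae] with z h1 h2 h3 h4
    have h5 : ‖z‖ < K := lt_of_le_of_ne (hR h4) fun h => h3 (mem_sphere_zero_iff_norm.2 h)
    have h6 := ll_bd (H := fun w => H w - G w) hd z h5
    have e2 : fderiv ℝ (fun w => H w - G w) z = fderiv ℝ H z - fderiv ℝ G z :=
      fderiv_fun_sub h1 h2
    simp only [gsq, e2, _root_.sub_apply] at h6
    have h7 := real_near (fderiv ℝ H z (1, 0)) (fderiv ℝ G z (1, 0)) t ht
    have h8 := real_near (fderiv ℝ H z (0, 1)) (fderiv ℝ G z (0, 1)) t ht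
    have h9 : 0 < 1 + t⁻¹ := by positivity
    have h10 := mul_le_mul_of_nonneg_left h6 h9.le
    change gsq G z ≤ (1 + t) * gsq H z + (1 + t⁻¹) * (2 * ε ^ 2)
    unfold gsq
    nlinarith
  refine key.trans ?_
  rw [integral_add ((ll_int hH hbd).const_mul (1 + t)) (integrableOn_const hfin),
    integral_const_mul, setIntegral_const, smul_eq_mul]
  have h9 : 0 < 1 + t⁻¹ := by positivity
  have h11 : (volume : Measure P).real (rct a b c d) * ((1 + t⁻¹) * (2 * ε ^ 2)) ≤
      (2 * K) ^ 2 * ((1 + t⁻¹) * (2 * ε ^ 2)) :=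
    mul_le_mul_of_nonneg_right hvr (by positivity)
  nlinarith

/-- The boundary of a rectangle does not matter. -/
theorem int_rct_diff {f : P → ℝ} (hf : ∀ U : Set P, Bornology.IsBounded U → IntegrableOn f U)
    {a b c d a' b' c' d' : ℝ} (ha : a ≤ a') (hb : b' ≤ b) (hc : c ≤ c') (hd : d' ≤ d) :
    (∫ z in rct a b c d, f z) = (∫ z in rct a' b' c' d', f z) +
      ∫ z in (Set.Ioo a b ×ˢ Set.Ioo c d) \ rct a' b' c' d', f z := by
  have hsub : rct a' b' c' d' ⊆ rct a b c d :=
    Set.prod_mono (Set.Icc_subset_Icc ha hb) (Set.Icc_subset_Icc hc hd)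
  have hb1 : Bornology.IsBounded (rct a b c d) :=
    (Metric.isBounded_Icc a b).prod (Metric.isBounded_Icc c d)
  have hm : MeasurableSet (rct a' b' c' d') := measurableSet_Icc.prod measurableSet_Icc
  have h1 : (∫ z in rct a b c d \ rct a' b' c' d', f z) =
      (∫ z in rct a b c d, f z) - ∫ z in rct a' b' c' d', f z :=
    setIntegral_sdiff hm (hf _ hb1) hsub
  have h2 : (∫ z in (Set.Ioo a b ×ˢ Set.Ioo c d) \ rct a' b' c' d', f z) =
      ∫ z in rct a b c d \ rct a' b' c' d', f z := by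
    refine setIntegral_congr_set ?_
    have h3 : (Set.Ioo a b ×ˢ Set.Ioo c d : Set P) =ᵐ[volume] rct a b c d := by
      rw [Measure.volume_eq_prod]
      exact Measure.set_prod_ae_eq Ioo_ae_eq_Icc Ioo_ae_eq_Icc
    exact ae_eq_set_sdiff h3 (ae_eq_refl _)
  rw [h2, h1]
  ring

end Pool.Agent.LR
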