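import Pool.Agent.LR.IDefs

/-! # Function classes of block B2b -/

set_option autoImplicit false

noncomputable section

open scoped BigOperators Topology
open MeasureTheory Filter Set

namespace Pool.Agent.LR

/-- Locally Lipschitz (Lipschitz on the squares `{‖z‖ ≤ K}`, sup norm of `ℝ × ℝ`). -/
def LL (H : P → ℝ) : Prop :=
  ∀ K : ℕ, ∃ A : ℝ, ∀ z w : P, ‖z‖ ≤ K → ‖w‖ ≤ K → |H z - H w| ≤ A * ‖z - w‖

/-- `S n` contains locally all sites of `n U`. -/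
def LocIn (U : Set P) (S : ℕ → Finset V) : Prop :=
  ∀ z ∈ U, ∃ r > 0, ∀ᶠ n : ℕ in atTop, ∀ x : V, ‖sc n x - z‖ < r → x ∈ S n

/-- What block B2a provides about the stiffness `κ`. -/
structure KLow (α β κ : ℝ) : Prop where
  nonneg : 0 ≤ κ
  low : ∀ H : P → ℝ, LL H → ∀ U : Set P, IsOpen U → Bornology.IsBounded U → ∀ S : ℕ → Finset V,
    LocIn U S → ∀ ε > 0, ∀ᶠ n : ℕ in atTop,
      κ / 2 * (∫ z in U, gsq H z) - ε ≤ Efr (JJ α β) (S n) (smp H n)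
  lin : ∀ (N : ℕ) (a : V) (t : P),
    Efr (JJ α β) (Finset.Ico a.1 (a.1 + N) ×ˢ Finset.Ico a.2 (a.2 + N))
      (fun x => t.1 * x.1 + t.2 * x.2) ≤ κ / 2 * (t.1 ^ 2 + t.2 ^ 2) * (N : ℝ) ^ 2

/-- Upper bound at dyadic scales on the rectangle `[a,b] × [c,d]`. -/
def UB (α β κ : ℝ) (a b c d : ℝ) (H : P → ℝ) : Prop :=
  ∀ s : ℝ, ∀ ε > 0, ∀ᶠ k : ℕ in atTop,
    Efr (JJ α β) (bx a b c d (2 ^ k)) (smp (fun z => s * H z) (2 ^ k)) ≤
      κ / 2 * s ^ 2 * (∫ z in rct a b c d, gsq H z) + ε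

/-- The class `T`: locally Lipschitz functions with the upper bound on arbitrarily large
rectangles. -/
def TC (α β κ : ℝ) (H : P → ℝ) : Prop :=
  LL H ∧ ∀ K : ℕ, ∃ a b c d : ℝ, a ≤ -K ∧ (K : ℝ) ≤ b ∧ c ≤ -K ∧ (K : ℝ) ≤ d ∧ UB α β κ a b c d H

/-- Dyadic rationals. -/
def Dya (p : ℝ) : Prop := ∃ (j : ℤ) (k : ℕ), p = j / 2 ^ k

/-- Left fold of `H` in the line `x₁ = p`. -/
def fvL (p : ℝ) (H : P → ℝ) : P → ℝ := fun z => if z.1 ≤ p then H z else H (2 * p - z.1, z.2)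

/-- Right fold. -/
def fvR (p : ℝ) (H : P → ℝ) : P → ℝ := fun z => if p ≤ z.1 then H z else H (2 * p - z.1, z.2)

/-- Left fold of `H` in the line `x₁ - x₂ = p`. -/
def fgL (p : ℝ) (H : P → ℝ) : P → ℝ := fun z => if z.1 - z.2 ≤ p then H z else H (z.2 + p, z.1 - p)

/-- Right fold. -/
def fgR (p : ℝ) (H : P → ℝ) : P → ℝ := fun z => if p ≤ z.1 - z.2 then H z else H (z.2 + p, z.1 - p)

end Pool.Agent.LR
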