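import Pool.Agent.LR.B2b.Cls

/-! # LR-B2b-16: one variable: gluing Lipschitz bounds, approximation of `s²` by `|s - p|`

PLAN.
`lip_cells`: walk from `s` to `t` through the cells (induction on the number of cells between them).
`sq_approx`: Riemann sums of `∫ |s - p| dp = s² + K²`.  `δ = 2^{-m}`, nodes `p_i = i δ`, `i ∈ [-K 2^m, K 2^m)`, `g s = ∑ δ |s - p_i|`.  On the
cell `[p_i, p_{i+1}]` `g` is affine with slope `δ (#{p_j ≤ p_i} - #{p_j > p_i}) = 2 p_i + 2 δ`, so for `s, r` in the cell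
`|(s² - g s) - (r² - g r)| = |s - r| |s + r - 2 p_i - 2δ| ≤ 2 δ |s - r|`; then `lip_cells` with `N = K 2^m`, and `2 δ ≤ ε`. -/

set_option autoImplicit false

noncomputable section

open scoped BigOperators Topology
open MeasureTheory Filter Set

namespace Pool.Agent.LR

theorem lip_cells {f : ℝ → ℝ} {δ A : ℝ} (hδ : 0 < δ) (N : ℕ)
    (h : ∀ i : ℤ, -(N : ℤ) ≤ i → i < N → ∀ s t : ℝ, i * δ ≤ s → s ≤ (i + 1) * δ → i * δ ≤ t →
      t ≤ (i + 1) * δ → |f s - f t| ≤ A * |s - t|) :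
    ∀ s t : ℝ, |s| ≤ N * δ → |t| ≤ N * δ → |f s - f t| ≤ A * |s - t| := by
  have key : ∀ k : ℕ, k ≤ 2 * N → ∀ s t : ℝ, -(N * δ) ≤ s → s ≤ t → t ≤ (-(N : ℝ) + k) * δ →
      |f s - f t| ≤ A * (t - s) := by
    intro k
    induction k with
    | zero =>
      intro _ s t h1 h2 h3
      have h4 : s = t := by
        apply le_antisymm h2
        simp only [Nat.cast_zero, add_zero] at h3
        linarith
      subst h4
      simp
    | succ k ih =>
      intro hk s t h1 h2 h3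
      by_cases h4 : t ≤ (-(N : ℝ) + k) * δ
      · exact ih (by omega) s t h1 h2 h4
      · push Not at h4
        have hi1 : -(N : ℤ) ≤ (-(N : ℤ) + k) := by omega
        have hi2 : (-(N : ℤ) + k) < N := by omega
        have hc := h (-(N : ℤ) + k) hi1 hi2
        push_cast at hc h3
        have h3' : t ≤ (-(N : ℝ) + k + 1) * δ := by linarith
        have hcell : (-(N : ℝ) + k) * δ ≤ (-(N : ℝ) + k + 1) * δ := by nlinarith
        by_cases h5 : (-(N : ℝ) + k) * δ ≤ s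
        · have h6 := hc s t h5 (by linarith) h4.le h3'
          rwa [abs_sub_comm s t, abs_of_nonneg (by linarith : (0 : ℝ) ≤ t - s)] at h6
        · push Not at h5
          have h6 := ih (by omega) s ((-(N : ℝ) + k) * δ) h1 h5.le le_rfl
          have h7 := hc ((-(N : ℝ) + k) * δ) t le_rfl hcell h4.le h3'
          rw [abs_sub_comm ((-(N : ℝ) + k) * δ) t,
            abs_of_nonneg (by linarith : (0 : ℝ) ≤ t - (-(N : ℝ) + k) * δ)] at h7
          have h8 := abs_sub_le (f s) (f ((-(N : ℝ) + k) * δ)) (f t)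
          linarith
  intro s t hs ht
  rw [abs_le] at hs ht
  have hN : (N : ℝ) * δ = (-(N : ℝ) + ((2 * N : ℕ) : ℝ)) * δ := by push_cast; ring
  rcases le_total s t with hst | hst
  · have h1 := key (2 * N) le_rfl s t hs.1 hst (by rw [← hN]; exact ht.2)
    rwa [abs_sub_comm s t, abs_of_nonneg (by linarith : (0 : ℝ) ≤ t - s)]
  · have h1 := key (2 * N) le_rfl t s ht.1 hst (by rw [← hN]; exact hs.2)
    rw [abs_sub_comm (f s) (f t), abs_of_nonneg (by linarith : (0 : ℝ) ≤ s - t)]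
    exact h1

private lemma count_sign (N : ℕ) (i : ℤ) (h1 : -(N : ℤ) ≤ i) (h2 : i < N) :
    ∑ j ∈ Finset.Ico (-(N : ℤ)) N, (if j ≤ i then (1 : ℝ) else -1) = 2 * i + 2 := by
  rw [Finset.sum_ite, Finset.sum_const, Finset.sum_const]
  have e1 : (Finset.Ico (-(N : ℤ)) N).filter (fun j => j ≤ i) = Finset.Ico (-(N : ℤ)) (i + 1) := by
    ext j
    simp only [Finset.mem_filter, Finset.mem_Ico]
    omega
  have e2 : (Finset.Ico (-(N : ℤ)) N).filter (fun j => ¬ j ≤ i) = Finset.Ico (i + 1) N := by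
    ext j
    simp only [Finset.mem_filter, Finset.mem_Ico]
    omega
  rw [e1, e2, Int.card_Ico, Int.card_Ico]
  simp only [nsmul_eq_mul]
  have a1 : (((i + 1 - -(N : ℤ)).toNat : ℕ) : ℝ) = (i : ℝ) + 1 + N := by
    have : (((i + 1 - -(N : ℤ)).toNat : ℕ) : ℤ) = i + 1 + N := by
      rw [Int.toNat_of_nonneg (by omega)]
      ring
    exact_mod_cast this
  have a2 : (((N : ℤ) - (i + 1)).toNat : ℝ) = (N : ℝ) - i - 1 := by
    have h3 : ((((N : ℤ) - (i + 1)).toNat : ℕ) : ℤ) = (N : ℤ) - i - 1 := by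
      rw [Int.toNat_of_nonneg (by omega)]
      ring
    exact_mod_cast h3
  rw [a1, a2]
  ring

theorem sq_approx (K : ℕ) {ε : ℝ} (hε : 0 < ε) : ∃ (t : Finset ℤ) (m : ℕ) (c : ℤ → ℝ),
    ∀ s r : ℝ, |s| ≤ K → |r| ≤ K →
      |(s ^ 2 - ∑ i ∈ t, c i * |s - i / 2 ^ m|) - (r ^ 2 - ∑ i ∈ t, c i * |r - i / 2 ^ m|)| ≤
        ε * |s - r| := by
  obtain ⟨m, hm⟩ : ∃ m : ℕ, 2 * ((1 : ℝ) / 2) ^ m ≤ ε := by
    obtain ⟨m, hm⟩ := exists_pow_lt_of_lt_one (half_pos hε) (by norm_num : (1 : ℝ) / 2 < 1)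
    exact ⟨m, by linarith⟩
  set δ : ℝ := ((1 : ℝ) / 2) ^ m with hδdef
  have hδ : 0 < δ := by positivity
  have hdiv : ∀ i : ℤ, (i : ℝ) / 2 ^ m = i * δ := by
    intro i
    rw [hδdef, div_pow, one_pow, mul_one_div]
  refine ⟨Finset.Ico (-((K * 2 ^ m : ℕ) : ℤ)) ((K * 2 ^ m : ℕ) : ℤ), m, fun _ => δ, ?_⟩
  have hNδ : (((K * 2 ^ m : ℕ) : ℝ)) * δ = K := by
    push_cast
    rw [hδdef, div_pow, one_pow]
    field_simp
  have key := lip_cells (f := fun s : ℝ => s ^ 2 -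
      ∑ i ∈ Finset.Ico (-((K * 2 ^ m : ℕ) : ℤ)) ((K * 2 ^ m : ℕ) : ℤ), δ * |s - i / 2 ^ m|)
    (δ := δ) (A := ε) hδ (K * 2 ^ m) (by
      intro i hi1 hi2 s r hs1 hs2 hr1 hr2
      have hcell : ∀ x : ℝ, i * δ ≤ x → x ≤ (i + 1) * δ → ∀ j : ℤ,
          |x - j / 2 ^ m| = (if j ≤ i then (1 : ℝ) else -1) * (x - j * δ) := by
        intro x hx1 hx2 j
        rw [hdiv]
        split_ifs with hj
        · have hj' : (j : ℝ) ≤ i := by exact_mod_cast hj
          have : (j : ℝ) * δ ≤ i * δ := by nlinarith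
          rw [abs_of_nonneg (by linarith)]
          ring
        · have hj' : (i : ℝ) + 1 ≤ j := by
            have : i + 1 ≤ j := by omega
            exact_mod_cast this
          have : ((i : ℝ) + 1) * δ ≤ j * δ := by nlinarith
          rw [abs_of_nonpos (by linarith)]
          ring
      have hsum : (∑ j ∈ Finset.Ico (-((K * 2 ^ m : ℕ) : ℤ)) ((K * 2 ^ m : ℕ) : ℤ),
            δ * |s - j / 2 ^ m|) -
          (∑ j ∈ Finset.Ico (-((K * 2 ^ m : ℕ) : ℤ)) ((K * 2 ^ m : ℕ) : ℤ), δ * |r - j / 2 ^ m|) =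
          δ * (s - r) * (2 * i + 2) := by
        rw [← Finset.sum_sub_distrib, ← count_sign (K * 2 ^ m) i hi1 hi2, Finset.mul_sum]
        refine Finset.sum_congr rfl (fun j _ => ?_)
        rw [hcell s hs1 hs2 j, hcell r hr1 hr2 j]
        ring
      have e : (s ^ 2 - ∑ j ∈ Finset.Ico (-((K * 2 ^ m : ℕ) : ℤ)) ((K * 2 ^ m : ℕ) : ℤ),
            δ * |s - j / 2 ^ m|) -
          (r ^ 2 - ∑ j ∈ Finset.Ico (-((K * 2 ^ m : ℕ) : ℤ)) ((K * 2 ^ m : ℕ) : ℤ),
            δ * |r - j / 2 ^ m|) = (s + r - 2 * i * δ - 2 * δ) * (s - r) := by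
        have : (s ^ 2 - ∑ j ∈ Finset.Ico (-((K * 2 ^ m : ℕ) : ℤ)) ((K * 2 ^ m : ℕ) : ℤ),
            δ * |s - j / 2 ^ m|) -
          (r ^ 2 - ∑ j ∈ Finset.Ico (-((K * 2 ^ m : ℕ) : ℤ)) ((K * 2 ^ m : ℕ) : ℤ),
            δ * |r - j / 2 ^ m|) = s ^ 2 - r ^ 2 -
          ((∑ j ∈ Finset.Ico (-((K * 2 ^ m : ℕ) : ℤ)) ((K * 2 ^ m : ℕ) : ℤ),
            δ * |s - j / 2 ^ m|) -
          (∑ j ∈ Finset.Ico (-((K * 2 ^ m : ℕ) : ℤ)) ((K * 2 ^ m : ℕ) : ℤ),
            δ * |r - j / 2 ^ m|)) := by ring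
        rw [this, hsum]
        ring
      rw [e, abs_mul]
      apply mul_le_mul_of_nonneg_right _ (abs_nonneg _)
      refine le_trans ?_ hm
      rw [abs_le]
      constructor <;> nlinarith)
  intro s r hs hr
  exact key s r (by rw [hNδ]; exact hs) (by rw [hNδ]; exact hr)

end Pool.Agent.LR
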