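import Pool.Agent.LR.B2b.Cls

/-! # LR-B2b-19: dependence of `H(./r)` on the dilation parameter

PLAN. `F z = H (z/r) - H (z/s)` is `C¹` with `fderiv F z = r⁻¹ fderiv H (z/r) - s⁻¹ fderiv H (z/s)`.  On the compact convex set `{‖z‖ ≤ K}`
(`z/r, z/s` stay in it as `r, s ≥ 1`) `fderiv H` is bounded by `B` and uniformly continuous, `‖z/r - z/s‖ ≤ K |r - s|`, `|r⁻¹ - s⁻¹| ≤ |r - s|`:
`‖fderiv F z‖ ≤ B |r-s| + osc(K|r-s|) ≤ ω` for `|r - s| ≤ δ`.  Mean value inequality on a convex set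
(`Convex.norm_image_sub_le_of_norm_fderiv_le`). Here `(w.1/r, w.2/r) = r⁻¹ • w`. -/

set_option autoImplicit false

noncomputable section

open scoped BigOperators Topology
open MeasureTheory Filter Set

namespace Pool.Agent.LR

private lemma dil_smul (r : ℝ) (z : P) : ((z.1 / r, z.2 / r) : P) = r⁻¹ • z := by
  ext
  · simp [div_eq_inv_mul]
  · simp [div_eq_inv_mul]

/-- Small perturbation of the dilation parameter: `H_r - H_s` is small in Lipschitz seminorm. -/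
theorem dil_near {H : P → ℝ} (hH : ContDiff ℝ 1 H) (K : ℕ) {ω : ℝ} (hω : 0 < ω) : ∃ δ > 0,
    ∀ r s : ℝ, 1 ≤ r → r ≤ 2 → 1 ≤ s → s ≤ 2 → |r - s| ≤ δ → ∀ z w : P, ‖z‖ ≤ K → ‖w‖ ≤ K →
      |(H (z.1 / r, z.2 / r) - H (z.1 / s, z.2 / s)) -
        (H (w.1 / r, w.2 / r) - H (w.1 / s, w.2 / s))| ≤ ω * ‖z - w‖ := by
  have hcont : Continuous (fderiv ℝ H) := hH.continuous_fderiv (by norm_num)
  have hcomp : IsCompact (Metric.closedBall (0 : P) (K : ℝ)) := isCompact_closedBall _ _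
  obtain ⟨B, hB⟩ := hcomp.exists_bound_of_continuousOn hcont.continuousOn
  have hB0 : 0 ≤ B := by
    have := hB 0 (by simp)
    exact le_trans (norm_nonneg _) this
  have huc := hcomp.uniformContinuousOn_of_continuous hcont.continuousOn
  rw [Metric.uniformContinuousOn_iff] at huc
  obtain ⟨δ₁, hδ₁, hu⟩ := huc (ω / 2) (by positivity)
  have hK1 : (0 : ℝ) < (K : ℝ) + 1 := by positivity
  refine ⟨min (δ₁ / (2 * ((K : ℝ) + 1))) (ω / (2 * (B + 1))), by positivity, ?_⟩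
  intro r s hr1 hr2 hs1 hs2 hrs z w hz hw
  have hrs1 : |r - s| ≤ δ₁ / (2 * ((K : ℝ) + 1)) := le_trans hrs (min_le_left _ _)
  have hrs2 : |r - s| ≤ ω / (2 * (B + 1)) := le_trans hrs (min_le_right _ _)
  have hr0 : 0 < r := by linarith
  have hs0 : 0 < s := by linarith
  have hinv : |r⁻¹ - s⁻¹| ≤ |r - s| := by
    have : r⁻¹ - s⁻¹ = (s - r) / (r * s) := by field_simp
    rw [this, abs_div, abs_sub_comm s r, abs_of_pos (mul_pos hr0 hs0)]
    apply div_le_self (abs_nonneg _)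
    nlinarith
  have hri : r⁻¹ ≤ 1 := inv_le_one_of_one_le₀ hr1
  have hsi : s⁻¹ ≤ 1 := inv_le_one_of_one_le₀ hs1
  have hri0 : 0 < r⁻¹ := inv_pos.mpr hr0
  have hsi0 : 0 < s⁻¹ := inv_pos.mpr hs0
  have hball : ∀ (t : ℝ), 0 < t → t ≤ 1 → ∀ x : P, ‖x‖ ≤ K → t • x ∈ Metric.closedBall (0 : P) K := by
    intro t ht ht1 x hx
    rw [mem_closedBall_zero_iff, norm_smul, Real.norm_eq_abs, abs_of_pos ht]
    calc t * ‖x‖ ≤ 1 * ‖x‖ := mul_le_mul_of_nonneg_right ht1 (norm_nonneg _)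
      _ = ‖x‖ := one_mul _
      _ ≤ K := hx
  set F : P → ℝ := fun x => H (r⁻¹ • x) - H (s⁻¹ • x) with hF
  have hdiff : Differentiable ℝ H := hH.differentiable (by norm_num)
  have hder : ∀ (t : ℝ) (x : P), HasFDerivAt (fun y : P => H (t • y)) (t • fderiv ℝ H (t • x)) x := by
    intro t x
    have h1 : HasFDerivAt (fun y : P => t • y) (t • ContinuousLinearMap.id ℝ P) x :=
      (hasFDerivAt_id x).const_smul t
    have h2 := (hdiff (t • x)).hasFDerivAt.comp x h1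
    have h3 : (fderiv ℝ H (t • x)).comp (t • ContinuousLinearMap.id ℝ P) =
        t • fderiv ℝ H (t • x) := by
      refine ContinuousLinearMap.ext fun v => ?_
      simp
    rw [h3] at h2
    exact h2
  have hFd : ∀ x : P, HasFDerivAt F (r⁻¹ • fderiv ℝ H (r⁻¹ • x) - s⁻¹ • fderiv ℝ H (s⁻¹ • x)) x :=
    fun x => (hder r⁻¹ x).sub (hder s⁻¹ x)
  have hbd : ∀ x ∈ Metric.closedBall (0 : P) (K : ℝ),
      ‖r⁻¹ • fderiv ℝ H (r⁻¹ • x) - s⁻¹ • fderiv ℝ H (s⁻¹ • x)‖ ≤ ω := by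
    intro x hx
    rw [mem_closedBall_zero_iff] at hx
    have hxr := hball r⁻¹ hri0 hri x hx
    have hxs := hball s⁻¹ hsi0 hsi x hx
    have hd : dist (r⁻¹ • x) (s⁻¹ • x) < δ₁ := by
      rw [dist_eq_norm, ← sub_smul, norm_smul, Real.norm_eq_abs]
      calc |r⁻¹ - s⁻¹| * ‖x‖ ≤ (δ₁ / (2 * ((K : ℝ) + 1))) * ((K : ℝ) + 1) := by
            apply mul_le_mul (le_trans hinv hrs1) (by linarith) (norm_nonneg _) (by positivity)
        _ = δ₁ / 2 := by field_simp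
        _ < δ₁ := by linarith
    have h1 := hu _ hxr _ hxs hd
    rw [dist_eq_norm] at h1
    have h2 : r⁻¹ • fderiv ℝ H (r⁻¹ • x) - s⁻¹ • fderiv ℝ H (s⁻¹ • x) =
        r⁻¹ • (fderiv ℝ H (r⁻¹ • x) - fderiv ℝ H (s⁻¹ • x)) +
          (r⁻¹ - s⁻¹) • fderiv ℝ H (s⁻¹ • x) := by
      refine ContinuousLinearMap.ext fun v => ?_
      simp only [ContinuousLinearMap.sub_apply, ContinuousLinearMap.add_apply,
        ContinuousLinearMap.smul_apply, smul_eq_mul]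
      ring
    rw [h2]
    refine le_trans (norm_add_le _ _) ?_
    rw [norm_smul, norm_smul, Real.norm_eq_abs, Real.norm_eq_abs, abs_of_pos hri0]
    have h3 : r⁻¹ * ‖fderiv ℝ H (r⁻¹ • x) - fderiv ℝ H (s⁻¹ • x)‖ ≤ ω / 2 := by
      calc r⁻¹ * ‖fderiv ℝ H (r⁻¹ • x) - fderiv ℝ H (s⁻¹ • x)‖ ≤ 1 * (ω / 2) :=
            mul_le_mul hri h1.le (norm_nonneg _) zero_le_one
        _ = ω / 2 := one_mul _
    have h4 : |r⁻¹ - s⁻¹| * ‖fderiv ℝ H (s⁻¹ • x)‖ ≤ ω / 2 := by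
      calc |r⁻¹ - s⁻¹| * ‖fderiv ℝ H (s⁻¹ • x)‖ ≤ (ω / (2 * (B + 1))) * (B + 1) := by
            apply mul_le_mul (le_trans hinv hrs2) (by linarith [hB _ hxs]) (norm_nonneg _)
              (by positivity)
        _ = ω / 2 := by field_simp
    linarith
  have hconv := (convex_closedBall (0 : P) (K : ℝ)).norm_image_sub_le_of_norm_hasFDerivWithin_le
    (fun x _ => (hFd x).hasFDerivWithinAt) hbd
    (mem_closedBall_zero_iff.mpr hw) (mem_closedBall_zero_iff.mpr hz)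
  rw [dil_smul, dil_smul, dil_smul, dil_smul]
  rw [Real.norm_eq_abs] at hconv
  exact hconv

end Pool.Agent.LR
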