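import Pool.Agent.LR.B2a.Efr
import Pool.Agent.LR.B2b.Cls

/-! # Facts on `Efr` used in block B2b (adaptors to block B2a) -/

set_option autoImplicit false

noncomputable section

open scoped BigOperators Topology
open MeasureTheory Filter Set

namespace Pool.Agent.LR

theorem efr_congr (J : V → V → ℝ) (S : Finset V) {h h' : V → ℝ} (hh : ∀ x ∈ S, h x = h' x) :
    Efr J S h = Efr J S h' := Efr_congr (c := 0) (fun x hx => by rw [hh x hx, add_zero])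

theorem efr_summable {α β : ℝ} (hα : 4 < α) (hβ : 0 < β) {S : Finset V} {x₀ : V} (hx : x₀ ∈ S)
    (h : V → ℝ) : Summable (wt (Qfr (JJ α β) S) (S.erase x₀) h) :=
  summable_wt (IsCoup.isForm (isCoup_JJ hβ) S) (IsCoup.pdef (isCoup_JJ hβ) hx) h

theorem efr_root {α β : ℝ} (hα : 4 < α) (hβ : 0 < β) {S : Finset V} {x₀ : V} (hx : x₀ ∈ S)
    (h : V → ℝ) : Efr (JJ α β) S h = En (Qfr (JJ α β) S) (S.erase x₀) h := Efr_eq hx h

theorem exr_root {α β : ℝ} (hα : 4 < α) (hβ : 0 < β) {S : Finset V} {x₀ : V} (hx : x₀ ∈ S)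
    (h : V → ℝ) (F : (V → ℝ) → ℝ) (hb : ∃ C, ∀ φ, |F φ| ≤ C)
    (hF : ∀ φ φ' : V → ℝ, ∀ k : ℤ, (∀ x ∈ S, φ' x = φ x + k) → F φ' = F φ) :
    Exr (JJ α β) S h F = Ex (Qfr (JJ α β) S) (S.erase x₀) h (fun ψ => F (emb (S.erase x₀) ψ)) :=
  Exr_eq hx h F (fun f g c hfg => hF g f c hfg)

theorem efr_nonneg {α β : ℝ} (hα : 4 < α) (hβ : 0 < β) (S : Finset V) (h : V → ℝ) :
    0 ≤ Efr (JJ α β) S h := Efr_nonneg (isCoup_JJ hβ) S h

theorem efr_add_const {α β : ℝ} (hα : 4 < α) (hβ : 0 < β) (S : Finset V) (h : V → ℝ) (t : ℝ) :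
    Efr (JJ α β) S (fun x => h x + t) = Efr (JJ α β) S h := Efr_congr (c := t) (fun x hx => rfl)

theorem efr_const {α β : ℝ} (hα : 4 < α) (hβ : 0 < β) (S : Finset V) (t : ℝ) :
    Efr (JJ α β) S (fun _ => t) = 0 := Efr_const (isCoup_JJ hβ) S t

theorem efr_rsd {α β : ℝ} (hα : 4 < α) (hβ : 0 < β) (S : Finset V) (h g : V → ℝ) :
    Efr (JJ α β) S (fun x => h x + g x) + Efr (JJ α β) S (fun x => h x - g x) ≤
      2 * Efr (JJ α β) S h + 2 * Efr (JJ α β) S g := Efr_rsd (isCoup_JJ hβ) S h g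

theorem efr_super {α β : ℝ} (hα : 4 < α) (hβ : 0 < β) {S S₁ S₂ : Finset V} (hd : Disjoint S₁ S₂)
    (h₁ : S₁ ⊆ S) (h₂ : S₂ ⊆ S) (h : V → ℝ) :
    Efr (JJ α β) S₁ h + Efr (JJ α β) S₂ h ≤ Efr (JJ α β) S h :=
  (Efr_union (isCoup_JJ hβ) hd h).trans (Efr_mono (isCoup_JJ hβ) (Finset.union_subset h₁ h₂) h)

theorem efr_mono {α β : ℝ} (hα : 4 < α) (hβ : 0 < β) {S S₁ : Finset V} (h₁ : S₁ ⊆ S) (h : V → ℝ) :
    Efr (JJ α β) S₁ h ≤ Efr (JJ α β) S h := Efr_mono (isCoup_JJ hβ) h₁ h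

theorem efr_lip {α β : ℝ} (hα : 4 < α) (hβ : 0 < β) (S : Finset V) (h g : V → ℝ) :
    |Real.sqrt (2 * Efr (JJ α β) S h) - Real.sqrt (2 * Efr (JJ α β) S g)| ≤
      Real.sqrt (Qfr (JJ α β) S (h - g) (h - g)) := Efr_sqrt_lip (isCoup_JJ hβ) S h g

theorem efr_iso {α β : ℝ} (hα : 4 < α) (hβ : 0 < β) (θ : V ≃ V)
    (hθ : ∀ x y, JJ α β (θ x) (θ y) = JJ α β x y) (S : Finset V) (h : V → ℝ) :
    Efr (JJ α β) (S.map θ.toEmbedding) h = Efr (JJ α β) S (h ∘ θ) := Efr_map θ hθ S h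

theorem qfr_crude {α β : ℝ} (hα : 4 < α) (hβ : 0 < β) (S : Finset V) (h : V → ℝ) {A : ℝ}
    (hA : ∀ x ∈ S, ∀ y ∈ S, |h x - h y| ≤ A * len (x - y)) :
    Qfr (JJ α β) S h h ≤ 2 * cc α β * A ^ 2 * S.card := by
  have := QF_le hα hβ.le S h hA
  simpa [QF] using this

theorem cc_nn {α β : ℝ} (hα : 4 < α) (hβ : 0 < β) : 0 ≤ cc α β := (cc_pos hα hβ).le

end Pool.Agent.LR
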