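import Pool.Agent.LR.B2b.TAall
import Pool.Agent.LR.B2a.Out

/-! # The effective stiffness `κ` satisfies `KapSpec` -/

set_option autoImplicit false

noncomputable section

open scoped BigOperators Topology
open MeasureTheory Filter Set

namespace Pool.Agent.LR

/-- Output of sections 2 and 3 of the blueprint. -/
theorem exists_kap {α β : ℝ} (hα : 4 < α) (hβ : 0 < β) : ∃ κ, KapSpec α β κ :=
  ⟨kap α β,
    { nonneg := kap_nonneg hα hβ
      le := kap_le hα hβ
      ta := fun a b c d _ _ H hH => ta hα hβ (klow hα hβ) (hH.of_le (by norm_num)) a b c d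
      lowD := fun H hH hc Λ hΛ ε hε => En_dir_lower hα hβ H hH hc Λ hΛ hε }⟩

end Pool.Agent.LR
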