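import Pool.Agent.LR.Defs

/-! # LR-B2b-4: exponential of a positive semidefinite kernel, and infinite sums

PLAN. 
`exp_psd`: the matrix `G i j = ∑_{x∈L} ∑_{y∈L} K x y * u i x * u j y` on the finite type `s` is symmetric and positive
semidefinite (`∑ a i a j G i j = ∑ K x y (∑ a i u i x)(∑ a j u j y) ≥ 0`; symmetry of `K` is needed for `IsHermitian`).
By `Matrix.PosSemidef.hadamard` all Hadamard powers `G i j ^ k` are PSD, so `∑ a i a j G i j ^ k / k! ≥ 0`; sum over `k`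
(`Real.exp_eq_exp_ℝ`, `NormedSpace.expSeries_hasSum_exp'` or `Real.hasSum_exp`?, finite sums commute with `tsum`:
`hasSum_sum`, `HasSum.mul_left`, `hasSum_nonneg`).
`exp_psd_pair`: apply `exp_psd` to the index set `s.disjSum s ⊆ Z ⊕ Z` (or `Bool × Z`) with coefficients `a` on the
left copy (vectors `u`) and `-b` on the right copy (vectors `v`), expand the four blocks.
`tsum_kernel_nonneg`: `tendsto_finsetProd_atTop` composed with the diagonal: `s ↦ s ×ˢ s` tends to `atTop`, so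
`∑_{s×s} F → ∑' F` and every term is `≥ 0` (`Finset.sum_product`, `ge_of_tendsto'`). -/

set_option autoImplicit false

noncomputable section

open scoped BigOperators Topology
open MeasureTheory Filter Set

namespace Pool.Agent.LR

variable {W : Type*} [DecidableEq W]

private lemma ep_quad (L : Finset W) (K : W → W → ℝ)
    {Z : Type*} (s : Finset Z) (u : Z → W → ℝ) (a : Z → ℝ) :
    ∑ i ∈ s, ∑ j ∈ s, a i * a j * (∑ x ∈ L, ∑ y ∈ L, K x y * u i x * u j y)
      = ∑ x ∈ L, ∑ y ∈ L, (∑ i ∈ s, a i * u i x) * (∑ j ∈ s, a j * u j y) * K x y := by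
  have h1 : ∀ x y, (∑ i ∈ s, a i * u i x) * (∑ j ∈ s, a j * u j y) * K x y
      = ∑ i ∈ s, ∑ j ∈ s, a i * a j * (K x y * u i x * u j y) := by
    intro x y
    rw [Finset.sum_mul_sum, Finset.sum_mul]
    refine Finset.sum_congr rfl fun i _ => ?_
    rw [Finset.sum_mul]
    refine Finset.sum_congr rfl fun j _ => ?_
    ring
  simp_rw [h1]
  simp_rw [Finset.mul_sum]
  -- LHS: sum i j x y ; RHS: sum x y i j
  calc ∑ i ∈ s, ∑ j ∈ s, ∑ x ∈ L, ∑ y ∈ L, a i * a j * (K x y * u i x * u j y)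
      = ∑ i ∈ s, ∑ x ∈ L, ∑ j ∈ s, ∑ y ∈ L, a i * a j * (K x y * u i x * u j y) := by
        refine Finset.sum_congr rfl fun i _ => Finset.sum_comm
    _ = ∑ x ∈ L, ∑ i ∈ s, ∑ j ∈ s, ∑ y ∈ L, a i * a j * (K x y * u i x * u j y) :=
        Finset.sum_comm
    _ = ∑ x ∈ L, ∑ i ∈ s, ∑ y ∈ L, ∑ j ∈ s, a i * a j * (K x y * u i x * u j y) := by
        refine Finset.sum_congr rfl fun x _ => Finset.sum_congr rfl fun i _ => Finset.sum_comm
    _ = ∑ x ∈ L, ∑ y ∈ L, ∑ i ∈ s, ∑ j ∈ s, a i * a j * (K x y * u i x * u j y) := by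
        refine Finset.sum_congr rfl fun x _ => Finset.sum_comm

private lemma ep_symm (L : Finset W) (K : W → W → ℝ) (hsym : ∀ x y, K x y = K y x)
    {Z : Type*} (u : Z → W → ℝ) (i j : Z) :
    (∑ x ∈ L, ∑ y ∈ L, K x y * u i x * u j y) = ∑ x ∈ L, ∑ y ∈ L, K x y * u j x * u i y := by
  rw [Finset.sum_comm]
  refine Finset.sum_congr rfl fun y _ => Finset.sum_congr rfl fun x _ => ?_
  rw [hsym x y]; ring

private lemma ep_pow_psd (L : Finset W) (K : W → W → ℝ) (hsym : ∀ x y, K x y = K y x)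
    (hK : ∀ c : W → ℝ, 0 ≤ ∑ x ∈ L, ∑ y ∈ L, c x * c y * K x y) {Z : Type*} (s : Finset Z)
    (u : Z → W → ℝ) (k : ℕ) :
    (Matrix.of fun i j : s => (∑ x ∈ L, ∑ y ∈ L, K x y * u i x * u j y) ^ k).PosSemidef := by
  induction k with
  | zero =>
    apply Matrix.PosSemidef.of_dotProduct_mulVec_nonneg
    · ext i j; simp
    · intro x
      have : star x ⬝ᵥ ((Matrix.of fun i j : s =>
          (∑ x ∈ L, ∑ y ∈ L, K x y * u i x * u j y) ^ 0).mulVec x) = (∑ i, x i) * (∑ i, x i) := by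
        simp [dotProduct, Matrix.mulVec, Finset.sum_mul]
      rw [this]
      exact mul_self_nonneg _
  | succ k ih =>
    have h1 : (Matrix.of fun i j : s => (∑ x ∈ L, ∑ y ∈ L, K x y * u i x * u j y)).PosSemidef := by
      apply Matrix.PosSemidef.of_dotProduct_mulVec_nonneg
      · ext i j
        simp only [Matrix.conjTranspose_apply, Matrix.of_apply, star_trivial]
        exact ep_symm L K hsym u j i
      · intro c
        have e : star c ⬝ᵥ ((Matrix.of fun i j : s =>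
            (∑ x ∈ L, ∑ y ∈ L, K x y * u i x * u j y)).mulVec c)
            = ∑ i ∈ (Finset.univ : Finset s), ∑ j ∈ (Finset.univ : Finset s),
              c i * c j * (∑ x ∈ L, ∑ y ∈ L, K x y * u i x * u j y) := by
          simp only [dotProduct, Matrix.mulVec, Matrix.of_apply, Pi.star_apply, star_trivial]
          refine Finset.sum_congr rfl fun i _ => ?_
          rw [Finset.mul_sum]
          refine Finset.sum_congr rfl fun j _ => ?_
          ring
        rw [e, ep_quad L K Finset.univ (fun i : s => u i) c]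
        exact hK _
    have h2 := ih.hadamard h1
    have e : (Matrix.of fun i j : s => (∑ x ∈ L, ∑ y ∈ L, K x y * u i x * u j y) ^ (k + 1))
        = Matrix.hadamard (Matrix.of fun i j : s => (∑ x ∈ L, ∑ y ∈ L, K x y * u i x * u j y) ^ k)
          (Matrix.of fun i j : s => (∑ x ∈ L, ∑ y ∈ L, K x y * u i x * u j y)) := by
      ext i j
      simp [Matrix.hadamard_apply, pow_succ]
    rw [e]
    exact h2

private lemma ep_pow_sum (L : Finset W) (K : W → W → ℝ) (hsym : ∀ x y, K x y = K y x)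
    (hK : ∀ c : W → ℝ, 0 ≤ ∑ x ∈ L, ∑ y ∈ L, c x * c y * K x y) {Z : Type*} (s : Finset Z)
    (u : Z → W → ℝ) (a : Z → ℝ) (k : ℕ) :
    0 ≤ ∑ i ∈ s, ∑ j ∈ s, a i * a j * (∑ x ∈ L, ∑ y ∈ L, K x y * u i x * u j y) ^ k := by
  have h := (ep_pow_psd L K hsym hK s u k).dotProduct_mulVec_nonneg (fun i : s => a i)
  have e : star (fun i : s => a i) ⬝ᵥ ((Matrix.of fun i j : s =>
      (∑ x ∈ L, ∑ y ∈ L, K x y * u i x * u j y) ^ k).mulVec (fun i : s => a i))
      = ∑ i ∈ s, ∑ j ∈ s, a i * a j * (∑ x ∈ L, ∑ y ∈ L, K x y * u i x * u j y) ^ k := by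
    simp only [dotProduct, Matrix.mulVec, Matrix.of_apply, Pi.star_apply, star_trivial]
    rw [← Finset.sum_coe_sort s]
    refine Finset.sum_congr rfl fun i _ => ?_
    rw [← Finset.sum_coe_sort s, Finset.mul_sum]
    refine Finset.sum_congr rfl fun j _ => ?_
    ring
  rw [e] at h
  exact h

theorem exp_psd (L : Finset W) (K : W → W → ℝ) (hsym : ∀ x y, K x y = K y x)
    (hK : ∀ c : W → ℝ, 0 ≤ ∑ x ∈ L, ∑ y ∈ L, c x * c y * K x y) {Z : Type*} (s : Finset Z)
    (u : Z → W → ℝ) (a : Z → ℝ) :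
    0 ≤ ∑ i ∈ s, ∑ j ∈ s, a i * a j * Real.exp (∑ x ∈ L, ∑ y ∈ L, K x y * u i x * u j y) := by
  have hs : HasSum (fun k : ℕ => ∑ i ∈ s, ∑ j ∈ s,
      a i * a j * ((∑ x ∈ L, ∑ y ∈ L, K x y * u i x * u j y) ^ k / (k.factorial : ℝ)))
      (∑ i ∈ s, ∑ j ∈ s, a i * a j * Real.exp (∑ x ∈ L, ∑ y ∈ L, K x y * u i x * u j y)) := by
    refine hasSum_sum fun i _ => hasSum_sum fun j _ => ?_
    apply HasSum.mul_left
    rw [Real.exp_eq_exp_ℝ]
    exact NormedSpace.expSeries_div_hasSum_exp _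
  refine hs.nonneg fun k => ?_
  have e : ∑ i ∈ s, ∑ j ∈ s,
      a i * a j * ((∑ x ∈ L, ∑ y ∈ L, K x y * u i x * u j y) ^ k / (k.factorial : ℝ))
      = (∑ i ∈ s, ∑ j ∈ s, a i * a j * (∑ x ∈ L, ∑ y ∈ L, K x y * u i x * u j y) ^ k)
        / (k.factorial : ℝ) := by
    rw [Finset.sum_div]
    refine Finset.sum_congr rfl fun i _ => ?_
    rw [Finset.sum_div]
    refine Finset.sum_congr rfl fun j _ => ?_
    ring
  rw [e]
  exact div_nonneg (ep_pow_sum L K hsym hK s u a k) (by positivity)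

theorem exp_psd_pair (L : Finset W) (K : W → W → ℝ) (hsym : ∀ x y, K x y = K y x)
    (hK : ∀ c : W → ℝ, 0 ≤ ∑ x ∈ L, ∑ y ∈ L, c x * c y * K x y) {Z : Type*} (s : Finset Z)
    (u v : Z → W → ℝ) (a b : Z → ℝ) :
    0 ≤ ∑ i ∈ s, ∑ j ∈ s,
      (a i * a j * Real.exp (∑ x ∈ L, ∑ y ∈ L, K x y * u i x * u j y)
        + b i * b j * Real.exp (∑ x ∈ L, ∑ y ∈ L, K x y * v i x * v j y)
        - a i * b j * Real.exp (∑ x ∈ L, ∑ y ∈ L, K x y * u i x * v j y)
        - b i * a j * Real.exp (∑ x ∈ L, ∑ y ∈ L, K x y * v i x * u j y)) := by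
  have h := exp_psd L K hsym hK (s.disjSum s) (Sum.elim u v) (Sum.elim a (fun i => - b i))
  rw [Finset.sum_disjSum] at h
  simp only [Finset.sum_disjSum, Sum.elim_inl, Sum.elim_inr] at h
  rw [← Finset.sum_add_distrib] at h
  have e : ∀ i ∈ s, ((∑ j ∈ s, a i * a j * Real.exp (∑ x ∈ L, ∑ y ∈ L, K x y * u i x * u j y)
      + ∑ j ∈ s, a i * -b j * Real.exp (∑ x ∈ L, ∑ y ∈ L, K x y * u i x * v j y))
      + (∑ j ∈ s, -b i * a j * Real.exp (∑ x ∈ L, ∑ y ∈ L, K x y * v i x * u j y)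
      + ∑ j ∈ s, -b i * -b j * Real.exp (∑ x ∈ L, ∑ y ∈ L, K x y * v i x * v j y)))
      = ∑ j ∈ s, (a i * a j * Real.exp (∑ x ∈ L, ∑ y ∈ L, K x y * u i x * u j y)
        + b i * b j * Real.exp (∑ x ∈ L, ∑ y ∈ L, K x y * v i x * v j y)
        - a i * b j * Real.exp (∑ x ∈ L, ∑ y ∈ L, K x y * u i x * v j y)
        - b i * a j * Real.exp (∑ x ∈ L, ∑ y ∈ L, K x y * v i x * u j y)) := by
    intro i _
    rw [← Finset.sum_add_distrib, ← Finset.sum_add_distrib, ← Finset.sum_add_distrib]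
    refine Finset.sum_congr rfl fun j _ => ?_
    ring
  rw [Finset.sum_congr rfl e] at h
  exact h

theorem tsum_kernel_nonneg {Z : Type*} (F : Z × Z → ℝ) (hF : Summable F)
    (hp : ∀ s : Finset Z, 0 ≤ ∑ i ∈ s, ∑ j ∈ s, F (i, j)) : 0 ≤ ∑' p, F p := by
  have h1 : Tendsto (fun p : Finset Z × Finset Z => ∑ q ∈ p.1 ×ˢ p.2, F q) atTop
      (𝓝 (∑' p, F p)) := hF.hasSum.comp tendsto_finsetProd_atTop
  have h2 : Tendsto (fun s : Finset Z => (s, s)) atTop (atTop : Filter (Finset Z × Finset Z)) := by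
    rw [← prod_atTop_atTop_eq]
    exact tendsto_id.prodMk tendsto_id
  have h3 := h1.comp h2
  refine ge_of_tendsto' h3 fun s => ?_
  simp only [Function.comp]
  rw [Finset.sum_product]
  exact hp s

end Pool.Agent.LR
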