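import Pool.Agent.LR.B2b.LLfacts

/-! # LR-B2b-11: folds and symmetries: local Lipschitz property and integrals of `gsq`

PLAN. Folds are compositions with 1-Lipschitz maps (sup norm):
`fvL p H z = H (min z.1 (2p - z.1), z.2)`, `fvR p H z = H (max z.1 (2p - z.1), z.2)`,
`fgL p H z = H (min z.1 (z.2+p), max z.2 (z.1-p))`, `fgR p H z = H (max z.1 (z.2+p), min z.2 (z.1-p))`; the maps move `{‖z‖≤K}`
into `{‖z‖ ≤ K + 2|p|}`.
Integrals: off the mirror (a null set) `fvL p H` is locally equal to `H` (left) or to `H ∘ θ` (right), `θ z = (2p - z.1, z.2)`.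
`gsq (H ∘ θ) z = gsq H (θ z)` for an affine isometry `θ` with linear part a signed permutation matrix: `θ = (· + v) ∘ ℓ`,
`fderiv_comp_add_right`, `ContinuousLinearEquiv.comp_right_fderiv` (true also at non-differentiability points).  `θ` preserves
Lebesgue measure (reflections, translations, swap: `MeasurePreserving`, `Measure.prod` swap), so with
`U_- = U ∩ {z.1 < p}`, `U_+ = U ∩ {p < z.1}`: `∫_U gsq (fvL p H) = 2 ∫_{U_-} gsq H`, `∫_U gsq (fvR p H) = 2 ∫_{U_+} gsq H`
(`U` symmetric).  Integrability from `ll_int`. -/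

set_option autoImplicit false

noncomputable section

open scoped BigOperators Topology Pointwise
open MeasureTheory Filter Set

namespace Pool.Agent.LR

private theorem ll_comp {H : P → ℝ} (hH : LL H) {T : P → P}
    (hT : ∀ z w : P, ‖T z - T w‖ ≤ ‖z - w‖) : LL (fun z => H (T z)) := by
  intro K
  obtain ⟨M, hM⟩ := exists_nat_ge (‖T 0‖ + K)
  obtain ⟨A, hA⟩ := hH M
  have hb : ∀ z : P, ‖z‖ ≤ K → ‖T z‖ ≤ M := by
    intro z hz
    have h1 := hT z 0
    rw [sub_zero] at h1
    have h2 : ‖T z‖ ≤ ‖T z - T 0‖ + ‖T 0‖ := by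
      have := norm_add_le (T z - T 0) (T 0)
      rwa [sub_add_cancel] at this
    linarith
  refine ⟨|A|, fun z w hz hw => ?_⟩
  refine (hA _ _ (hb z hz) (hb w hw)).trans ?_
  exact (mul_le_mul_of_nonneg_right (le_abs_self A) (norm_nonneg _)).trans
    (mul_le_mul_of_nonneg_left (hT z w) (abs_nonneg A))

private theorem norm_le_iff (z : P) (r : ℝ) : ‖z‖ ≤ r ↔ |z.1| ≤ r ∧ |z.2| ≤ r := by
  rw [Prod.norm_def, Real.norm_eq_abs, Real.norm_eq_abs, max_le_iff]

private theorem fst_le (z : P) : |z.1| ≤ ‖z‖ := ((norm_le_iff z _).1 le_rfl).1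

private theorem snd_le (z : P) : |z.2| ≤ ‖z‖ := ((norm_le_iff z _).1 le_rfl).2

theorem ll_fvL {H : P → ℝ} (hH : LL H) (p : ℝ) : LL (fvL p H) := by
  have e : fvL p H = fun z => H ((fun z : P => ((min z.1 (2 * p - z.1), z.2) : P)) z) := by
    funext z
    unfold fvL
    split_ifs with h
    · change H z = H (min z.1 (2 * p - z.1), z.2)
      rw [min_eq_left (by linarith)]
    · change H _ = H (min z.1 (2 * p - z.1), z.2)
      rw [min_eq_right (by linarith)]
  rw [e]
  refine ll_comp hH fun z w => ?_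
  rw [norm_le_iff]
  have h1 := fst_le (z - w)
  have h2 := snd_le (z - w)
  refine ⟨?_, h2⟩
  refine (abs_min_sub_min_le_max _ _ _ _).trans (max_le h1 ?_)
  have : 2 * p - z.1 - (2 * p - w.1) = -(z - w).1 := by
    simp only [Prod.fst_sub]
    ring
  rw [this, abs_neg]
  exact h1

theorem ll_fvR {H : P → ℝ} (hH : LL H) (p : ℝ) : LL (fvR p H) := by
  have e : fvR p H = fun z => H ((fun z : P => ((max z.1 (2 * p - z.1), z.2) : P)) z) := by
    funext z
    unfold fvR
    split_ifs with h
    · change H z = H (max z.1 (2 * p - z.1), z.2)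
      rw [max_eq_left (by linarith)]
    · change H _ = H (max z.1 (2 * p - z.1), z.2)
      rw [max_eq_right (by linarith)]
  rw [e]
  refine ll_comp hH fun z w => ?_
  rw [norm_le_iff]
  have h1 := fst_le (z - w)
  have h2 := snd_le (z - w)
  refine ⟨?_, h2⟩
  refine (abs_max_sub_max_le_max _ _ _ _).trans (max_le h1 ?_)
  have : 2 * p - z.1 - (2 * p - w.1) = -(z - w).1 := by
    simp only [Prod.fst_sub]
    ring
  rw [this, abs_neg]
  exact h1

theorem ll_fgL {H : P → ℝ} (hH : LL H) (p : ℝ) : LL (fgL p H) := by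
  have e : fgL p H =
      fun z => H ((fun z : P => ((min z.1 (z.2 + p), max z.2 (z.1 - p)) : P)) z) := by
    funext z
    unfold fgL
    split_ifs with h
    · change H z = H (min z.1 (z.2 + p), max z.2 (z.1 - p))
      rw [min_eq_left (by linarith), max_eq_left (by linarith)]
    · change H _ = H (min z.1 (z.2 + p), max z.2 (z.1 - p))
      rw [min_eq_right (by linarith), max_eq_right (by linarith)]
  rw [e]
  refine ll_comp hH fun z w => ?_
  rw [norm_le_iff]
  have h1 := fst_le (z - w)
  have h2 := snd_le (z - w)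
  constructor
  · refine (abs_min_sub_min_le_max _ _ _ _).trans (max_le h1 ?_)
    rw [add_sub_add_right_eq_sub]
    exact h2
  · refine (abs_max_sub_max_le_max _ _ _ _).trans (max_le h2 ?_)
    rw [sub_sub_sub_cancel_right]
    exact h1

theorem ll_fgR {H : P → ℝ} (hH : LL H) (p : ℝ) : LL (fgR p H) := by
  have e : fgR p H =
      fun z => H ((fun z : P => ((max z.1 (z.2 + p), min z.2 (z.1 - p)) : P)) z) := by
    funext z
    unfold fgR
    split_ifs with h
    · change H z = H (max z.1 (z.2 + p), min z.2 (z.1 - p))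
      rw [max_eq_left (by linarith), min_eq_left (by linarith)]
    · change H _ = H (max z.1 (z.2 + p), min z.2 (z.1 - p))
      rw [max_eq_right (by linarith), min_eq_right (by linarith)]
  rw [e]
  refine ll_comp hH fun z w => ?_
  rw [norm_le_iff]
  have h1 := fst_le (z - w)
  have h2 := snd_le (z - w)
  constructor
  · refine (abs_max_sub_max_le_max _ _ _ _).trans (max_le h1 ?_)
    rw [add_sub_add_right_eq_sub]
    exact h2
  · refine (abs_min_sub_min_le_max _ _ _ _).trans (max_le h2 ?_)
    rw [sub_sub_sub_cancel_right]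
    exact h1

theorem ll_swap {H : P → ℝ} (hH : LL H) : LL (fun z => H (z.2, z.1)) := by
  refine ll_comp hH (T := fun z => (z.2, z.1)) fun z w => ?_
  rw [norm_le_iff]
  exact ⟨snd_le (z - w), fst_le (z - w)⟩

theorem ll_neg2 {H : P → ℝ} (hH : LL H) : LL (fun z => H (z.1, -z.2)) := by
  refine ll_comp hH (T := fun z => (z.1, -z.2)) fun z w => ?_
  rw [norm_le_iff]
  refine ⟨fst_le (z - w), ?_⟩
  have : -z.2 - -w.2 = -(z - w).2 := by
    simp only [Prod.snd_sub]
    ring
  change |-z.2 - -w.2| ≤ _
  rw [this, abs_neg]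
  exact snd_le (z - w)

/-! ### affine changes of variables -/

private theorem fderiv_aff (H : P → ℝ) (v : P) (iso : P ≃L[ℝ] P) (z : P) :
    fderiv ℝ (fun z => H (v + iso z)) z = (fderiv ℝ H (v + iso z)).comp (iso : P →L[ℝ] P) := by
  have h := iso.comp_right_fderiv (f := fun w => H (v + w)) (x := z)
  rw [fderiv_comp_add_left] at h
  exact h

private theorem gsq_nonneg'' (H : P → ℝ) (z : P) : 0 ≤ gsq H z := by
  unfold gsq
  positivity

/-- `(x, y) ↦ (-x, y)` -/
private def isoA : P ≃L[ℝ] P :=
  (ContinuousLinearEquiv.neg ℝ).prodCongr (ContinuousLinearEquiv.refl ℝ ℝ)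

private def isoB : P ≃L[ℝ] P :=
  (ContinuousLinearEquiv.refl ℝ ℝ).prodCongr (ContinuousLinearEquiv.neg ℝ)

private def isoS : P ≃L[ℝ] P := ContinuousLinearEquiv.prodComm ℝ ℝ ℝ

private theorem isoA_apply (z : P) : isoA z = (-z.1, z.2) := rfl

private theorem isoB_apply (z : P) : isoB z = (z.1, -z.2) := rfl

private theorem isoS_apply (z : P) : isoS z = (z.2, z.1) := rfl

private theorem gsq_A (H : P → ℝ) (v : P) (z : P) :
    gsq (fun z => H (v + isoA z)) z = gsq H (v + isoA z) := by
  unfold gsq
  rw [fderiv_aff]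
  simp only [ContinuousLinearMap.comp_apply, ContinuousLinearEquiv.coe_coe, isoA_apply]
  have e : ((-(1 : ℝ), (0 : ℝ)) : P) = -((1 : ℝ), (0 : ℝ)) := by simp
  rw [e, map_neg, neg_sq, neg_zero]

private theorem gsq_B (H : P → ℝ) (v : P) (z : P) :
    gsq (fun z => H (v + isoB z)) z = gsq H (v + isoB z) := by
  unfold gsq
  rw [fderiv_aff]
  simp only [ContinuousLinearMap.comp_apply, ContinuousLinearEquiv.coe_coe, isoB_apply]
  have e : (((0 : ℝ), -(1 : ℝ)) : P) = -((0 : ℝ), (1 : ℝ)) := by simp
  rw [e, map_neg, neg_sq, neg_zero]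

private theorem gsq_S (H : P → ℝ) (v : P) (z : P) :
    gsq (fun z => H (v + isoS z)) z = gsq H (v + isoS z) := by
  unfold gsq
  rw [fderiv_aff]
  simp only [ContinuousLinearMap.comp_apply, ContinuousLinearEquiv.coe_coe, isoS_apply]
  ring

/-- the reflection in `x = p` -/
private def thv (p : ℝ) : P ≃ᵐ P :=
  (MeasurableEquiv.subLeft (2 * p)).prodCongr (MeasurableEquiv.refl ℝ)

private theorem thv_apply (p : ℝ) (z : P) : thv p z = (2 * p - z.1, z.2) := rfl

private def thg (p : ℝ) : P ≃ᵐ P :=
  MeasurableEquiv.prodComm.trans ((MeasurableEquiv.addRight p).prodCongr (MeasurableEquiv.subRight p))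

private theorem thg_apply (p : ℝ) (z : P) : thg p z = (z.2 + p, z.1 - p) := rfl

private def thn : P ≃ᵐ P :=
  (MeasurableEquiv.refl ℝ).prodCongr (MeasurableEquiv.neg ℝ)

private theorem thn_apply (z : P) : thn z = (z.1, -z.2) := rfl

private theorem mp_thv (p : ℝ) : MeasurePreserving (thv p) (volume : Measure P) volume :=
  (Measure.measurePreserving_sub_left volume (2 * p)).prod (MeasurePreserving.id volume)

private theorem mp_thg (p : ℝ) : MeasurePreserving (thg p) (volume : Measure P) volume :=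
  ((measurePreserving_add_right volume p).prod (measurePreserving_sub_right volume p)).comp
    Measure.measurePreserving_swap

private theorem mp_thn : MeasurePreserving thn (volume : Measure P) volume :=
  (MeasurePreserving.id volume).prod (Measure.measurePreserving_neg volume)

private theorem set_int {θ : P ≃ᵐ P} (h : MeasurePreserving θ (volume : Measure P) volume)
    (f : P → ℝ) (s : Set P) : ∫ z in θ ⁻¹' s, f (θ z) = ∫ z in s, f z :=
  h.setIntegral_preimage_emb θ.measurableEmbedding f s

private theorem gsq_thv (H : P → ℝ) (p : ℝ) (z : P) :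
    gsq (fun w => H (2 * p - w.1, w.2)) z = gsq H (thv p z) := by
  have h := gsq_A H (2 * p, 0) z
  have e : ∀ w : P, ((2 * p, 0) : P) + isoA w = (2 * p - w.1, w.2) := by
    intro w
    rw [isoA_apply, Prod.mk_add_mk, zero_add, sub_eq_add_neg]
  simp only [e] at h
  exact h

private theorem gsq_thg (H : P → ℝ) (p : ℝ) (z : P) :
    gsq (fun w => H (w.2 + p, w.1 - p)) z = gsq H (thg p z) := by
  have h := gsq_S H (p, -p) z
  have e : ∀ w : P, ((p, -p) : P) + isoS w = (w.2 + p, w.1 - p) := by
    intro w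
    rw [isoS_apply, Prod.mk_add_mk, add_comm p, neg_add_eq_sub]
  simp only [e] at h
  exact h

private theorem gsq_thn (H : P → ℝ) (z : P) :
    gsq (fun w => H (w.1, -w.2)) z = gsq H (thn z) := by
  have h := gsq_B H 0 z
  simp only [zero_add] at h
  exact h

private theorem gsq_sw (H : P → ℝ) (z : P) :
    gsq (fun w => H (w.2, w.1)) z = gsq H (z.2, z.1) := by
  have h := gsq_S H 0 z
  simp only [zero_add] at h
  exact h

private theorem bd_rct (a b c d : ℝ) : Bornology.IsBounded (rct a b c d) :=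
  (Metric.isBounded_Icc a b).prod (Metric.isBounded_Icc c d)

private theorem ae_fst (p : ℝ) : ∀ᵐ z : P, z.1 ≠ p := by
  have h : (volume : Measure P) {z : P | z.1 = p} = 0 := by
    have e : {z : P | z.1 = p} = ({p} : Set ℝ) ×ˢ (univ : Set ℝ) := by
      ext z
      simp
    rw [e, Measure.volume_eq_prod, Measure.prod_prod, Real.volume_singleton, zero_mul]
  exact measure_eq_zero_iff_ae_notMem.1 h

private theorem ae_diag (p : ℝ) : ∀ᵐ z : P, z.1 - z.2 ≠ p := by
  have h : (volume : Measure P) {z : P | z.1 - z.2 = p} = 0 := by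
    have hm : MeasurableSet {z : P | z.1 - z.2 = p} :=
      measurableSet_eq_fun (measurable_fst.sub measurable_snd) measurable_const
    rw [Measure.volume_eq_prod, Measure.measure_prod_null hm]
    refine Filter.Eventually.of_forall fun x => ?_
    have e : Prod.mk x ⁻¹' {z : P | z.1 - z.2 = p} = {x - p} := by
      ext y
      simp only [mem_preimage, mem_ofPred_eq, mem_singleton_iff]
      constructor <;> intro h <;> linarith
    change volume (Prod.mk x ⁻¹' {z : P | z.1 - z.2 = p}) = 0
    rw [e]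
    exact Real.volume_singleton
  exact measure_eq_zero_iff_ae_notMem.1 h

/-- the common argument -/
private theorem int_fold {H FL FR HT : P → ℝ} (hL : LL FL) (hR : LL FR) (hH : LL H) (hT : LL HT)
    {θ : P ≃ᵐ P} (hθ : MeasurePreserving θ (volume : Measure P) volume) {U : Set P}
    (hU : Bornology.IsBounded U) (hUθ : θ ⁻¹' U = U) (hgT : ∀ z, gsq HT z = gsq H (θ z))
    (hae : ∀ᵐ z : P, gsq FL z + gsq FR z = gsq H z + gsq HT z) :
    (∫ z in U, gsq FL z) + (∫ z in U, gsq FR z) = 2 * ∫ z in U, gsq H z := by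
  rw [← integral_add (ll_int hL hU) (ll_int hR hU)]
  have h1 : ∫ z in U, (gsq FL z + gsq FR z) = ∫ z in U, (gsq H z + gsq HT z) :=
    integral_congr_ae (ae_restrict_of_ae hae)
  rw [h1, integral_add (ll_int hH hU) (ll_int hT hU)]
  simp only [hgT]
  have h2 := set_int hθ (gsq H) U
  rw [hUθ] at h2
  rw [h2]
  ring

theorem int_fv {H : P → ℝ} (hH : LL H) (p K c d : ℝ) :
    (∫ z in rct (p - K) (p + K) c d, gsq (fvL p H) z) +
      (∫ z in rct (p - K) (p + K) c d, gsq (fvR p H) z) =
      2 * ∫ z in rct (p - K) (p + K) c d, gsq H z := by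
  have hT : LL (fun w : P => H (2 * p - w.1, w.2)) := by
    refine ll_comp hH (T := fun w => (2 * p - w.1, w.2)) fun z w => ?_
    rw [norm_le_iff]
    refine ⟨?_, snd_le (z - w)⟩
    have : 2 * p - z.1 - (2 * p - w.1) = -(z - w).1 := by
      simp only [Prod.fst_sub]
      ring
    change |2 * p - z.1 - (2 * p - w.1)| ≤ _
    rw [this, abs_neg]
    exact fst_le (z - w)
  refine int_fold (ll_fvL hH p) (ll_fvR hH p) hH hT (mp_thv p) (bd_rct _ _ _ _) ?_
    (fun z => gsq_thv H p z) ?_
  · ext z
    simp only [mem_preimage, thv_apply, rct, mem_prod, mem_Icc]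
    constructor
    · rintro ⟨⟨h1, h2⟩, h3⟩
      exact ⟨⟨by linarith, by linarith⟩, h3⟩
    · rintro ⟨⟨h1, h2⟩, h3⟩
      exact ⟨⟨by linarith, by linarith⟩, h3⟩
  · filter_upwards [ae_fst p] with z hz
    rcases lt_or_gt_of_ne hz with h | h
    · have hev : ∀ᶠ w : P in 𝓝 z, w.1 < p :=
        (continuous_fst.tendsto z).eventually (gt_mem_nhds h)
      have e1 : gsq (fvL p H) z = gsq H z := by
        refine gsq_congr ?_
        filter_upwards [hev] with w hw
        unfold fvL
        rw [if_pos hw.le]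
      have e2 : gsq (fvR p H) z = gsq (fun w : P => H (2 * p - w.1, w.2)) z := by
        refine gsq_congr ?_
        filter_upwards [hev] with w hw
        unfold fvR
        rw [if_neg (not_le.2 hw)]
      rw [e1, e2]
    · have hev : ∀ᶠ w : P in 𝓝 z, p < w.1 :=
        (continuous_fst.tendsto z).eventually (lt_mem_nhds h)
      have e1 : gsq (fvR p H) z = gsq H z := by
        refine gsq_congr ?_
        filter_upwards [hev] with w hw
        unfold fvR
        rw [if_pos hw.le]
      have e2 : gsq (fvL p H) z = gsq (fun w : P => H (2 * p - w.1, w.2)) z := by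
        refine gsq_congr ?_
        filter_upwards [hev] with w hw
        unfold fvL
        rw [if_neg (not_le.2 hw)]
      rw [e1, e2, add_comm]

theorem int_fg {H : P → ℝ} (hH : LL H) (p K : ℝ) :
    (∫ z in rct (p - K) (p + K) (-K) K, gsq (fgL p H) z) +
      (∫ z in rct (p - K) (p + K) (-K) K, gsq (fgR p H) z) =
      2 * ∫ z in rct (p - K) (p + K) (-K) K, gsq H z := by
  have hT : LL (fun w : P => H (w.2 + p, w.1 - p)) := by
    refine ll_comp hH (T := fun w => (w.2 + p, w.1 - p)) fun z w => ?_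
    rw [norm_le_iff]
    constructor
    · change |z.2 + p - (w.2 + p)| ≤ _
      rw [add_sub_add_right_eq_sub]
      exact snd_le (z - w)
    · change |z.1 - p - (w.1 - p)| ≤ _
      rw [sub_sub_sub_cancel_right]
      exact fst_le (z - w)
  refine int_fold (ll_fgL hH p) (ll_fgR hH p) hH hT (mp_thg p) (bd_rct _ _ _ _) ?_
    (fun z => gsq_thg H p z) ?_
  · ext z
    simp only [mem_preimage, thg_apply, rct, mem_prod, mem_Icc]
    constructor
    · rintro ⟨⟨h1, h2⟩, h3, h4⟩
      exact ⟨⟨by linarith, by linarith⟩, by linarith, by linarith⟩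
    · rintro ⟨⟨h1, h2⟩, h3, h4⟩
      exact ⟨⟨by linarith, by linarith⟩, by linarith, by linarith⟩
  · filter_upwards [ae_diag p] with z hz
    have hc : Continuous fun w : P => w.1 - w.2 := continuous_fst.sub continuous_snd
    rcases lt_or_gt_of_ne hz with h | h
    · have hev : ∀ᶠ w : P in 𝓝 z, w.1 - w.2 < p :=
        (hc.tendsto z).eventually (gt_mem_nhds h)
      have e1 : gsq (fgL p H) z = gsq H z := by
        refine gsq_congr ?_
        filter_upwards [hev] with w hw
        unfold fgL
        rw [if_pos hw.le]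
      have e2 : gsq (fgR p H) z = gsq (fun w : P => H (w.2 + p, w.1 - p)) z := by
        refine gsq_congr ?_
        filter_upwards [hev] with w hw
        unfold fgR
        rw [if_neg (not_le.2 hw)]
      rw [e1, e2]
    · have hev : ∀ᶠ w : P in 𝓝 z, p < w.1 - w.2 :=
        (hc.tendsto z).eventually (lt_mem_nhds h)
      have e1 : gsq (fgR p H) z = gsq H z := by
        refine gsq_congr ?_
        filter_upwards [hev] with w hw
        unfold fgR
        rw [if_pos hw.le]
      have e2 : gsq (fgL p H) z = gsq (fun w : P => H (w.2 + p, w.1 - p)) z := by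
        refine gsq_congr ?_
        filter_upwards [hev] with w hw
        unfold fgL
        rw [if_neg (not_le.2 hw)]
      rw [e1, e2, add_comm]

theorem int_swap (H : P → ℝ) (a b c d : ℝ) :
    (∫ z in rct a b c d, gsq (fun w => H (w.2, w.1)) z) = ∫ z in rct c d a b, gsq H z := by
  have hm : MeasurePreserving (MeasurableEquiv.prodComm : P ≃ᵐ P) (volume : Measure P) volume :=
    Measure.measurePreserving_swap
  have h := set_int hm (gsq H) (rct c d a b)
  have e : (MeasurableEquiv.prodComm : P ≃ᵐ P) ⁻¹' (rct c d a b) = rct a b c d := by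
    ext z
    change (z.2 ∈ Icc c d ∧ z.1 ∈ Icc a b) ↔ (z.1 ∈ Icc a b ∧ z.2 ∈ Icc c d)
    exact and_comm
  rw [e] at h
  rw [← h]
  refine integral_congr_ae (Filter.Eventually.of_forall fun z => ?_)
  exact gsq_sw H z

theorem int_neg2 (H : P → ℝ) (a b c d : ℝ) :
    (∫ z in rct a b c d, gsq (fun w => H (w.1, -w.2)) z) = ∫ z in rct a b (-d) (-c), gsq H z := by
  have h := set_int mp_thn (gsq H) (rct a b (-d) (-c))
  have e : thn ⁻¹' (rct a b (-d) (-c)) = rct a b c d := by
    ext z
    simp only [mem_preimage, thn_apply, rct, mem_prod, mem_Icc]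
    constructor
    · rintro ⟨h1, h3, h4⟩
      exact ⟨h1, by linarith, by linarith⟩
    · rintro ⟨h1, h3, h4⟩
      exact ⟨h1, by linarith, by linarith⟩
  rw [e] at h
  rw [← h]
  refine integral_congr_ae (Filter.Eventually.of_forall fun z => ?_)
  exact gsq_thn H z

/-- Dilation invariance in two dimensions. -/
theorem int_dil (H : P → ℝ) {r : ℝ} (hr : 0 < r) (a b c d : ℝ) :
    (∫ z in rct (r * a) (r * b) (r * c) (r * d), gsq (fun w => H (w.1 / r, w.2 / r)) z) =
      ∫ z in rct a b c d, gsq H z := by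
  have hr' : r⁻¹ ≠ 0 := inv_ne_zero hr.ne'
  have hg : ∀ z : P, gsq (fun w => H (w.1 / r, w.2 / r)) z = r⁻¹ ^ 2 * gsq H (r⁻¹ • z) := by
    intro z
    have e0 : (fun w : P => H (w.1 / r, w.2 / r)) = fun w : P => H (r⁻¹ • w) := by
      funext w
      congr 1
      ext
      · simp [div_eq_inv_mul]
      · simp [div_eq_inv_mul]
    rw [e0]
    have e1 : fderiv ℝ (fun w : P => H (r⁻¹ • w)) z = r⁻¹ • fderiv ℝ H (r⁻¹ • z) := by
      rw [fderiv_comp_smul]
    unfold gsq
    rw [e1]
    simp only [_root_.smul_apply, smul_eq_mul]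
    ring
  simp only [hg]
  rw [integral_const_mul, Measure.setIntegral_comp_smul_of_pos volume (gsq H) _ (inv_pos.2 hr)]
  have e2 : r⁻¹ • rct (r * a) (r * b) (r * c) (r * d) = rct a b c d := by
    ext z
    rw [Set.mem_inv_smul_set_iff₀ hr.ne']
    simp only [rct, mem_prod, mem_Icc, Prod.smul_fst, Prod.smul_snd, smul_eq_mul]
    rw [mul_le_mul_iff_right₀ hr, mul_le_mul_iff_right₀ hr, mul_le_mul_iff_right₀ hr,
      mul_le_mul_iff_right₀ hr]
  have e3 : Module.finrank ℝ P = 2 := by
    rw [Module.finrank_prod, Module.finrank_self]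
  rw [e2, e3, smul_eq_mul, ← mul_assoc, mul_inv_cancel₀ (pow_ne_zero 2 hr'), one_mul]

end Pool.Agent.LR
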