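import Pool.Agent.LR.Defs

/-! # LR-B2b-1: the Gamma integral with complex rate

PLAN. Mathlib has it for real rates: `Complex.integral_cpow_mul_exp_neg_mul_Ioi` (a ∈ ℂ, r > 0 real), and
`Real.integral_rpow_mul_exp_neg_mul_Ioi`.  Let `F w = ∫ p in Ioi 0, p^(s-1) * exp(-(p w))` on the
half plane `{w | 0 < w.re}`.
1. For `w.re > 0` the integrand is integrable: norm = `p^(s-1) * exp(-p w.re)`, integrable by
   `Real.GammaIntegral_convergent`-type lemmas (`integrableOn_rpow_mul_exp_neg_mul_rpow` or the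
   real-rate lemma: integrable because its integral is nonzero, or `Real.integrable...`).
2. `F` is differentiable on the half plane: `hasDerivAt_integral_of_dominated_loc_of_deriv_le` with the
   ball of radius `w.re/2`, bound `p^s * exp(-p w.re/2)`.
3. `G w = Real.Gamma s * w^(-s)` is differentiable there (`w ∈ slitPlane`).
4. `F = G` on the positive reals; identity theorem
   `AnalyticOnNhd.eqOn_of_preconnected_of_frequently_eq` (open half plane is convex, `DifferentiableOn.analyticOnNhd`),
   accumulation point `1` along real `r → 1`.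
Alternative to 2-4: rotate/scale or the ODE `F' = -(s/w) F` (integration by parts), then `F w * w^s` is constant. -/

set_option autoImplicit false

noncomputable section

open scoped BigOperators Topology
open MeasureTheory Filter Set

namespace Pool.Agent.LR

private lemma gr_norm (s p : ℝ) (hp : 0 < p) (w : ℂ) :
    ‖((p ^ (s - 1) : ℝ) : ℂ) * Complex.exp (-((p : ℂ) * w))‖ =
      p ^ (s - 1) * Real.exp (-(p * w.re)) := by
  rw [norm_mul, Complex.norm_real, Complex.norm_exp, Real.norm_of_nonneg (Real.rpow_nonneg hp.le _)]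
  congr 2
  simp

private lemma gr_int {a r : ℝ} (ha : -1 < a) (hr : 0 < r) :
    IntegrableOn (fun p : ℝ => p ^ a * Real.exp (-(p * r))) (Ioi 0) := by
  have h := integrableOn_rpow_mul_exp_neg_mul_rpow (p := 1) (s := a) (b := r) ha one_pos hr
  refine h.congr_fun (fun p _ => ?_) measurableSet_Ioi
  simp only [Real.rpow_one]
  congr 2
  ring

private lemma gr_meas (s : ℝ) (w : ℂ) :
    AEStronglyMeasurable (fun p : ℝ => ((p ^ (s - 1) : ℝ) : ℂ) * Complex.exp (-((p : ℂ) * w)))
      (volume.restrict (Ioi 0)) := by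
  apply Measurable.aestronglyMeasurable
  fun_prop

private lemma gr_integrable {s : ℝ} (hs : 0 < s) {w : ℂ} (hw : 0 < w.re) :
    IntegrableOn (fun p : ℝ => ((p ^ (s - 1) : ℝ) : ℂ) * Complex.exp (-((p : ℂ) * w))) (Ioi 0) := by
  refine Integrable.mono' (gr_int (a := s - 1) (by linarith) hw) (gr_meas s w) ?_
  filter_upwards [ae_restrict_mem measurableSet_Ioi] with p hp
  exact (gr_norm s p hp w).le

private lemma gr_diff {s : ℝ} (hs : 0 < s) {w : ℂ} (hw : 0 < w.re) :
    DifferentiableAt ℂ (fun w : ℂ => ∫ p in Ioi (0 : ℝ),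
      ((p ^ (s - 1) : ℝ) : ℂ) * Complex.exp (-((p : ℂ) * w))) w := by
  have key := hasDerivAt_integral_of_dominated_loc_of_deriv_le (𝕜 := ℂ)
    (μ := volume.restrict (Ioi (0 : ℝ)))
    (F := fun (w : ℂ) (p : ℝ) => ((p ^ (s - 1) : ℝ) : ℂ) * Complex.exp (-((p : ℂ) * w)))
    (F' := fun (w : ℂ) (p : ℝ) => ((p ^ (s - 1) : ℝ) : ℂ) * (Complex.exp (-((p : ℂ) * w)) * (-(p : ℂ))))
    (bound := fun p : ℝ => p ^ s * Real.exp (-(p * (w.re / 2))))
    (x₀ := w) (s := Metric.ball w (w.re / 2)) (Metric.ball_mem_nhds w (by linarith))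
    (Eventually.of_forall fun z => gr_meas s z) (gr_integrable hs hw)
    (by
      apply Measurable.aestronglyMeasurable
      fun_prop)
    (by
      filter_upwards [ae_restrict_mem measurableSet_Ioi] with p hp z hz
      have hp' : (0 : ℝ) < p := hp
      have h1 : w.re / 2 ≤ z.re := by
        have h2 : |(z - w).re| < w.re / 2 :=
          lt_of_le_of_lt (Complex.abs_re_le_norm _) (by simpa [dist_eq_norm] using hz)
        rw [Complex.sub_re, abs_lt] at h2
        linarith [h2.1]
      rw [← mul_assoc, norm_mul, gr_norm s p hp z, norm_neg, Complex.norm_real,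
        Real.norm_of_nonneg hp'.le]
      have h3 : p ^ s = p ^ (s - 1) * p := by
        rw [← Real.rpow_add_one hp'.ne']
        congr 1
        ring
      rw [h3, mul_assoc, mul_comm (Real.exp _) p, ← mul_assoc]
      apply mul_le_mul_of_nonneg_left _ (by positivity)
      apply Real.exp_le_exp.mpr
      nlinarith)
    (gr_int (by linarith) (by linarith))
    (by
      refine Eventually.of_forall fun p z _ => ?_
      apply HasDerivAt.const_mul
      have h0 : HasDerivAt (fun z : ℂ => -((p : ℂ) * z)) (-(p : ℂ)) z := by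
        have h1 := ((hasDerivAt_id z).const_mul (p : ℂ)).neg
        rw [mul_one] at h1
        exact h1
      exact h0.cexp)
  exact key.2.differentiableAt

theorem gamma_rep {s : ℝ} (hs : 0 < s) {w : ℂ} (hw : 0 < w.re) :
    IntegrableOn (fun p : ℝ => ((p ^ (s - 1) : ℝ) : ℂ) * Complex.exp (-((p : ℂ) * w))) (Ioi 0) ∧
    ∫ p in Ioi (0 : ℝ), ((p ^ (s - 1) : ℝ) : ℂ) * Complex.exp (-((p : ℂ) * w)) =
      (Real.Gamma s : ℂ) * w ^ (-(s : ℂ)) := by
  refine ⟨gr_integrable hs hw, ?_⟩
  set U : Set ℂ := {w : ℂ | 0 < w.re} with hU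
  have hUo : IsOpen U := isOpen_lt continuous_const Complex.continuous_re
  have hUc : IsPreconnected U := (convex_halfSpace_re_gt 0).isPreconnected
  have hF : AnalyticOnNhd ℂ (fun w : ℂ => ∫ p in Ioi (0 : ℝ),
      ((p ^ (s - 1) : ℝ) : ℂ) * Complex.exp (-((p : ℂ) * w))) U :=
    DifferentiableOn.analyticOnNhd (fun z hz => (gr_diff hs hz).differentiableWithinAt) hUo
  have hG : AnalyticOnNhd ℂ (fun w : ℂ => (Real.Gamma s : ℂ) * w ^ (-(s : ℂ))) U := by
    refine DifferentiableOn.analyticOnNhd (fun z hz => ?_) hUo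
    have hz' : z ∈ Complex.slitPlane := Or.inl hz
    exact ((differentiableAt_id.cpow_const hz').const_mul _).differentiableWithinAt
  have h1 : (1 : ℂ) ∈ U := by simp [hU]
  have hfr : ∃ᶠ z : ℂ in 𝓝[≠] (1 : ℂ), (fun w : ℂ => ∫ p in Ioi (0 : ℝ),
      ((p ^ (s - 1) : ℝ) : ℂ) * Complex.exp (-((p : ℂ) * w))) z =
      (fun w : ℂ => (Real.Gamma s : ℂ) * w ^ (-(s : ℂ))) z := by
    have hreal : ∀ r : ℝ, 0 < r → (fun w : ℂ => ∫ p in Ioi (0 : ℝ),
        ((p ^ (s - 1) : ℝ) : ℂ) * Complex.exp (-((p : ℂ) * w))) (r : ℂ) =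
        (fun w : ℂ => (Real.Gamma s : ℂ) * w ^ (-(s : ℂ))) (r : ℂ) := by
      intro r hr
      have h := Complex.integral_cpow_mul_exp_neg_mul_Ioi (a := (s : ℂ)) (r := r)
        (by simpa using hs) hr
      dsimp only
      rw [Complex.Gamma_ofReal] at h
      have h2 : ((1 : ℂ) / (r : ℂ)) ^ (s : ℂ) = (r : ℂ) ^ (-(s : ℂ)) := by
        rw [one_div, Complex.inv_cpow _ _ (by
          rw [Complex.arg_ofReal_of_nonneg hr.le]; exact Real.pi_pos.ne), Complex.cpow_neg]
      rw [← h2, mul_comm, ← h]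
      refine setIntegral_congr_fun measurableSet_Ioi (fun p hp => ?_)
      have hp' : (0 : ℝ) < p := hp
      rw [Complex.ofReal_cpow hp'.le]
      push_cast
      rw [mul_comm (r : ℂ) (p : ℂ)]
    have hmap : Tendsto (fun r : ℝ => (r : ℂ)) (𝓝[>] (1 : ℝ)) (𝓝[≠] (1 : ℂ)) := by
      apply tendsto_nhdsWithin_iff.mpr
      constructor
      · have h3 : Tendsto (fun r : ℝ => (r : ℂ)) (𝓝 (1 : ℝ)) (𝓝 ((1 : ℝ) : ℂ)) :=
          Complex.continuous_ofReal.tendsto 1
        rw [Complex.ofReal_one] at h3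
        exact h3.mono_left nhdsWithin_le_nhds
      · filter_upwards [self_mem_nhdsWithin] with r hr
        have : (1 : ℝ) < r := hr
        simp only [mem_compl_iff, mem_singleton_iff]
        intro h
        have h4 : (r : ℂ) = ((1 : ℝ) : ℂ) := by simpa using h
        have := Complex.ofReal_injective h4
        linarith
    refine hmap.frequently ?_
    apply Eventually.frequently
    filter_upwards [self_mem_nhdsWithin] with r hr
    have : (1 : ℝ) < r := hr
    exact hreal r (by linarith)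
  exact hF.eqOn_of_preconnected_of_frequently_eq hG hUc h1 hfr hw

end Pool.Agent.LR
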