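import Pool.Agent.LR.B2b.RPIneq

/-! # LR-B2b-8: reflection positivity for characters (generic sites)

PLAN. Same reorganisation as in `RPIneq`, with `h = 0`.  For `ψ = e (c,l,r)`: `pr S g (emb O ψ) = G l := ∑_{x∈L} g x * l x`
(`g` supported in `L`, `emb L l` = `l` there, the other two summands vanish on `L`), and
`pr S (g ∘ θ) (emb O ψ) = G r` (sum over `x ∈ θL` of `g (θ x) * r (θ x)`).  So with `τ := Ex M O 0 cos(pr S g)`:
`F (c,l,r) := wt 0 (e (c,l,r)) * ((cos (G l) - τ) (cos (G r) - τ) + sin (G l) sin (G r))`; for fixed `c` it is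
`wtB c 0 * (a l a r + b l b r) exp(eK (emb L l) (emb L r))`, `a l = wtA c l 0 (cos (G l) - τ)`, `b l = wtA c l 0 sin (G l)`:
`exp_psd` twice + `tsum_kernel_nonneg` give inner sum `≥ 0`.  Summable: `|F| ≤ C * wt`.  And
`(cos a - τ)(cos b - τ) + sin a sin b = cos (a - b) - τ (cos a + cos b) + τ²`; the sums of `cos (G l)` and of `cos (G r)` weighted by
`wt 0 (e (c,l,r))` are both `τ * Th 0` (swap `l ↔ r`: `wt 0 (e (c,l,r)) = wt 0 (e (c,r,l))` by `wt_glue` and symmetry of `eK`).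
Divide by `Th 0 > 0`:  `0 ≤ E cos(G l - G r) - 2 τ² + τ²`. -/

set_option autoImplicit false

noncomputable section

open scoped BigOperators Topology
open MeasureTheory Filter Set

namespace Pool.Agent.LR

variable {W : Type*} [DecidableEq W]

omit [DecidableEq W] in
private theorem rpc_ksym {J : W → W → ℝ} {θ : W → W} {L C : Finset W} (hr : RPD J θ L C)
    (x y : W) : J x (θ y) = J y (θ x) := by
  have h := hr.isym x (θ y)
  rw [hr.inv] at h
  rw [← h, hr.sym]

private theorem rpc_emb_not {O : Finset W} {ψ : O → ℤ} {x : W} (h : x ∉ O) : emb O ψ x = 0 := by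
  simp [emb, h]

omit [DecidableEq W] in
private theorem rpc_thL {J : W → W → ℝ} {θ : W → W} {L C : Finset W} (hr : RPD J θ L C)
    {x : W} (hx : x ∈ L) : θ x ∉ C := by
  intro h
  have h1 := hr.fix _ h
  rw [hr.inv] at h1
  exact (Finset.disjoint_left.1 hr.dLC hx) (h1 ▸ h)

private theorem rpc_prL {J : W → W → ℝ} {θ : W → W} {L C : Finset W} (hr : RPD J θ L C) {x₀ : W}
    (g : W → ℝ) (hg : Supp L g) (c : ↥(C.erase x₀) → ℤ) (l r : ↥L → ℤ) :
    pr (hul θ L C) g (emb (C.erase x₀) c + emb L l + (emb L r) ∘ θ) = pr L g (emb L l) := by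
  unfold pr
  have hsub : L ⊆ hul θ L C := by
    intro x hx
    simp [hul, hx]
  rw [← Finset.sum_subset hsub]
  · refine Finset.sum_congr rfl fun x hx => ?_
    have h1 : emb (C.erase x₀) c x = 0 := by
      apply rpc_emb_not
      intro h
      exact Finset.disjoint_left.1 hr.dLC hx (Finset.mem_of_mem_erase h)
    have h2 : emb L r (θ x) = 0 := rpc_emb_not (hr.dLR x hx)
    simp [h1, h2]
  · intro x _ hx
    rw [hg x hx, zero_mul]

private theorem rpc_prR {J : W → W → ℝ} {θ : W → W} {L C : Finset W} (hr : RPD J θ L C) {x₀ : W}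
    (g : W → ℝ) (hg : Supp L g) (c : ↥(C.erase x₀) → ℤ) (l r : ↥L → ℤ) :
    pr (hul θ L C) (fun x => g (θ x)) (emb (C.erase x₀) c + emb L l + (emb L r) ∘ θ) =
      pr L g (emb L r) := by
  unfold pr
  have hsub : L.image θ ⊆ hul θ L C := by
    intro x hx
    simp only [hul, Finset.mem_union]
    exact Or.inr hx
  have hinj : Set.InjOn θ (L : Set W) := by
    intro x _ y _ h
    have := congrArg θ h
    rwa [hr.inv, hr.inv] at this
  rw [← Finset.sum_subset hsub]
  · rw [Finset.sum_image hinj]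
    refine Finset.sum_congr rfl fun x hx => ?_
    have h1 : emb (C.erase x₀) c (θ x) = 0 := by
      apply rpc_emb_not
      intro h
      exact rpc_thL hr hx (Finset.mem_of_mem_erase h)
    have h2 : emb L l (θ x) = 0 := rpc_emb_not (hr.dLR x hx)
    simp [h1, h2, hr.inv]
  · intro x _ hx
    have : θ x ∉ L := by
      intro h
      apply hx
      rw [Finset.mem_image]
      exact ⟨θ x, h, hr.inv x⟩
    simp only [hg _ this, zero_mul]

private theorem rpc_wt {J : W → W → ℝ} {θ : W → W} {L C : Finset W} (hr : RPD J θ L C) {x₀ : W}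
    (hx : x₀ ∈ C) (c : ↥(C.erase x₀) → ℤ) (l r : ↥L → ℤ)
    (ψ : ↥((hul θ L C).erase x₀) → ℤ)
    (hψ : emb ((hul θ L C).erase x₀) ψ = emb (C.erase x₀) c + emb L l + (emb L r) ∘ θ) :
    wt (Qfr J (hul θ L C)) ((hul θ L C).erase x₀) 0 ψ =
      wtB J C x₀ c 0 * (wtA J θ L C x₀ c l 0 * wtA J θ L C x₀ c r 0 *
        Real.exp (∑ x ∈ L, ∑ y ∈ L, J x (θ y) * emb L l x * emb L r y)) := by
  rw [wt_glue hr hx 0 c l r ψ hψ]
  have h0 : (0 : W → ℝ) ∘ θ = 0 := rfl
  rw [h0]
  congr 2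
  unfold wtK eK
  rw [sub_zero, sub_zero]

theorem rp_ch {J : W → W → ℝ} {θ : W → W} {L C : Finset W} (hr : RPD J θ L C) {x₀ : W}
    (hx : x₀ ∈ C) (hs : ∀ h, Summable (wt (Qfr J (hul θ L C)) ((hul θ L C).erase x₀) h))
    (g : W → ℝ) (hg : Supp L g) :
    (Ex (Qfr J (hul θ L C)) ((hul θ L C).erase x₀) 0
      (fun ψ => Real.cos (pr (hul θ L C) g (emb ((hul θ L C).erase x₀) ψ)))) ^ 2 ≤
    Ex (Qfr J (hul θ L C)) ((hul θ L C).erase x₀) 0
      (fun ψ => Real.cos (pr (hul θ L C) (fun x => g x - g (θ x))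
        (emb ((hul θ L C).erase x₀) ψ))) := by
  set S := hul θ L C with hS
  set O := S.erase x₀ with hO
  set M := Qfr J S with hM
  obtain ⟨e, he⟩ : ∃ e : (↥(C.erase x₀) → ℤ) × (↥L → ℤ) × (↥L → ℤ) ≃ (↥O → ℤ),
      ∀ c l r, emb O (e (c, l, r)) =
        emb (C.erase x₀) c + emb L l + (emb L r) ∘ θ := exists_glue hr hx
  set w : (↥(C.erase x₀) → ℤ) × (↥L → ℤ) × (↥L → ℤ) → ℝ := fun p => wt M O 0 (e p) with hw
  set G : (↥L → ℤ) → ℝ := fun l => pr L g (emb L l) with hG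
  have hw0 : Summable w := (e.summable_iff).mpr (hs 0)
  have hwpos : ∀ p, 0 < w p := fun p => Real.exp_pos _
  have hwf : ∀ c l r, w (c, l, r) = wtB J C x₀ c 0 * (wtA J θ L C x₀ c l 0 *
      wtA J θ L C x₀ c r 0 *
        Real.exp (∑ x ∈ L, ∑ y ∈ L, J x (θ y) * emb L l x * emb L r y)) := by
    intro c l r
    exact rpc_wt hr hx c l r _ (he c l r)
  -- the swap
  have hwsw : ∀ c l r, w (c, r, l) = w (c, l, r) := by
    intro c l r
    rw [hwf, hwf]
    have : (∑ x ∈ L, ∑ y ∈ L, J x (θ y) * emb L r x * emb L l y) =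
        ∑ x ∈ L, ∑ y ∈ L, J x (θ y) * emb L l x * emb L r y := by
      rw [Finset.sum_comm]
      refine Finset.sum_congr rfl fun x _ => Finset.sum_congr rfl fun y _ => ?_
      rw [rpc_ksym hr y x]
      ring
    rw [this]
    ring
  set Z := Th M O 0 with hZ
  have hZw : Z = ∑' p, w p := by
    rw [hZ]
    unfold Th
    exact (e.tsum_eq _).symm
  have hZpos : 0 < Z := by
    rw [hZw]
    exact hw0.tsum_pos (fun p => (hwpos p).le) (0, 0, 0) (hwpos _)
  -- bounded functions are summable against w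
  have hsum : ∀ (f : (↥(C.erase x₀) → ℤ) × (↥L → ℤ) × (↥L → ℤ) → ℝ) (B : ℝ),
      (∀ p, |f p| ≤ B) → Summable fun p => w p * f p := by
    intro f B hB
    refine Summable.of_norm_bounded (g := fun p => w p * B) (hw0.mul_right B) ?_
    intro p
    rw [Real.norm_eq_abs, abs_mul, abs_of_pos (hwpos p)]
    exact mul_le_mul_of_nonneg_left (hB p) (hwpos p).le
  set τ := Ex M O 0 (fun ψ => Real.cos (pr S g (emb O ψ))) with hτ
  have hcl : ∑' p : (↥(C.erase x₀) → ℤ) × (↥L → ℤ) × (↥L → ℤ), w p * Real.cos (G p.2.1) = τ * Z := by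
    have h1 : τ = (∑' ψ : O → ℤ, wt M O 0 ψ * Real.cos (pr S g (emb O ψ))) / Z := rfl
    rw [h1, div_mul_cancel₀ _ hZpos.ne', ← e.tsum_eq]
    refine tsum_congr fun p => ?_
    obtain ⟨c, l, r⟩ := p
    have : pr S g (emb O (e (c, l, r))) = G l := by
      rw [he c l r]
      exact rpc_prL hr g hg c l r
    simp only [hw, this]
  have hcr : ∑' p : (↥(C.erase x₀) → ℤ) × (↥L → ℤ) × (↥L → ℤ), w p * Real.cos (G p.2.2) = τ * Z := by
    rw [← hcl]
    let sw : (↥(C.erase x₀) → ℤ) × (↥L → ℤ) × (↥L → ℤ) ≃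
        (↥(C.erase x₀) → ℤ) × (↥L → ℤ) × (↥L → ℤ) :=
      (Equiv.refl _).prodCongr (Equiv.prodComm _ _)
    rw [← sw.tsum_eq]
    refine tsum_congr fun p => ?_
    obtain ⟨c, l, r⟩ := p
    show w (c, r, l) * Real.cos (G l) = w (c, l, r) * Real.cos (G l)
    rw [hwsw]
  have hcd : ∑' p : (↥(C.erase x₀) → ℤ) × (↥L → ℤ) × (↥L → ℤ),
      w p * Real.cos (G p.2.1 - G p.2.2) =
      Ex M O 0 (fun ψ => Real.cos (pr S (fun x => g x - g (θ x)) (emb O ψ))) * Z := by
    have h1 : Ex M O 0 (fun ψ => Real.cos (pr S (fun x => g x - g (θ x)) (emb O ψ))) =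
      (∑' ψ : O → ℤ, wt M O 0 ψ * Real.cos (pr S (fun x => g x - g (θ x)) (emb O ψ))) / Z := rfl
    rw [h1, div_mul_cancel₀ _ hZpos.ne', ← e.tsum_eq]
    refine tsum_congr fun p => ?_
    obtain ⟨c, l, r⟩ := p
    have h2 : pr S g (emb O (e (c, l, r))) = G l := by
      rw [he c l r]
      exact rpc_prL hr g hg c l r
    have h3 : pr S (fun x => g (θ x)) (emb O (e (c, l, r))) = G r := by
      rw [he c l r]
      exact rpc_prR hr g hg c l r
    have h4 : pr S (fun x => g x - g (θ x)) (emb O (e (c, l, r))) = G l - G r := by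
      rw [← h2, ← h3]
      unfold pr
      rw [← Finset.sum_sub_distrib]
      refine Finset.sum_congr rfl fun x _ => by ring
    simp only [hw, h4]
  -- the nonnegative sum
  set F : (↥(C.erase x₀) → ℤ) × (↥L → ℤ) × (↥L → ℤ) → ℝ := fun p =>
    w p * ((Real.cos (G p.2.1) - τ) * (Real.cos (G p.2.2) - τ) +
      Real.sin (G p.2.1) * Real.sin (G p.2.2)) with hF
  have hcb : ∀ x : ℝ, |Real.cos x - τ| ≤ 1 + |τ| := fun x =>
    (abs_sub _ _).trans (add_le_add (Real.abs_cos_le_one x) le_rfl)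
  have hFs : Summable F := by
    refine hsum _ ((1 + |τ|) * (1 + |τ|) + 1 * 1) ?_
    intro p
    refine (abs_add_le _ _).trans (add_le_add ?_ ?_)
    · rw [abs_mul]
      exact mul_le_mul (hcb _) (hcb _) (abs_nonneg _) (by positivity)
    · rw [abs_mul]
      exact mul_le_mul (Real.abs_sin_le_one _) (Real.abs_sin_le_one _) (abs_nonneg _) zero_le_one
  have hF0 : 0 ≤ ∑' p, F p := by
    rw [hFs.tsum_prod]
    refine tsum_nonneg fun c => ?_
    refine tsum_kernel_nonneg _ (hFs.prod_factor c) ?_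
    intro s
    have e1 := exp_psd L (fun x y => J x (θ y)) (fun x y => rpc_ksym hr x y) hr.psd s
      (fun l => emb L l) (fun l => wtA J θ L C x₀ c l 0 * (Real.cos (G l) - τ))
    have e2 := exp_psd L (fun x y => J x (θ y)) (fun x y => rpc_ksym hr x y) hr.psd s
      (fun l => emb L l) (fun l => wtA J θ L C x₀ c l 0 * Real.sin (G l))
    have hB : 0 ≤ wtB J C x₀ c 0 := (Real.exp_pos _).le
    have e3 := mul_nonneg hB (add_nonneg e1 e2)
    refine e3.trans_eq ?_
    rw [← Finset.sum_add_distrib, Finset.mul_sum]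
    refine Finset.sum_congr rfl fun i _ => ?_
    rw [← Finset.sum_add_distrib, Finset.mul_sum]
    refine Finset.sum_congr rfl fun j _ => ?_
    simp only [hF]
    rw [hwf c i j]
    ring
  have hexp : ∀ p : (↥(C.erase x₀) → ℤ) × (↥L → ℤ) × (↥L → ℤ),
      F p = w p * Real.cos (G p.2.1 - G p.2.2) - τ * (w p * Real.cos (G p.2.1)) -
        τ * (w p * Real.cos (G p.2.2)) + τ ^ 2 * w p := by
    intro p
    simp only [hF]
    rw [Real.cos_sub]
    ring
  have s1 : Summable fun p : (↥(C.erase x₀) → ℤ) × (↥L → ℤ) × (↥L → ℤ) =>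
      w p * Real.cos (G p.2.1 - G p.2.2) := hsum _ 1 fun p => Real.abs_cos_le_one _
  have s2 : Summable fun p : (↥(C.erase x₀) → ℤ) × (↥L → ℤ) × (↥L → ℤ) =>
      w p * Real.cos (G p.2.1) := hsum _ 1 fun p => Real.abs_cos_le_one _
  have s3 : Summable fun p : (↥(C.erase x₀) → ℤ) × (↥L → ℤ) × (↥L → ℤ) =>
      w p * Real.cos (G p.2.2) := hsum _ 1 fun p => Real.abs_cos_le_one _
  rw [tsum_congr hexp, Summable.tsum_add ((s1.sub (s2.mul_left τ)).sub (s3.mul_left τ))
    (hw0.mul_left (τ ^ 2)), Summable.tsum_sub (s1.sub (s2.mul_left τ)) (s3.mul_left τ),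
    Summable.tsum_sub s1 (s2.mul_left τ), tsum_mul_left, tsum_mul_left, tsum_mul_left, hcl, hcr,
    hcd, ← hZw] at hF0
  have : 0 ≤ (Ex M O 0 (fun ψ => Real.cos (pr S (fun x => g x - g (θ x)) (emb O ψ))) - τ ^ 2) * Z := by
    nlinarith [hF0]
  have h5 := nonneg_of_mul_nonneg_left this hZpos
  linarith

end Pool.Agent.LR
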