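import Pool.Agent.LR.B2b.PsdMir
import Pool.Agent.LR.B2b.RPChar
import Pool.Agent.LR.B2b.EfrI

/-! # LR-B2b-9: reflection positivity on `ℤ²`: folds in vertical and diagonal mirrors, characters

PLAN. `S` invariant under `θ = mirV m`; `L = S.filter (x.1 < m)`, `C = S.filter (x.1 = m)`.
`rpd_vert`: fields of `RPD`: `inv`, `fix` by `ext`/`omega`; `dLC`, `dLR` clear; `sym`: `JJ α β x y = JJ α β y x` (`Jc` even: `len (-v) = len v`);
`isym`: `len (θ x - θ y) = len (x - y)`, `θ x - θ y = 0 ↔ x - y = 0`; `psd` = `psd_vert`.  `hul = S`: a site of `S` is left, on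
the mirror, or right, and right sites are images of left sites.  Same for `mirD` with `x.1 - x.2` in place of `x.1`.
`efr_fold_vert`: `x₀` on the mirror, `efr_root`, `efr_summable`, `rp_en`; `fdL θ L h` and the function in the statement agree on `S`
(`efr_congr`; on `S`: `x ∈ L.image θ ↔ m < x.1`), and note `Qfr J (hul ..) = Qfr J S`.
`rp_char` (interface statement of the project): `exr_root` for the mirror site (the function `φ ↦ cos (pr S g φ)` is bounded and
invariant: `pr S g (φ + k) = pr S g φ + k * 2πk'`, `Real.cos_add_int_mul_two_pi`; for `g - g∘θ` the total charge is `0`), then `rp_ch`. -/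

set_option autoImplicit false

noncomputable section

open scoped BigOperators Topology
open MeasureTheory Filter Set

namespace Pool.Agent.LR

private theorem rv_Jc_eq {α β : ℝ} {v w : V} (h1 : v = 0 ↔ w = 0) (h2 : len v = len w) :
    Jc α β v = Jc α β w := by
  unfold Jc
  by_cases h : v = 0
  · rw [if_pos h, if_pos (h1.1 h)]
  · rw [if_neg h, if_neg (fun hw => h (h1.2 hw)), h2]

private theorem rv_zero (v : V) : v = 0 ↔ v.1 = 0 ∧ v.2 = 0 := Prod.ext_iff

private theorem rv_sym (α β : ℝ) (x y : V) : JJ α β x y = JJ α β y x := by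
  refine rv_Jc_eq ?_ ?_
  · rw [rv_zero, rv_zero]
    simp only [Prod.fst_sub, Prod.snd_sub]
    omega
  · unfold len
    congr 1
    simp only [Prod.fst_sub, Prod.snd_sub]
    push_cast
    ring

private theorem rv_invV (m : ℤ) (x : V) : mirV m (mirV m x) = x := by
  refine Prod.ext ?_ rfl
  simp only [mirV]
  omega

private theorem rv_invD (m : ℤ) (x : V) : mirD m (mirD m x) = x := by
  refine Prod.ext ?_ ?_
  · simp only [mirD]
    omega
  · simp only [mirD]
    omega

theorem rpd_vert {α β : ℝ} (hα : 4 < α) (hβ : 0 < β) (m : ℤ) (S : Finset V)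
    (hS : ∀ x ∈ S, mirV m x ∈ S) :
    RPD (JJ α β) (mirV m) (S.filter (fun x => x.1 < m)) (S.filter (fun x => x.1 = m)) ∧
      hul (mirV m) (S.filter (fun x => x.1 < m)) (S.filter (fun x => x.1 = m)) = S := by
  constructor
  · refine ⟨rv_invV m, ?_, ?_, ?_, rv_sym α β, ?_, ?_⟩
    · intro x hx
      rw [Finset.mem_filter] at hx
      refine Prod.ext ?_ rfl
      simp only [mirV]
      omega
    · rw [Finset.disjoint_left]
      intro x hx hx'
      rw [Finset.mem_filter] at hx hx'
      omega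
    · intro x hx hx'
      rw [Finset.mem_filter] at hx hx'
      simp only [mirV] at hx'
      omega
    · intro x y
      refine rv_Jc_eq ?_ ?_
      · rw [rv_zero, rv_zero]
        simp only [Prod.fst_sub, Prod.snd_sub, mirV]
        omega
      · unfold len
        congr 1
        simp only [Prod.fst_sub, Prod.snd_sub, mirV]
        push_cast
        ring
    · exact fun c => psd_vert (by linarith) hβ.le m _
        (fun x hx => (Finset.mem_filter.1 hx).2) c
  · ext x
    simp only [hul, Finset.mem_union, Finset.mem_filter, Finset.mem_image]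
    constructor
    · rintro ((h | h) | ⟨y, h, rfl⟩)
      · exact h.1
      · exact h.1
      · exact hS y h.1
    · intro hx
      rcases lt_trichotomy x.1 m with h | h | h
      · exact Or.inl (Or.inl ⟨hx, h⟩)
      · exact Or.inl (Or.inr ⟨hx, h⟩)
      · refine Or.inr ⟨mirV m x, ⟨hS x hx, ?_⟩, rv_invV m x⟩
        simp only [mirV]
        omega

theorem rpd_diag {α β : ℝ} (hα : 4 < α) (hβ : 0 < β) (m : ℤ) (S : Finset V)
    (hS : ∀ x ∈ S, mirD m x ∈ S) :
    RPD (JJ α β) (mirD m) (S.filter (fun x => x.1 - x.2 < m)) (S.filter (fun x => x.1 - x.2 = m)) ∧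
      hul (mirD m) (S.filter (fun x => x.1 - x.2 < m)) (S.filter (fun x => x.1 - x.2 = m)) = S := by
  constructor
  · refine ⟨rv_invD m, ?_, ?_, ?_, rv_sym α β, ?_, ?_⟩
    · intro x hx
      rw [Finset.mem_filter] at hx
      refine Prod.ext ?_ ?_
      · simp only [mirD]
        omega
      · simp only [mirD]
        omega
    · rw [Finset.disjoint_left]
      intro x hx hx'
      rw [Finset.mem_filter] at hx hx'
      omega
    · intro x hx hx'
      rw [Finset.mem_filter] at hx hx'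
      simp only [mirD] at hx'
      omega
    · intro x y
      refine rv_Jc_eq ?_ ?_
      · rw [rv_zero, rv_zero]
        simp only [Prod.fst_sub, Prod.snd_sub, mirD]
        omega
      · unfold len
        congr 1
        simp only [Prod.fst_sub, Prod.snd_sub, mirD]
        push_cast
        ring
    · exact fun c => psd_diag (by linarith) hβ.le m _
        (fun x hx => (Finset.mem_filter.1 hx).2) c
  · ext x
    simp only [hul, Finset.mem_union, Finset.mem_filter, Finset.mem_image]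
    constructor
    · rintro ((h | h) | ⟨y, h, rfl⟩)
      · exact h.1
      · exact h.1
      · exact hS y h.1
    · intro hx
      rcases lt_trichotomy (x.1 - x.2) m with h | h | h
      · exact Or.inl (Or.inl ⟨hx, h⟩)
      · exact Or.inl (Or.inr ⟨hx, h⟩)
      · refine Or.inr ⟨mirD m x, ⟨hS x hx, ?_⟩, rv_invD m x⟩
        simp only [mirD]
        omega

private theorem rv_fold {α β : ℝ} (hα : 4 < α) (hβ : 0 < β) {θ : V → V} {L C S : Finset V}
    (hr : RPD (JJ α β) θ L C) (hh : hul θ L C = S) {x₀ : V} (hx : x₀ ∈ C) (h hl hr' : V → ℝ)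
    (e1 : ∀ x ∈ S, hl x = fdL θ L h x) (e2 : ∀ x ∈ S, hr' x = fdR θ L h x) :
    Efr (JJ α β) S hl + Efr (JJ α β) S hr' ≤ 2 * Efr (JJ α β) S h := by
  have hxS : x₀ ∈ S := by
    rw [← hh]
    simp [hul, hx]
  have hs : ∀ h, Summable (wt (Qfr (JJ α β) (hul θ L C)) ((hul θ L C).erase x₀) h) := by
    rw [hh]
    exact fun h => efr_summable hα hβ hxS h
  have key := rp_en hr hx hs h
  rw [hh] at key
  rw [efr_congr _ _ e1, efr_congr _ _ e2, efr_root hα hβ hxS, efr_root hα hβ hxS,
    efr_root hα hβ hxS]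
  exact key

theorem efr_fold_vert {α β : ℝ} (hα : 4 < α) (hβ : 0 < β) (m : ℤ) (S : Finset V)
    (hS : ∀ x ∈ S, mirV m x ∈ S) (h0 : ∃ x ∈ S, x.1 = m) (h : V → ℝ) :
    Efr (JJ α β) S (fun x => if x.1 ≤ m then h x else h (mirV m x)) +
      Efr (JJ α β) S (fun x => if m ≤ x.1 then h x else h (mirV m x)) ≤
      2 * Efr (JJ α β) S h := by
  obtain ⟨x₀, hxS, hx0⟩ := h0
  obtain ⟨hr, hh⟩ := rpd_vert hα hβ m S hS
  refine rv_fold hα hβ hr hh (x₀ := x₀) (Finset.mem_filter.2 ⟨hxS, hx0⟩) h _ _ ?_ ?_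
  · intro x hx
    unfold fdL
    by_cases hc : x.1 ≤ m
    · have h1 : x ∉ (S.filter (fun x => x.1 < m)).image (mirV m) := by
        rw [Finset.mem_image]
        rintro ⟨y, hy, rfl⟩
        rw [Finset.mem_filter] at hy
        simp only [mirV] at hc
        omega
      rw [if_pos hc, if_neg h1]
    · have h1 : x ∈ (S.filter (fun x => x.1 < m)).image (mirV m) := by
        rw [Finset.mem_image]
        refine ⟨mirV m x, Finset.mem_filter.2 ⟨hS x hx, ?_⟩, rv_invV m x⟩
        simp only [mirV]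
        omega
      rw [if_neg hc, if_pos h1]
  · intro x hx
    unfold fdR
    by_cases hc : m ≤ x.1
    · have h1 : x ∉ S.filter (fun x => x.1 < m) := by
        rw [Finset.mem_filter]
        omega
      rw [if_pos hc, if_neg h1]
    · have h1 : x ∈ S.filter (fun x => x.1 < m) :=
        Finset.mem_filter.2 ⟨hx, by omega⟩
      rw [if_neg hc, if_pos h1]

theorem efr_fold_diag {α β : ℝ} (hα : 4 < α) (hβ : 0 < β) (m : ℤ) (S : Finset V)
    (hS : ∀ x ∈ S, mirD m x ∈ S) (h0 : ∃ x ∈ S, x.1 - x.2 = m) (h : V → ℝ) :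
    Efr (JJ α β) S (fun x => if x.1 - x.2 ≤ m then h x else h (mirD m x)) +
      Efr (JJ α β) S (fun x => if m ≤ x.1 - x.2 then h x else h (mirD m x)) ≤
      2 * Efr (JJ α β) S h := by
  obtain ⟨x₀, hxS, hx0⟩ := h0
  obtain ⟨hr, hh⟩ := rpd_diag hα hβ m S hS
  refine rv_fold hα hβ hr hh (x₀ := x₀) (Finset.mem_filter.2 ⟨hxS, hx0⟩) h _ _ ?_ ?_
  · intro x hx
    unfold fdL
    by_cases hc : x.1 - x.2 ≤ m
    · have h1 : x ∉ (S.filter (fun x => x.1 - x.2 < m)).image (mirD m) := by
        rw [Finset.mem_image]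
        rintro ⟨y, hy, rfl⟩
        rw [Finset.mem_filter] at hy
        simp only [mirD] at hc
        omega
      rw [if_pos hc, if_neg h1]
    · have h1 : x ∈ (S.filter (fun x => x.1 - x.2 < m)).image (mirD m) := by
        rw [Finset.mem_image]
        refine ⟨mirD m x, Finset.mem_filter.2 ⟨hS x hx, ?_⟩, rv_invD m x⟩
        simp only [mirD]
        omega
      rw [if_neg hc, if_pos h1]
  · intro x hx
    unfold fdR
    by_cases hc : m ≤ x.1 - x.2
    · have h1 : x ∉ S.filter (fun x => x.1 - x.2 < m) := by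
        rw [Finset.mem_filter]
        omega
      rw [if_pos hc, if_neg h1]
    · have h1 : x ∈ S.filter (fun x => x.1 - x.2 < m) :=
        Finset.mem_filter.2 ⟨hx, by omega⟩
      rw [if_neg hc, if_pos h1]

private theorem rv_exr {α β : ℝ} (hα : 4 < α) (hβ : 0 < β) {S : Finset V} {x₀ : V} (hx : x₀ ∈ S)
    (g : V → ℝ) (k : ℤ) (hk : ∑ x ∈ S, g x = 2 * Real.pi * k) :
    Exr (JJ α β) S 0 (fun φ => Real.cos (pr S g φ)) =
      Ex (Qfr (JJ α β) S) (S.erase x₀) 0 (fun ψ => Real.cos (pr S g (emb (S.erase x₀) ψ))) := by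
  refine exr_root hα hβ hx 0 (fun φ => Real.cos (pr S g φ))
    ⟨1, fun φ => Real.abs_cos_le_one _⟩ ?_
  intro φ φ' j hφ
  have h1 : pr S g φ' = pr S g φ + ((k * j : ℤ) : ℝ) * (2 * Real.pi) := by
    have h2 : pr S g φ' = pr S g φ + (∑ x ∈ S, g x) * j := by
      unfold pr
      rw [Finset.sum_mul, ← Finset.sum_add_distrib]
      refine Finset.sum_congr rfl fun x hx => ?_
      rw [hφ x hx]
      ring
    rw [h2, hk]
    push_cast
    ring
  show Real.cos (pr S g φ') = Real.cos (pr S g φ)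
  rw [h1, Real.cos_add_int_mul_two_pi]

theorem rp_char {α β : ℝ} (hα : 4 < α) (hβ : 0 < β) (m : ℤ) (S : Finset V)
    (hS : ∀ x ∈ S, (2 * m - x.1, x.2) ∈ S) (h0 : ∃ x ∈ S, x.1 = m) (g : V → ℝ)
    (hg : Supp (S.filter (fun x => x.1 < m)) g) (k : ℤ) (hk : ∑ x ∈ S, g x = 2 * Real.pi * k) :
    (Exr (JJ α β) S 0 (fun φ => Real.cos (pr S g φ))) ^ 2 ≤
      Exr (JJ α β) S 0 (fun φ => Real.cos (pr S (fun x => g x - g (2 * m - x.1, x.2)) φ)) := by
  obtain ⟨x₀, hxS, hx0⟩ := h0
  have hS' : ∀ x ∈ S, mirV m x ∈ S := hS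
  obtain ⟨hr, hh⟩ := rpd_vert hα hβ m S hS'
  have hxC : x₀ ∈ S.filter (fun x => x.1 = m) := Finset.mem_filter.2 ⟨hxS, hx0⟩
  have hs : ∀ h, Summable (wt (Qfr (JJ α β) (hul (mirV m) (S.filter (fun x => x.1 < m))
      (S.filter (fun x => x.1 = m)))) ((hul (mirV m) (S.filter (fun x => x.1 < m))
      (S.filter (fun x => x.1 = m))).erase x₀) h) := by
    rw [hh]
    exact fun h => efr_summable hα hβ hxS h
  have key := rp_ch hr hxC hs g hg
  rw [hh] at key
  have hsum : ∑ x ∈ S, g (mirV m x) = ∑ x ∈ S, g x := by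
    refine Finset.sum_nbij' (mirV m) (mirV m) hS' hS' (fun x _ => rv_invV m x)
      (fun x _ => rv_invV m x) (fun x _ => rfl)
  have hz : ∑ x ∈ S, (g x - g (2 * m - x.1, x.2)) = 2 * Real.pi * ((0 : ℤ) : ℝ) := by
    rw [Finset.sum_sub_distrib]
    have : ∑ x ∈ S, g (2 * m - x.1, x.2) = ∑ x ∈ S, g x := hsum
    rw [this]
    simp
  rw [rv_exr hα hβ hxS g k hk, rv_exr hα hβ hxS (fun x => g x - g (2 * m - x.1, x.2)) 0 hz]
  exact key

end Pool.Agent.LR
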