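import Pool.Agent.LR.B2b.LLfacts
import Pool.Agent.LR.B2b.EfrI

/-! # LR-B2b-12: restriction of the upper bound, lower bound on rectangles

PLAN.
`locIn_diff`: `z ∈ Ioo a b ×ˢ Ioo c d` not in the closed rectangle `R' = rct a' b' c' d'`: choose `r` with the ball (sup norm) inside the open
rectangle and disjoint from `R'`; if `‖sc n x - z‖ < r` then `sc n x` is in the open rectangle, so `x ∈ bx a b c d n` (`n > 0`:
`⌈n a⌉ ≤ x.1 ↔ n a ≤ x.1 ↔ a ≤ x.1/n`, `Int.ceil_le`, `Int.le_floor`), and `sc n x ∉ R'` gives `x ∉ bx a' b' c' d' n`.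
`lower_rct`: `KLow.low` with `U = Ioo a b ×ˢ Ioo c d`, `S n = bx a b c d n` (special case of `locIn`), `∫_U = ∫_rct` (null boundary,
`int_rct_diff` with an empty inner rectangle or `setIntegral_congr_set`).
`ub_restr`: `S = bx a b c d n`, `S' = bx a' b' c' d' n ⊆ S`, `n = 2^k`: `efr_super` (S', S \ S'), `KLow.low` for `s H` on
`U = (Ioo a b ×ˢ Ioo c d) \ R'` (open, bounded) with `S \ S'` along `n = 2^k → ∞`, `gsq_smul`, `int_rct_diff`.
`tc_ub`: take the rectangle from `TC` with `K ≥ |a|,|b|,|c|,|d|` and restrict. (`bx`/`rct` with `b < a` are empty, fine.) -/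

set_option autoImplicit false

noncomputable section

open scoped BigOperators Topology
open MeasureTheory Filter Set

namespace Pool.Agent.LR

theorem mem_bx {a b c d : ℝ} {n : ℕ} (hn : 0 < n) (x : V) :
    x ∈ bx a b c d n ↔ sc n x ∈ rct a b c d := by
  have hn' : (0 : ℝ) < n := by exact_mod_cast hn
  unfold bx sc rct
  rw [Finset.mem_product, Finset.mem_Icc, Finset.mem_Icc, Set.mem_prod, Set.mem_Icc, Set.mem_Icc,
    Int.ceil_le, Int.le_floor, Int.ceil_le, Int.le_floor]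
  simp only
  rw [le_div_iff₀' hn', div_le_iff₀' hn', le_div_iff₀' hn', div_le_iff₀' hn']

private lemma isOpen_oo (a b c d : ℝ) : IsOpen (Set.Ioo a b ×ˢ Set.Ioo c d : Set P) :=
  isOpen_Ioo.prod isOpen_Ioo

private lemma isClosed_rct (a b c d : ℝ) : IsClosed (rct a b c d) :=
  isClosed_Icc.prod isClosed_Icc

private lemma bdd_oo (a b c d : ℝ) : Bornology.IsBounded (Set.Ioo a b ×ˢ Set.Ioo c d : Set P) :=
  (Metric.isBounded_Ioo a b).prod (Metric.isBounded_Ioo c d)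

private lemma oo_sub (a b c d : ℝ) : (Set.Ioo a b ×ˢ Set.Ioo c d : Set P) ⊆ rct a b c d :=
  Set.prod_mono Set.Ioo_subset_Icc_self Set.Ioo_subset_Icc_self

theorem locIn_diff (a b c d a' b' c' d' : ℝ) :
    LocIn ((Set.Ioo a b ×ˢ Set.Ioo c d) \ rct a' b' c' d')
      (fun n => bx a b c d n \ bx a' b' c' d' n) := by
  intro z hz
  have ho : IsOpen ((Set.Ioo a b ×ˢ Set.Ioo c d : Set P) \ rct a' b' c' d') :=
    (isOpen_oo a b c d).sdiff (isClosed_rct a' b' c' d')
  obtain ⟨r, hr, hb⟩ := Metric.isOpen_iff.1 ho z hz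
  refine ⟨r, hr, ?_⟩
  filter_upwards [eventually_gt_atTop 0] with n hn x hx
  have hx' : sc n x ∈ (Set.Ioo a b ×ˢ Set.Ioo c d : Set P) \ rct a' b' c' d' := by
    apply hb
    rw [Metric.mem_ball, dist_eq_norm]
    exact hx
  rw [Finset.mem_sdiff, mem_bx hn, mem_bx hn]
  exact ⟨oo_sub a b c d hx'.1, hx'.2⟩

private lemma rct_empty {a b : ℝ} (c d : ℝ) (h : b < a) : rct a b c d = ∅ := by
  unfold rct
  rw [Set.Icc_eq_empty (not_le.2 h), Set.empty_prod]

theorem lower_rct {α β κ : ℝ} (hκ : KLow α β κ) {H : P → ℝ} (hH : LL H) (a b c d : ℝ) {ε : ℝ}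
    (hε : 0 < ε) : ∀ᶠ n : ℕ in atTop,
      κ / 2 * (∫ z in rct a b c d, gsq H z) - ε ≤ Efr (JJ α β) (bx a b c d n) (smp H n) := by
  have hE : rct (max a (b + 1)) b c d = ∅ :=
    rct_empty c d (lt_of_lt_of_le (lt_add_one b) (le_max_right _ _))
  have h1 := int_rct_diff (f := gsq H) (fun U hU => ll_int hH hU)
    (le_max_left a (b + 1)) (le_refl b) (le_refl c) (le_refl d)
  rw [hE, Measure.restrict_empty, integral_zero_measure, zero_add, Set.sdiff_empty] at h1
  have hloc : LocIn (Set.Ioo a b ×ˢ Set.Ioo c d) (fun n => bx a b c d n) := by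
    have h2 := locIn_diff a b c d (max a (b + 1)) b c d
    rw [hE, Set.sdiff_empty] at h2
    intro z hz
    obtain ⟨r, hr, hev⟩ := h2 z hz
    refine ⟨r, hr, ?_⟩
    filter_upwards [hev] with n hn x hx
    exact (Finset.mem_sdiff.1 (hn x hx)).1
  have h3 := hκ.low H hH _ (isOpen_oo a b c d) (bdd_oo a b c d) _ hloc ε hε
  rw [h1]
  exact h3

theorem ub_restr {α β κ : ℝ} (hα : 4 < α) (hβ : 0 < β) (hκ : KLow α β κ) {H : P → ℝ} (hH : LL H)
    {a b c d a' b' c' d' : ℝ} (ha : a ≤ a') (hb : b' ≤ b) (hc : c ≤ c') (hd : d' ≤ d)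
    (h : UB α β κ a b c d H) : UB α β κ a' b' c' d' H := by
  intro s ε hε
  have hs : LL (fun z => s * H z) := ll_smul hH s
  have h1 := int_rct_diff (f := gsq H) (fun U hU => ll_int hH hU) ha hb hc hd
  have h2 := hκ.low (fun z => s * H z) hs _
    ((isOpen_oo a b c d).sdiff (isClosed_rct a' b' c' d'))
    ((bdd_oo a b c d).subset Set.sdiff_subset) _ (locIn_diff a b c d a' b' c' d') (ε / 2)
    (half_pos hε)
  have h3 : Tendsto (fun k : ℕ => 2 ^ k) atTop (atTop : Filter ℕ) :=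
    tendsto_pow_atTop_atTop_of_one_lt one_lt_two
  filter_upwards [h3.eventually h2, h s (ε / 2) (half_pos hε)] with k hk1 hk2
  have hpos : 0 < 2 ^ k := by positivity
  have hsub : bx a' b' c' d' (2 ^ k) ⊆ bx a b c d (2 ^ k) := by
    intro x hx
    rw [mem_bx hpos] at hx ⊢
    exact ⟨⟨ha.trans hx.1.1, hx.1.2.trans hb⟩, ⟨hc.trans hx.2.1, hx.2.2.trans hd⟩⟩
  have h4 := efr_super hα hβ (S := bx a b c d (2 ^ k)) (S₁ := bx a' b' c' d' (2 ^ k))
    (S₂ := bx a b c d (2 ^ k) \ bx a' b' c' d' (2 ^ k)) Finset.disjoint_sdiff hsub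
    Finset.sdiff_subset (smp (fun z => s * H z) (2 ^ k))
  have h5 : (∫ z in (Set.Ioo a b ×ˢ Set.Ioo c d) \ rct a' b' c' d', gsq (fun w => s * H w) z) =
      s ^ 2 * ∫ z in (Set.Ioo a b ×ˢ Set.Ioo c d) \ rct a' b' c' d', gsq H z := by
    rw [← integral_const_mul]
    congr 1
    funext z
    exact gsq_smul H s z
  rw [h5] at hk1
  rw [h1] at hk2
  linarith

theorem tc_ub {α β κ : ℝ} (hα : 4 < α) (hβ : 0 < β) (hκ : KLow α β κ) {H : P → ℝ}
    (hH : TC α β κ H) (a b c d : ℝ) : UB α β κ a b c d H := by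
  obtain ⟨K, hK⟩ := exists_nat_ge (max (max |a| |b|) (max |c| |d|))
  obtain ⟨a0, b0, c0, d0, h1, h2, h3, h4, h5⟩ := hH.2 K
  have ka : |a| ≤ K := ((le_max_left _ _).trans (le_max_left _ _)).trans hK
  have kb : |b| ≤ K := ((le_max_right _ _).trans (le_max_left _ _)).trans hK
  have kc : |c| ≤ K := ((le_max_left _ _).trans (le_max_right _ _)).trans hK
  have kd : |d| ≤ K := ((le_max_right _ _).trans (le_max_right _ _)).trans hK
  refine ub_restr hα hβ hκ hH.1 (h1.trans (neg_le_of_abs_le ka)) ((le_of_abs_le kb).trans h2)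
    (h3.trans (neg_le_of_abs_le kc)) ((le_of_abs_le kd).trans h4) h5

end Pool.Agent.LR
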