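import Pool.Agent.LR.B2b.FoldLL
import Pool.Agent.LR.B2b.TCbase
import Pool.Agent.LR.B2b.RPV

/-! # LR-B2b-15: the class `TC` is stable under folding in dyadic mirrors

PLAN. `p = j/2^{k₀}`. Given `K`, let `K'` natural `≥ K + |p|`, `U = rct (p-K') (p+K') (-K') K'`.  For `k ≥ k₀` put `m = j 2^{k-k₀}`,
so `p 2^k = m`; `S = bx (p-K') (p+K') (-K') K' (2^k) = Icc (m-K'2^k) (m+K'2^k) ×ˢ Icc (-K'2^k) (K'2^k)` is invariant under
`mirV m` and under `mirD m`, and contains `(m,0)`.  `smp (s • fvL p H) (2^k) x = if x.1 ≤ m then (smp (sH) (2^k)) x else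
smp (sH) (2^k) (mirV m x)` (`sc (2^k) (mirV m x) = (2p - z.1, z.2)`), and the same for `fvR`, `fgL`, `fgR`.
`efr_fold_vert`: `Efr(fvL) ≤ 2 Efr(sH) - Efr(fvR)`; `tc_ub` (upper bound for `H` on `U`), `lower_rct` for `s • fvR p H` (along `2^k`), `int_fv`,
`gsq_smul`: `UB` for `fvL p H` on `U ⊇ [-K,K]²`. Same for the other three. -/

set_option autoImplicit false

noncomputable section

open scoped BigOperators Topology
open MeasureTheory Filter Set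

namespace Pool.Agent.LR

private theorem tcf_ub {α β κ : ℝ} (hα : 4 < α) (hβ : 0 < β) (hκ : KLow α β κ) {H A B : P → ℝ}
    (hH : TC α β κ H) (hB : LL B) (a b c d : ℝ) (k0 : ℕ)
    (hE : ∀ s : ℝ, ∀ k : ℕ, k0 ≤ k →
      Efr (JJ α β) (bx a b c d (2 ^ k)) (smp (fun z => s * A z) (2 ^ k)) +
      Efr (JJ α β) (bx a b c d (2 ^ k)) (smp (fun z => s * B z) (2 ^ k)) ≤
      2 * Efr (JJ α β) (bx a b c d (2 ^ k)) (smp (fun z => s * H z) (2 ^ k)))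
    (hI : (∫ z in rct a b c d, gsq A z) + (∫ z in rct a b c d, gsq B z) =
      2 * ∫ z in rct a b c d, gsq H z) :
    UB α β κ a b c d A := by
  intro s ε hε
  have h1 := tc_ub hα hβ hκ hH a b c d s (ε / 4) (by positivity)
  have h2 := lower_rct hκ (ll_smul hB s) a b c d (ε := ε / 4) (by positivity)
  have h3 : Tendsto (fun k : ℕ => 2 ^ k) atTop atTop :=
    tendsto_pow_atTop_atTop_of_one_lt (by norm_num)
  have h4 := h3.eventually h2
  have h5 : (∫ z in rct a b c d, gsq (fun w => s * B w) z) =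
      s ^ 2 * ∫ z in rct a b c d, gsq B z := by
    rw [← integral_const_mul]
    simp only [gsq_smul]
  filter_upwards [h1, h4, eventually_ge_atTop k0] with k e1 e2 e3
  have e4 := hE s k e3
  rw [h5] at e2
  have e5 : κ / 2 * s ^ 2 * (∫ z in rct a b c d, gsq A z) =
      2 * (κ / 2 * s ^ 2 * (∫ z in rct a b c d, gsq H z)) -
        κ / 2 * (s ^ 2 * (∫ z in rct a b c d, gsq B z)) := by
    linear_combination (κ / 2 * s ^ 2) * hI
  rw [e5]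
  linarith

private theorem tcf_m {p : ℝ} {j : ℤ} {k0 k : ℕ} (hp : p = j / 2 ^ k0) (hk : k0 ≤ k) :
    ((j * 2 ^ (k - k0) : ℤ) : ℝ) = p * 2 ^ k := by
  obtain ⟨l, rfl⟩ := Nat.exists_eq_add_of_le hk
  rw [hp]
  push_cast
  rw [Nat.add_sub_cancel_left, pow_add]
  field_simp

private theorem tcf_scV {p : ℝ} {m : ℤ} {k : ℕ} (hm : (m : ℝ) = p * 2 ^ k) (x : V) :
    sc (2 ^ k) (mirV m x) = (2 * p - (sc (2 ^ k) x).1, (sc (2 ^ k) x).2) := by
  have h2 : (0 : ℝ) < 2 ^ k := by positivity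
  unfold sc mirV
  refine Prod.ext ?_ rfl
  simp only
  push_cast
  rw [hm]
  field_simp

private theorem tcf_scD {p : ℝ} {m : ℤ} {k : ℕ} (hm : (m : ℝ) = p * 2 ^ k) (x : V) :
    sc (2 ^ k) (mirD m x) = ((sc (2 ^ k) x).2 + p, (sc (2 ^ k) x).1 - p) := by
  have h2 : (0 : ℝ) < 2 ^ k := by positivity
  unfold sc mirD
  refine Prod.ext ?_ ?_
  · simp only
    push_cast
    rw [hm]
    field_simp
  · simp only
    push_cast
    rw [hm]
    field_simp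

private theorem tcf_m0 {p : ℝ} {m : ℤ} {k : ℕ} (hm : (m : ℝ) = p * 2 ^ k) {K : ℝ} (hK : 0 ≤ K) :
    ((m, 0) : V) ∈ bx (p - K) (p + K) (-K) K (2 ^ k) := by
  have h2 : (0 : ℝ) < 2 ^ k := by positivity
  rw [mem_bx (by positivity)]
  have e : sc (2 ^ k) ((m, 0) : V) = (p, 0) := by
    unfold sc
    refine Prod.ext ?_ ?_
    · simp only
      push_cast
      rw [hm]
      field_simp
    · simp
  rw [e]
  simp only [rct, Set.mem_prod, Set.mem_Icc]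
  refine ⟨⟨?_, ?_⟩, ?_, ?_⟩ <;> linarith

private theorem tcf_leV {p : ℝ} {m : ℤ} {k : ℕ} (hm : (m : ℝ) = p * 2 ^ k) (x : V) :
    ((sc (2 ^ k) x).1 ≤ p ↔ x.1 ≤ m) ∧ (p ≤ (sc (2 ^ k) x).1 ↔ m ≤ x.1) := by
  have h2 : (0 : ℝ) < 2 ^ k := by positivity
  have e : (sc (2 ^ k) x).1 = (x.1 : ℝ) / 2 ^ k := by
    unfold sc
    simp
  rw [e]
  constructor
  · rw [div_le_iff₀ h2, ← hm]
    exact_mod_cast Iff.rfl
  · rw [le_div_iff₀ h2, ← hm]
    exact_mod_cast Iff.rfl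

private theorem tcf_leD {p : ℝ} {m : ℤ} {k : ℕ} (hm : (m : ℝ) = p * 2 ^ k) (x : V) :
    ((sc (2 ^ k) x).1 - (sc (2 ^ k) x).2 ≤ p ↔ x.1 - x.2 ≤ m) ∧
      (p ≤ (sc (2 ^ k) x).1 - (sc (2 ^ k) x).2 ↔ m ≤ x.1 - x.2) := by
  have h2 : (0 : ℝ) < 2 ^ k := by positivity
  have e : (sc (2 ^ k) x).1 - (sc (2 ^ k) x).2 = (x.1 - x.2 : ℝ) / 2 ^ k := by
    unfold sc
    simp
    ring
  rw [e]
  constructor
  · rw [div_le_iff₀ h2, ← hm]
    exact_mod_cast Iff.rfl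
  · rw [le_div_iff₀ h2, ← hm]
    exact_mod_cast Iff.rfl

private theorem tcf_EV {α β : ℝ} (hα : 4 < α) (hβ : 0 < β) (H : P → ℝ) {p : ℝ} {j : ℤ} {k0 : ℕ}
    (hp : p = j / 2 ^ k0) {K : ℝ} (hK : 0 ≤ K) (s : ℝ) (k : ℕ) (hk : k0 ≤ k) :
    Efr (JJ α β) (bx (p - K) (p + K) (-K) K (2 ^ k)) (smp (fun z => s * fvL p H z) (2 ^ k)) +
      Efr (JJ α β) (bx (p - K) (p + K) (-K) K (2 ^ k)) (smp (fun z => s * fvR p H z) (2 ^ k)) ≤
      2 * Efr (JJ α β) (bx (p - K) (p + K) (-K) K (2 ^ k)) (smp (fun z => s * H z) (2 ^ k)) := by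
  have hm := tcf_m hp hk
  set m : ℤ := j * 2 ^ (k - k0) with hmdef
  have hS : ∀ x ∈ bx (p - K) (p + K) (-K) K (2 ^ k), mirV m x ∈ bx (p - K) (p + K) (-K) K (2 ^ k) := by
    intro x hx
    rw [mem_bx (by positivity)] at hx ⊢
    rw [tcf_scV hm]
    simp only [rct, Set.mem_prod, Set.mem_Icc] at hx ⊢
    obtain ⟨⟨h1, h2⟩, h3, h4⟩ := hx
    refine ⟨⟨?_, ?_⟩, ?_, ?_⟩ <;> linarith
  have h0 : ∃ x ∈ bx (p - K) (p + K) (-K) K (2 ^ k), x.1 = m := ⟨(m, 0), tcf_m0 hm hK, rfl⟩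
  have h := efr_fold_vert hα hβ m _ hS h0 (smp (fun z => s * H z) (2 ^ k))
  have e1 : smp (fun z => s * fvL p H z) (2 ^ k) = fun x => if x.1 ≤ m then
      smp (fun z => s * H z) (2 ^ k) x else smp (fun z => s * H z) (2 ^ k) (mirV m x) := by
    funext x
    by_cases hx : x.1 ≤ m
    · have := (tcf_leV hm x).1.2 hx
      simp only [smp, fvL, if_pos hx, if_pos this]
    · have : ¬ (sc (2 ^ k) x).1 ≤ p := fun h => hx ((tcf_leV hm x).1.1 h)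
      simp only [smp, fvL, if_neg hx, if_neg this, tcf_scV hm]
  have e2 : smp (fun z => s * fvR p H z) (2 ^ k) = fun x => if m ≤ x.1 then
      smp (fun z => s * H z) (2 ^ k) x else smp (fun z => s * H z) (2 ^ k) (mirV m x) := by
    funext x
    by_cases hx : m ≤ x.1
    · have := (tcf_leV hm x).2.2 hx
      simp only [smp, fvR, if_pos hx, if_pos this]
    · have : ¬ p ≤ (sc (2 ^ k) x).1 := fun h => hx ((tcf_leV hm x).2.1 h)
      simp only [smp, fvR, if_neg hx, if_neg this, tcf_scV hm]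
  rw [e1, e2]
  exact h

private theorem tcf_ED {α β : ℝ} (hα : 4 < α) (hβ : 0 < β) (H : P → ℝ) {p : ℝ} {j : ℤ} {k0 : ℕ}
    (hp : p = j / 2 ^ k0) {K : ℝ} (hK : 0 ≤ K) (s : ℝ) (k : ℕ) (hk : k0 ≤ k) :
    Efr (JJ α β) (bx (p - K) (p + K) (-K) K (2 ^ k)) (smp (fun z => s * fgL p H z) (2 ^ k)) +
      Efr (JJ α β) (bx (p - K) (p + K) (-K) K (2 ^ k)) (smp (fun z => s * fgR p H z) (2 ^ k)) ≤
      2 * Efr (JJ α β) (bx (p - K) (p + K) (-K) K (2 ^ k)) (smp (fun z => s * H z) (2 ^ k)) := by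
  have hm := tcf_m hp hk
  set m : ℤ := j * 2 ^ (k - k0) with hmdef
  have hS : ∀ x ∈ bx (p - K) (p + K) (-K) K (2 ^ k), mirD m x ∈ bx (p - K) (p + K) (-K) K (2 ^ k) := by
    intro x hx
    rw [mem_bx (by positivity)] at hx ⊢
    rw [tcf_scD hm]
    simp only [rct, Set.mem_prod, Set.mem_Icc] at hx ⊢
    obtain ⟨⟨h1, h2⟩, h3, h4⟩ := hx
    refine ⟨⟨?_, ?_⟩, ?_, ?_⟩ <;> linarith
  have h0 : ∃ x ∈ bx (p - K) (p + K) (-K) K (2 ^ k), x.1 - x.2 = m :=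
    ⟨(m, 0), tcf_m0 hm hK, by simp⟩
  have h := efr_fold_diag hα hβ m _ hS h0 (smp (fun z => s * H z) (2 ^ k))
  have e1 : smp (fun z => s * fgL p H z) (2 ^ k) = fun x => if x.1 - x.2 ≤ m then
      smp (fun z => s * H z) (2 ^ k) x else smp (fun z => s * H z) (2 ^ k) (mirD m x) := by
    funext x
    by_cases hx : x.1 - x.2 ≤ m
    · have := (tcf_leD hm x).1.2 hx
      simp only [smp, fgL, if_pos hx, if_pos this]
    · have : ¬ (sc (2 ^ k) x).1 - (sc (2 ^ k) x).2 ≤ p := fun h => hx ((tcf_leD hm x).1.1 h)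
      simp only [smp, fgL, if_neg hx, if_neg this, tcf_scD hm]
  have e2 : smp (fun z => s * fgR p H z) (2 ^ k) = fun x => if m ≤ x.1 - x.2 then
      smp (fun z => s * H z) (2 ^ k) x else smp (fun z => s * H z) (2 ^ k) (mirD m x) := by
    funext x
    by_cases hx : m ≤ x.1 - x.2
    · have := (tcf_leD hm x).2.2 hx
      simp only [smp, fgR, if_pos hx, if_pos this]
    · have : ¬ p ≤ (sc (2 ^ k) x).1 - (sc (2 ^ k) x).2 := fun h => hx ((tcf_leD hm x).2.1 h)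
      simp only [smp, fgR, if_neg hx, if_neg this, tcf_scD hm]
  rw [e1, e2]
  exact h

private theorem tcf_K (p : ℝ) (K : ℕ) : ∃ K' : ℝ, 0 ≤ K' ∧ p - K' ≤ -K ∧ (K : ℝ) ≤ p + K' ∧
    -K' ≤ -(K : ℝ) ∧ (K : ℝ) ≤ K' := by
  refine ⟨K + |p|, by positivity, ?_, ?_, ?_, ?_⟩
  · have := le_abs_self p
    linarith
  · have := neg_abs_le p
    linarith
  · have := abs_nonneg p
    linarith
  · have := abs_nonneg p
    linarith

theorem tc_fvL {α β κ : ℝ} (hα : 4 < α) (hβ : 0 < β) (hκ : KLow α β κ) {H : P → ℝ}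
    (hH : TC α β κ H) {p : ℝ} (hp : Dya p) : TC α β κ (fvL p H) := by
  obtain ⟨j, k0, hp⟩ := hp
  refine ⟨ll_fvL hH.1 p, fun K => ?_⟩
  obtain ⟨K', h0, h1, h2, h3, h4⟩ := tcf_K p K
  refine ⟨p - K', p + K', -K', K', h1, h2, h3, h4, ?_⟩
  exact tcf_ub hα hβ hκ hH (ll_fvR hH.1 p) _ _ _ _ k0
    (fun s k hk => tcf_EV hα hβ H hp h0 s k hk) (int_fv hH.1 p K' (-K') K')

theorem tc_fvR {α β κ : ℝ} (hα : 4 < α) (hβ : 0 < β) (hκ : KLow α β κ) {H : P → ℝ}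
    (hH : TC α β κ H) {p : ℝ} (hp : Dya p) : TC α β κ (fvR p H) := by
  obtain ⟨j, k0, hp⟩ := hp
  refine ⟨ll_fvR hH.1 p, fun K => ?_⟩
  obtain ⟨K', h0, h1, h2, h3, h4⟩ := tcf_K p K
  refine ⟨p - K', p + K', -K', K', h1, h2, h3, h4, ?_⟩
  refine tcf_ub hα hβ hκ hH (ll_fvL hH.1 p) _ _ _ _ k0
    (fun s k hk => ?_) ?_
  · have := tcf_EV hα hβ H hp h0 s k hk
    linarith
  · have := int_fv hH.1 p K' (-K') K'
    linarith

theorem tc_fgL {α β κ : ℝ} (hα : 4 < α) (hβ : 0 < β) (hκ : KLow α β κ) {H : P → ℝ}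
    (hH : TC α β κ H) {p : ℝ} (hp : Dya p) : TC α β κ (fgL p H) := by
  obtain ⟨j, k0, hp⟩ := hp
  refine ⟨ll_fgL hH.1 p, fun K => ?_⟩
  obtain ⟨K', h0, h1, h2, h3, h4⟩ := tcf_K p K
  refine ⟨p - K', p + K', -K', K', h1, h2, h3, h4, ?_⟩
  exact tcf_ub hα hβ hκ hH (ll_fgR hH.1 p) _ _ _ _ k0
    (fun s k hk => tcf_ED hα hβ H hp h0 s k hk) (int_fg hH.1 p K')

end Pool.Agent.LR
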