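import Pool.Agent.LR.B2b.FoldLL
import Pool.Agent.LR.B2b.TCbase

/-! # LR-B2b-14: coordinate function and symmetries

PLAN.
`tc_fst`: rectangle `[-K,K]²` (`K` natural): `bx (-K) K (-K) K (2^k) = Ico (-K 2^k) (-K 2^k + N) ×ˢ ...` with `N = 2 K 2^k + 1`
(all numbers are integers), `smp (s z.1) (2^k) x = (s/2^k) x.1`; `KLow.lin` with `t = (s/2^k, 0)`: bound
`κ/2 s² (2K 2^k + 1)²/4^k → κ/2 s² (2K)²`; `gsq (fun z => z.1) = 1`, area `(2K)²`.
`tc_swap`: `efr_iso` with the swap `θ x = (x.2, x.1)` (`len` invariant): `(bx a b c d n).map θ = bx c d a b n`, `smp H n ∘ θ = smp (H∘swap) n`;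
`int_swap`, `ll_swap`, `gsq_smul`.  `tc_neg2`: `θ x = (x.1, -x.2)`, `(bx a b c d n).map θ = bx a b (-d) (-c) n` (`⌈-y⌉ = -⌊y⌋`), `int_neg2`. -/

set_option autoImplicit false

noncomputable section

open scoped BigOperators Topology
open MeasureTheory Filter Set

namespace Pool.Agent.LR

private lemma ts_gsq_fst (z : P) : gsq (fun z : P => z.1) z = 1 := by
  have h : fderiv ℝ (fun z : P => z.1) z = ContinuousLinearMap.fst ℝ ℝ ℝ :=
    (ContinuousLinearMap.fst ℝ ℝ ℝ).hasFDerivAt.fderiv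
  simp [gsq, h]

private lemma ts_ll_fst : LL (fun z : P => z.1) := by
  intro K
  refine ⟨1, fun z w _ _ => ?_⟩
  rw [one_mul]
  have := norm_fst_le (z - w)
  simpa [Real.norm_eq_abs] using this

private lemma ts_int_fst (K : ℕ) :
    (∫ z in rct (-(K : ℝ)) K (-(K : ℝ)) K, gsq (fun z : P => z.1) z) = (2 * (K : ℝ)) ^ 2 := by
  have h0 : (0 : ℝ) ≤ K := Nat.cast_nonneg K
  simp_rw [ts_gsq_fst]
  rw [setIntegral_const]
  have hv : (volume : Measure P).real (rct (-(K : ℝ)) K (-(K : ℝ)) K) = (2 * (K : ℝ)) ^ 2 := by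
    rw [rct, Measure.real, Measure.volume_eq_prod, Measure.prod_prod, Real.volume_Icc,
      ENNReal.toReal_mul, ENNReal.toReal_ofReal (by linarith)]
    ring
  rw [hv]; simp

private lemma ts_bx (K n : ℕ) :
    bx (-(K : ℝ)) K (-(K : ℝ)) K n =
      Finset.Ico (-((n : ℤ) * K)) (-((n : ℤ) * K) + ((2 * n * K + 1 : ℕ) : ℤ)) ×ˢ
      Finset.Ico (-((n : ℤ) * K)) (-((n : ℤ) * K) + ((2 * n * K + 1 : ℕ) : ℤ)) := by
  have h1 : ⌈(n : ℝ) * (-(K : ℝ))⌉ = -((n : ℤ) * K) := by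
    have : (n : ℝ) * (-(K : ℝ)) = ((-((n : ℤ) * K) : ℤ) : ℝ) := by push_cast; ring
    rw [this, Int.ceil_intCast]
  have h2 : ⌊(n : ℝ) * (K : ℝ)⌋ = (n : ℤ) * K := by
    have : (n : ℝ) * (K : ℝ) = (((n : ℤ) * K : ℤ) : ℝ) := by push_cast; ring
    rw [this, Int.floor_intCast]
  have h3 : Finset.Icc (-((n : ℤ) * K)) ((n : ℤ) * K) =
      Finset.Ico (-((n : ℤ) * K)) (-((n : ℤ) * K) + ((2 * n * K + 1 : ℕ) : ℤ)) := by
    ext x
    simp only [Finset.mem_Icc, Finset.mem_Ico]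
    push_cast
    constructor
    · rintro ⟨h, h'⟩; exact ⟨h, by linarith⟩
    · rintro ⟨h, h'⟩; exact ⟨h, by linarith⟩
  rw [bx, h1, h2, h3]

theorem tc_fst {α β κ : ℝ} (hα : 4 < α) (hβ : 0 < β) (hκ : KLow α β κ) :
    TC α β κ (fun z => z.1) := by
  refine ⟨ts_ll_fst, fun K => ⟨-(K : ℝ), K, -(K : ℝ), K, le_rfl, le_rfl, le_rfl, le_rfl, ?_⟩⟩
  intro s ε hε
  rw [ts_int_fst]
  have hlim : Tendsto (fun k : ℕ => κ / 2 * s ^ 2 * (2 * (K : ℝ) + ((2 : ℝ) ^ k)⁻¹) ^ 2) atTop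
      (𝓝 (κ / 2 * s ^ 2 * (2 * (K : ℝ) + 0) ^ 2)) := by
    apply Tendsto.const_mul
    apply Tendsto.pow
    apply Tendsto.const_add
    have := tendsto_pow_atTop_nhds_zero_of_lt_one (r := (1 / 2 : ℝ)) (by norm_num) (by norm_num)
    refine this.congr fun k => ?_
    rw [one_div, inv_pow]
  rw [add_zero] at hlim
  have hev := hlim.eventually_lt_const (lt_add_of_pos_right (κ / 2 * s ^ 2 * (2 * (K : ℝ)) ^ 2) hε)
  filter_upwards [hev] with k hk
  refine le_trans ?_ hk.le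
  rw [ts_bx]
  have hlin := hκ.lin (2 * 2 ^ k * K + 1)
    (-(((2 ^ k : ℕ) : ℤ) * K), -(((2 ^ k : ℕ) : ℤ) * K)) (s / 2 ^ k, 0)
  have hfun : (fun x : V => (s / 2 ^ k, (0 : ℝ)).1 * (x.1 : ℝ) + (s / 2 ^ k, (0 : ℝ)).2 * (x.2 : ℝ))
      = smp (fun z : P => s * z.1) (2 ^ k) := by
    funext x
    simp only [smp, sc]
    push_cast
    ring
  rw [hfun] at hlin
  refine hlin.trans (le_of_eq ?_)
  have hk0 : (2 : ℝ) ^ k ≠ 0 := by positivity
  push_cast
  field_simp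
  ring

private def tsSwap : V ≃ V := Equiv.prodComm ℤ ℤ

private lemma ts_len_swap (v : V) : len (v.2, v.1) = len v := by
  simp only [len]; rw [add_comm]

private lemma ts_swap_JJ (α β : ℝ) (x y : V) :
    JJ α β (tsSwap x) (tsSwap y) = JJ α β x y := by
  have h : tsSwap x - tsSwap y = ((x - y).2, (x - y).1) := rfl
  unfold JJ
  rw [h]
  unfold Jc
  rw [ts_len_swap]
  have : (((x - y).2, (x - y).1) = (0 : V)) ↔ (x - y = 0) := by
    rw [Prod.ext_iff, Prod.ext_iff]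
    simp only [Prod.fst_zero, Prod.snd_zero]
    exact and_comm
  by_cases h0 : x - y = 0
  · rw [if_pos h0, if_pos (this.2 h0)]
  · rw [if_neg h0, if_neg (fun h' => h0 (this.1 h'))]

theorem tc_swap {α β κ : ℝ} (hα : 4 < α) (hβ : 0 < β) (hκ : KLow α β κ) {H : P → ℝ}
    (hH : TC α β κ H) : TC α β κ (fun z => H (z.2, z.1)) := by
  refine ⟨ll_swap hH.1, fun K => ?_⟩
  obtain ⟨a, b, c, d, ha, hb, hc, hd, hU⟩ := hH.2 K
  refine ⟨c, d, a, b, hc, hd, ha, hb, ?_⟩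
  intro s ε hε
  filter_upwards [hU s ε hε] with k hk
  have e1 : bx c d a b (2 ^ k) = (bx a b c d (2 ^ k)).map tsSwap.toEmbedding := by
    ext x
    simp only [bx, Finset.mem_map_equiv, Finset.mem_product]
    simp only [tsSwap, Equiv.prodComm_symm, Equiv.prodComm_apply, Prod.fst_swap, Prod.snd_swap]
    exact and_comm
  rw [e1, efr_iso hα hβ tsSwap (ts_swap_JJ α β), int_swap H c d a b]
  have e2 : smp (fun z : P => s * H (z.2, z.1)) (2 ^ k) ∘ tsSwap = smp (fun z => s * H z) (2 ^ k) := by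
    funext x
    simp [smp, sc, tsSwap]
  rw [e2]
  exact hk

private def tsNeg : V ≃ V := Equiv.prodCongr (Equiv.refl ℤ) (Equiv.neg ℤ)

private lemma ts_neg_JJ (α β : ℝ) (x y : V) :
    JJ α β (tsNeg x) (tsNeg y) = JJ α β x y := by
  have h : tsNeg x - tsNeg y = ((x - y).1, -(x - y).2) := by
    simp only [tsNeg, Equiv.prodCongr_apply, Prod.map, Equiv.refl_apply, Equiv.neg_apply]
    ext
    · simp
    · simp; ring
  unfold JJ
  rw [h]
  unfold Jc
  have hl : len ((x - y).1, -(x - y).2) = len (x - y) := by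
    simp only [len]; push_cast; rw [neg_sq]
  rw [hl]
  have : (((x - y).1, -(x - y).2) = (0 : V)) ↔ (x - y = 0) := by
    rw [Prod.ext_iff, Prod.ext_iff]
    simp only [Prod.fst_zero, Prod.snd_zero, neg_eq_zero]
  by_cases h0 : x - y = 0
  · rw [if_pos h0, if_pos (this.2 h0)]
  · rw [if_neg h0, if_neg (fun h' => h0 (this.1 h'))]

theorem tc_neg2 {α β κ : ℝ} (hα : 4 < α) (hβ : 0 < β) (hκ : KLow α β κ) {H : P → ℝ}
    (hH : TC α β κ H) : TC α β κ (fun z => H (z.1, -z.2)) := by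
  refine ⟨ll_neg2 hH.1, fun K => ?_⟩
  obtain ⟨a, b, c, d, ha, hb, hc, hd, hU⟩ := hH.2 K
  refine ⟨a, b, -d, -c, ha, hb, by linarith, by linarith, ?_⟩
  intro s ε hε
  filter_upwards [hU s ε hε] with k hk
  have e1 : bx a b (-d) (-c) (2 ^ k) = (bx a b c d (2 ^ k)).map tsNeg.toEmbedding := by
    ext x
    simp only [bx, Finset.mem_map_equiv, Finset.mem_product]
    have hx : tsNeg.symm x = (x.1, -x.2) := by
      rw [Equiv.symm_apply_eq]
      simp [tsNeg]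
    rw [hx]
    simp only [mul_neg, Int.ceil_neg, Int.floor_neg, Finset.mem_Icc]
    constructor
    · rintro ⟨h1, h2, h3⟩; exact ⟨h1, by linarith, by linarith⟩
    · rintro ⟨h1, h2, h3⟩; exact ⟨h1, by linarith, by linarith⟩
  rw [e1, efr_iso hα hβ tsNeg (ts_neg_JJ α β), int_neg2 H a b (-d) (-c), neg_neg, neg_neg]
  have e2 : smp (fun z : P => s * H (z.1, -z.2)) (2 ^ k) ∘ tsNeg = smp (fun z => s * H z) (2 ^ k) := by
    funext x
    simp only [Function.comp, smp, sc, tsNeg, Equiv.prodCongr_apply, Prod.map, Equiv.refl_apply,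
      Equiv.neg_apply]
    push_cast
    rw [neg_div, neg_neg]
  rw [e2]
  exact hk

end Pool.Agent.LR
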