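import Pool.Agent.LR.B2b.TClin
import Pool.Agent.LR.B2b.TCsym
import Pool.Agent.LR.B2b.TCfold
import Pool.Agent.LR.B2b.Cells

/-! # LR-B2b-17: generation of `|x₁-p||x₂-q|`

PLAN (all with dyadic `p, q`; use `TC` closed under `tc_add`, `tc_smul`, `tc_const`, `tc_sum`, `tc_swap`, `tc_neg2`, folds, `tc_closed`).
1. `fvR p (z.1) = max z.1 (2p - z.1) = p + |z.1 - p|`, so `|z.1 - p| ∈ TC`; `z.2 ∈ TC` by swap.
2. `fgL p (z.1) = min z.1 (z.2 + p) = z.2 + ((z.1 - z.2) + p - |z.1 - z.2 - p|)/2`, so `|z.1 - z.2 - p| ∈ TC`.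
3. `sq_approx` (Cells.lean), `tc_closed`: `z.1² ∈ TC`, `(z.1 - z.2)² ∈ TC` (for `‖z‖ ≤ K`, `|z.1 - z.2| ≤ 2K`, and
   `|ℓ z - ℓ w| ≤ 2 ‖z - w‖`); `LL` of polynomials from `ll_of_contDiff`.
4. `tc_neg2`: `(z.1 + z.2)² ∈ TC`; so `(z.1 - p + z.2 - q)² = (z.1+z.2)² - 2(p+q)(z.1+z.2) + (p+q)² ∈ TC`.
5. `fvR p` of it: `(|z.1 - p| + z.2 - q)²`; swap, `fvR q`, swap: `(|z.1 - p| + |z.2 - q|)² ∈ TC`; subtract `(z.1-p)²` and `(z.2-q)²`. -/

set_option autoImplicit false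

noncomputable section

open scoped BigOperators Topology
open MeasureTheory Filter Set

namespace Pool.Agent.LR

private theorem tc_snd' {α β κ : ℝ} (hα : 4 < α) (hβ : 0 < β) (hκ : KLow α β κ) :
    TC α β κ (fun z => z.2) := tc_swap hα hβ hκ (tc_fst hα hβ hκ)

private theorem tc_cg {α β κ : ℝ} {F G : P → ℝ} (hF : TC α β κ F) (h : ∀ z, G z = F z) :
    TC α β κ G := by
  have : G = F := funext h
  rw [this]
  exact hF

theorem tc_abs {α β κ : ℝ} (hα : 4 < α) (hβ : 0 < β) (hκ : KLow α β κ) {p : ℝ} (hp : Dya p) :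
    TC α β κ (fun z => |z.1 - p|) := by
  refine tc_cg (tc_add hα hβ hκ (tc_fvR hα hβ hκ (tc_fst hα hβ hκ) hp)
    (tc_const hα hβ hκ (-p))) fun z => ?_
  simp only [fvR]
  split_ifs with h
  · rw [abs_of_nonneg (sub_nonneg.2 h)]; ring
  · rw [abs_of_neg (by linarith [not_le.1 h])]; ring

theorem tc_absd {α β κ : ℝ} (hα : 4 < α) (hβ : 0 < β) (hκ : KLow α β κ) {p : ℝ} (hp : Dya p) :
    TC α β κ (fun z => |z.1 - z.2 - p|) := by
  refine tc_cg (tc_add hα hβ hκ (tc_add hα hβ hκ (tc_add hα hβ hκ (tc_fst hα hβ hκ)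
    (tc_snd' hα hβ hκ)) (tc_const hα hβ hκ p))
    (tc_smul hκ (tc_fgL hα hβ hκ (tc_fst hα hβ hκ) hp) (-2))) fun z => ?_
  simp only [fgL]
  split_ifs with h
  · rw [abs_of_nonpos (by linarith)]; ring
  · rw [abs_of_pos (by linarith [not_le.1 h])]; ring

private theorem fst_abs_le (z : P) : |z.1| ≤ ‖z‖ := by
  have := norm_fst_le z
  rwa [Real.norm_eq_abs] at this

private theorem snd_abs_le (z : P) : |z.2| ≤ ‖z‖ := by
  have := norm_snd_le z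
  rwa [Real.norm_eq_abs] at this

theorem tc_sq {α β κ : ℝ} (hα : 4 < α) (hβ : 0 < β) (hκ : KLow α β κ) :
    TC α β κ (fun z => z.1 ^ 2) ∧ TC α β κ (fun z => (z.1 - z.2) ^ 2) := by
  constructor
  · refine tc_closed hα hβ hκ (ll_of_contDiff (by fun_prop)) fun K ε hε => ?_
    obtain ⟨t, m, c, hc⟩ := sq_approx K hε
    refine ⟨fun z => ∑ i ∈ t, c i * |z.1 - i / 2 ^ m|,
      tc_sum hα hβ hκ t (fun i z => c i * |z.1 - i / 2 ^ m|) fun i _ =>
        tc_smul hκ (tc_abs hα hβ hκ ⟨i, m, rfl⟩) _, fun z w hz hw => ?_⟩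
    refine (hc z.1 w.1 ((fst_abs_le z).trans hz) ((fst_abs_le w).trans hw)).trans ?_
    exact mul_le_mul_of_nonneg_left (fst_abs_le (z - w)) hε.le
  · refine tc_closed hα hβ hκ (ll_of_contDiff (by fun_prop)) fun K ε hε => ?_
    obtain ⟨t, m, c, hc⟩ := sq_approx (2 * K) (half_pos hε)
    refine ⟨fun z => ∑ i ∈ t, c i * |z.1 - z.2 - i / 2 ^ m|,
      tc_sum hα hβ hκ t (fun i z => c i * |z.1 - z.2 - i / 2 ^ m|) fun i _ =>
        tc_smul hκ (tc_absd hα hβ hκ ⟨i, m, rfl⟩) _, fun z w hz hw => ?_⟩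
    have hb : ∀ v : P, ‖v‖ ≤ K → |v.1 - v.2| ≤ ((2 * K : ℕ) : ℝ) := by
      intro v hv
      have h1 := (fst_abs_le v).trans hv
      have h2 := (snd_abs_le v).trans hv
      push_cast
      exact (abs_sub _ _).trans (by linarith)
    refine (hc (z.1 - z.2) (w.1 - w.2) (hb z hz) (hb w hw)).trans ?_
    have h3 : |z.1 - z.2 - (w.1 - w.2)| ≤ 2 * ‖z - w‖ := by
      have e : z.1 - z.2 - (w.1 - w.2) = (z - w).1 - (z - w).2 := by
        simp only [Prod.fst_sub, Prod.snd_sub]; ring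
      rw [e]
      exact (abs_sub _ _).trans (by linarith [fst_abs_le (z - w), snd_abs_le (z - w)])
    calc ε / 2 * |z.1 - z.2 - (w.1 - w.2)| ≤ ε / 2 * (2 * ‖z - w‖) :=
          mul_le_mul_of_nonneg_left h3 (half_pos hε).le
      _ = ε * ‖z - w‖ := by ring

theorem tc_prod {α β κ : ℝ} (hα : 4 < α) (hβ : 0 < β) (hκ : KLow α β κ) {p q : ℝ} (hp : Dya p)
    (hq : Dya q) : TC α β κ (fun z => |z.1 - p| * |z.2 - q|) := by
  have h1 := tc_fst hα hβ hκ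
  have h2 := tc_snd' hα hβ hκ
  have hs : TC α β κ (fun z => (z.1 + z.2) ^ 2) :=
    tc_cg (tc_neg2 hα hβ hκ (tc_sq hα hβ hκ).2) fun z => by ring
  have h3 : TC α β κ (fun z => (z.1 - p + (z.2 - q)) ^ 2) :=
    tc_cg (tc_add hα hβ hκ (tc_add hα hβ hκ hs
      (tc_smul hκ (tc_add hα hβ hκ h1 h2) (-2 * (p + q)))) (tc_const hα hβ hκ ((p + q) ^ 2)))
      fun z => by ring
  have h4 : TC α β κ (fun z => (|z.1 - p| + (z.2 - q)) ^ 2) := by
    refine tc_cg (tc_fvR hα hβ hκ h3 hp) fun z => ?_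
    simp only [fvR]
    split_ifs with h
    · rw [abs_of_nonneg (sub_nonneg.2 h)]
    · rw [abs_of_neg (by linarith [not_le.1 h])]; ring
  have h5 : TC α β κ (fun z => (|z.2 - p| + (z.1 - q)) ^ 2) := tc_swap hα hβ hκ h4
  have h6 : TC α β κ (fun z => (|z.2 - p| + |z.1 - q|) ^ 2) := by
    refine tc_cg (tc_fvR hα hβ hκ h5 hq) fun z => ?_
    simp only [fvR]
    split_ifs with h
    · rw [abs_of_nonneg (sub_nonneg.2 h)]
    · have e : |z.1 - q| = -(z.1 - q) := abs_of_neg (by linarith [not_le.1 h])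
      rw [e]; ring
  have h7 : TC α β κ (fun z => (|z.1 - p| + |z.2 - q|) ^ 2) := tc_swap hα hβ hκ h6
  have hsq : ∀ r : ℝ, TC α β κ (fun z => (z.1 - r) ^ 2) := fun r =>
    tc_cg (tc_add hα hβ hκ (tc_add hα hβ hκ (tc_sq hα hβ hκ).1 (tc_smul hκ h1 (-2 * r)))
      (tc_const hα hβ hκ (r ^ 2))) fun z => by ring
  have h8 : TC α β κ (fun z => (z.2 - q) ^ 2) := tc_swap hα hβ hκ (hsq q)
  refine tc_cg (tc_add hα hβ hκ (tc_smul hκ h7 (1 / 2))
    (tc_smul hκ (tc_add hα hβ hκ (hsq p) h8) (-1 / 2))) fun z => ?_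
  rw [add_sq, sq_abs, sq_abs]
  ring

end Pool.Agent.LR
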