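import Pool.Agent.LR.B2b.Cells

/-! # LR-B2b-18: bilinear interpolation on dyadic grids (pure analysis)

PLAN. `interp`: `δ = 2^{-m}`, `t_i s = (|s - (i-1)δ| - 2|s - iδ| + |s - (i+1)δ|)/(2δ)` (hat function: `1 - |s - iδ|/δ` for `|s - iδ| ≤ δ`,
`0` otherwise), `G z = ∑_{|i|,|j| ≤ (K+1) 2^m} H(iδ, jδ) t_i(z.1) t_j(z.2)`; expanding the hats `G` is a finite combination of
`|z.1 - iδ| |z.2 - jδ|`.  For `‖z‖ ≤ K` in the cell `[iδ,(i+1)δ] × [jδ,(j+1)δ]`, with `λ = (z.1 - iδ)/δ`, `μ = (z.2 - jδ)/δ`: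
`G z = (1-λ)(1-μ) H_{ij} + λ(1-μ) H_{i+1,j} + (1-λ)μ H_{i,j+1} + λμ H_{i+1,j+1}`.  For fixed `z.2`, `s ↦ (H - G)(s, z.2)` is on each
cell differentiable with derivative `∂₁H(s, z.2) - [(1-μ)(H_{i+1,j}-H_{ij})/δ + μ (H_{i+1,j+1}-H_{i,j+1})/δ]`, and the quotients are values of
`∂₁H` at points of the cell (mean value theorem), so it is bounded by the oscillation `ω` of `∂₁H` on sets of diameter `≤ δ` (uniform
continuity of `fderiv H` on `{‖z‖ ≤ K+1}`): Lipschitz with constant `ω` on each cell, hence (`lip_cells`) on `[-K,K]`.  Same in the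
second variable; `|F(z) - F(w)| ≤ ω |z.1 - w.1| + ω |z.2 - w.2| ≤ 2 ω ‖z - w‖`. -/

set_option autoImplicit false

noncomputable section

open scoped BigOperators Topology
open MeasureTheory Filter Set

namespace Pool.Agent.LR

/-- Hat function. -/
private def hat (δ : ℝ) (k : ℤ) (s : ℝ) : ℝ :=
  (|s - (k - 1) * δ| - 2 * |s - k * δ| + |s - (k + 1) * δ|) / (2 * δ)

/-- Bilinear interpolation. -/
private def GG (δ : ℝ) (N : ℕ) (H : ℝ → ℝ → ℝ) (s y : ℝ) : ℝ :=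
  ∑ a ∈ Finset.Icc (-(N : ℤ)) N, (∑ b ∈ Finset.Icc (-(N : ℤ)) N, H (a * δ) (b * δ) * hat δ b y) * hat δ a s

private theorem hat_left {δ s : ℝ} (hδ : 0 < δ) {i : ℤ} (h1 : i * δ ≤ s) (h2 : s ≤ (i + 1) * δ) :
    hat δ i s = 1 - (s - i * δ) / δ := by
  unfold hat
  rw [abs_of_nonneg (by nlinarith), abs_of_nonneg (by linarith), abs_of_nonpos (by linarith)]
  field_simp
  ring

private theorem hat_right {δ s : ℝ} (hδ : 0 < δ) {i : ℤ} (h1 : i * δ ≤ s) (h2 : s ≤ (i + 1) * δ) :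
    hat δ (i + 1) s = (s - i * δ) / δ := by
  unfold hat
  push_cast
  rw [abs_of_nonneg (by nlinarith), abs_of_nonpos (by linarith), abs_of_nonpos (by nlinarith)]
  field_simp
  ring

private theorem hat_zero {δ s : ℝ} (hδ : 0 < δ) {i k : ℤ} (h1 : i * δ ≤ s) (h2 : s ≤ (i + 1) * δ)
    (hk : k ≠ i ∧ k ≠ i + 1) : hat δ k s = 0 := by
  unfold hat
  rcases lt_or_gt_of_ne hk.1 with h | h
  · have hk' : (k : ℝ) + 1 ≤ i := by exact_mod_cast h
    have e1 : (k + 1 : ℝ) * δ ≤ i * δ := mul_le_mul_of_nonneg_right hk' hδ.le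
    rw [abs_of_nonneg (by nlinarith), abs_of_nonneg (by nlinarith), abs_of_nonneg (by nlinarith)]
    have : s - (k - 1) * δ - 2 * (s - k * δ) + (s - (k + 1) * δ) = 0 := by ring
    rw [this, zero_div]
  · have h3 : i + 1 < k := lt_of_le_of_ne h (Ne.symm hk.2)
    have hk' : (i : ℝ) + 2 ≤ k := by
      have : i + 2 ≤ k := by omega
      exact_mod_cast this
    have e1 : (i + 2 : ℝ) * δ ≤ k * δ := mul_le_mul_of_nonneg_right hk' hδ.le
    rw [abs_of_nonpos (by nlinarith), abs_of_nonpos (by nlinarith), abs_of_nonpos (by nlinarith)]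
    have : -(s - (k - 1) * δ) - 2 * -(s - k * δ) + -(s - (k + 1) * δ) = 0 := by ring
    rw [this, zero_div]

private theorem hat_sum {δ s : ℝ} (hδ : 0 < δ) {N : ℕ} {i : ℤ} (hi1 : -(N : ℤ) ≤ i) (hi2 : i < N)
    (h1 : i * δ ≤ s) (h2 : s ≤ (i + 1) * δ) (f : ℤ → ℝ) :
    ∑ a ∈ Finset.Icc (-(N : ℤ)) N, f a * hat δ a s =
      f i + (s - i * δ) / δ * (f (i + 1) - f i) := by
  rw [Finset.sum_eq_add i (i + 1) (by omega)]
  · rw [hat_left hδ h1 h2, hat_right hδ h1 h2]; ring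
  · intro c _ hc
    rw [hat_zero hδ h1 h2 hc, mul_zero]
  · intro h; exact absurd (Finset.mem_Icc.2 ⟨hi1, hi2.le⟩) h
  · intro h; exact absurd (Finset.mem_Icc.2 ⟨by omega, by omega⟩) h

private theorem exists_cell {δ y : ℝ} (hδ : 0 < δ) {N : ℕ} (hN : 0 < N) (hy : |y| ≤ N * δ) :
    ∃ j : ℤ, -(N : ℤ) ≤ j ∧ j < N ∧ j * δ ≤ y ∧ y ≤ (j + 1) * δ := by
  obtain ⟨hy1, hy2⟩ := abs_le.1 hy
  rcases hy2.lt_or_eq with h | h
  · refine ⟨⌊y / δ⌋, ?_, ?_, ?_, ?_⟩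
    · rw [Int.le_floor, le_div_iff₀ hδ]; push_cast; linarith
    · rw [Int.floor_lt, div_lt_iff₀ hδ]; push_cast; linarith
    · rw [← le_div_iff₀ hδ]; exact Int.floor_le _
    · rw [← div_le_iff₀ hδ]; exact (Int.lt_floor_add_one _).le
  · refine ⟨N - 1, by omega, by omega, ?_, ?_⟩
    · push_cast; rw [h]; nlinarith
    · push_cast; rw [h]; ring_nf; exact le_refl _

private theorem one_var {δ ω : ℝ} (hδ : 0 < δ) {N : ℕ} {H : ℝ → ℝ → ℝ}
    (hyp : ∀ i j : ℤ, -(N : ℤ) ≤ i → i < N → -(N : ℤ) ≤ j → j < N → ∃ d : ℝ, ∀ y s s' : ℝ,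
      j * δ ≤ y → y ≤ (j + 1) * δ → i * δ ≤ s → s ≤ (i + 1) * δ → i * δ ≤ s' → s' ≤ (i + 1) * δ →
        |H s y - H s' y - d * (s - s')| ≤ ω * |s - s'|)
    {y : ℝ} (hy : |y| ≤ N * δ) {s s' : ℝ} (hs : |s| ≤ N * δ) (hs' : |s'| ≤ N * δ) :
    |(H s y - GG δ N H s y) - (H s' y - GG δ N H s' y)| ≤ 2 * ω * |s - s'| := by
  refine lip_cells (f := fun s => H s y - GG δ N H s y) (A := 2 * ω) hδ N ?_ s s' hs hs'
  intro i hi1 hi2 s t hs1 hs2 ht1 ht2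
  have hN : 0 < N := by
    rcases Nat.eq_zero_or_pos N with h | h
    · subst h; simp only [Nat.cast_zero] at hi1 hi2; omega
    · exact h
  obtain ⟨j, hj1, hj2, hy1, hy2⟩ := exists_cell hδ hN hy
  obtain ⟨d, hd⟩ := hyp i j hi1 hi2 hj1 hj2
  have key : ∀ u : ℝ, i * δ ≤ u → u ≤ (i + 1) * δ → GG δ N H u y =
      (∑ b ∈ Finset.Icc (-(N : ℤ)) N, H (i * δ) (b * δ) * hat δ b y) +
        (u - i * δ) / δ * ((∑ b ∈ Finset.Icc (-(N : ℤ)) N, H (((i + 1 : ℤ) : ℝ) * δ) (b * δ) * hat δ b y) -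
          (∑ b ∈ Finset.Icc (-(N : ℤ)) N, H (i * δ) (b * δ) * hat δ b y)) := by
    intro u hu1 hu2
    unfold GG
    exact hat_sum hδ hi1 hi2 hu1 hu2
      (fun a => ∑ b ∈ Finset.Icc (-(N : ℤ)) N, H (a * δ) (b * δ) * hat δ b y)
  have e1 := hat_sum hδ hj1 hj2 hy1 hy2 (fun b => H (i * δ) (b * δ))
  have e2 := hat_sum hδ hj1 hj2 hy1 hy2 (fun b => H (((i + 1 : ℤ) : ℝ) * δ) (b * δ))
  rw [e1, e2] at key
  clear e1 e2
  have hμ0 : 0 ≤ (y - j * δ) / δ := div_nonneg (by linarith) hδ.le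
  have hμ1 : (y - j * δ) / δ ≤ 1 := by rw [div_le_one hδ]; linarith
  have hi' : (i : ℝ) * δ ≤ (i + 1) * δ := by nlinarith
  have hj' : (j : ℝ) * δ ≤ (j + 1) * δ := by nlinarith
  have q1 := hd (j * δ) ((i + 1) * δ) (i * δ) le_rfl hj' hi' le_rfl le_rfl hi'
  have q2 := hd ((j + 1) * δ) ((i + 1) * δ) (i * δ) hj' le_rfl hi' le_rfl le_rfl hi'
  have q3 := hd y s t hy1 hy2 hs1 hs2 ht1 ht2
  have hδ' : ((i : ℝ) + 1) * δ - i * δ = δ := by ring
  rw [hδ', abs_of_pos hδ] at q1 q2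
  simp only [key s hs1 hs2, key t ht1 ht2]
  push_cast
  set μ := (y - j * δ) / δ with hμ
  set A := H (i * δ) (j * δ)
  set B := H (i * δ) ((j + 1) * δ)
  set C := H ((i + 1) * δ) (j * δ)
  set D := H ((i + 1) * δ) ((j + 1) * δ)
  have q4 : |(C + μ * (D - C)) - (A + μ * (B - A)) - d * δ| ≤ ω * δ := by
    have : (C + μ * (D - C)) - (A + μ * (B - A)) - d * δ =
        (1 - μ) * (C - A - d * δ) + μ * (D - B - d * δ) := by ring
    rw [this]
    calc |(1 - μ) * (C - A - d * δ) + μ * (D - B - d * δ)|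
        ≤ |(1 - μ) * (C - A - d * δ)| + |μ * (D - B - d * δ)| := abs_add_le _ _
      _ = (1 - μ) * |C - A - d * δ| + μ * |D - B - d * δ| := by
          rw [abs_mul, abs_mul, abs_of_nonneg hμ0, abs_of_nonneg (by linarith : 0 ≤ 1 - μ)]
      _ ≤ (1 - μ) * (ω * δ) + μ * (ω * δ) :=
          add_le_add (mul_le_mul_of_nonneg_left q1 (by linarith)) (mul_le_mul_of_nonneg_left q2 hμ0)
      _ = ω * δ := by ring
  set M := (C + μ * (D - C)) - (A + μ * (B - A)) with hM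
  have q5 : |(s - t) / δ * (M - d * δ)| ≤ ω * |s - t| := by
    rw [abs_mul, abs_div, abs_of_pos hδ]
    calc |s - t| / δ * |M - d * δ| ≤ |s - t| / δ * (ω * δ) :=
          mul_le_mul_of_nonneg_left q4 (div_nonneg (abs_nonneg _) hδ.le)
      _ = ω * |s - t| := by field_simp
  have : H s y - (A + μ * (B - A) + (s - i * δ) / δ * M) -
      (H t y - (A + μ * (B - A) + (t - i * δ) / δ * M)) =
      (H s y - H t y - d * (s - t)) - (s - t) / δ * (M - d * δ) := by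
    field_simp
    ring
  rw [this]
  calc _ ≤ |H s y - H t y - d * (s - t)| + |(s - t) / δ * (M - d * δ)| := abs_sub _ _
    _ ≤ ω * |s - t| + ω * |s - t| := add_le_add q3 q5
    _ = 2 * ω * |s - t| := by ring

private theorem GG_comm (δ : ℝ) (N : ℕ) (H : ℝ → ℝ → ℝ) (s y : ℝ) :
    GG δ N (fun a b => H b a) y s = GG δ N H s y := by
  unfold GG
  simp only [Finset.sum_mul]
  rw [Finset.sum_comm]
  refine Finset.sum_congr rfl fun a _ => Finset.sum_congr rfl fun b _ => ?_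
  ring

private def ee (m : ℕ) (i : ℤ × ℤ) : P → ℝ := fun z => |z.1 - i.1 / 2 ^ m| * |z.2 - i.2 / 2 ^ m|

private theorem hat_mem (m : ℕ) (a b : ℤ) :
    (fun z : P => hat ((2 : ℝ) ^ m)⁻¹ b z.2 * hat ((2 : ℝ) ^ m)⁻¹ a z.1) ∈
      Submodule.span ℝ (Set.range (ee m)) := by
  have hm : (0 : ℝ) < 2 ^ m := by positivity
  have key : (fun z : P => hat ((2 : ℝ) ^ m)⁻¹ b z.2 * hat ((2 : ℝ) ^ m)⁻¹ a z.1) =
      ((2 : ℝ) ^ m / 2) ^ 2 • (ee m (a - 1, b - 1) + ee m (a - 1, b + 1) + ee m (a + 1, b - 1) +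
        ee m (a + 1, b + 1) + (4 : ℝ) • ee m (a, b) + (-2 : ℝ) • (ee m (a - 1, b) + ee m (a + 1, b) +
          ee m (a, b - 1) + ee m (a, b + 1))) := by
    funext z
    simp only [hat, ee, Pi.add_apply, Pi.smul_apply, smul_eq_mul]
    push_cast
    simp only [div_eq_mul_inv]
    field_simp
    ring
  rw [key]
  have h : ∀ i, ee m i ∈ Submodule.span ℝ (Set.range (ee m)) :=
    fun i => Submodule.subset_span ⟨i, rfl⟩
  refine Submodule.smul_mem _ _ ?_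
  refine Submodule.add_mem _ (Submodule.add_mem _ (Submodule.add_mem _ (Submodule.add_mem _
    (Submodule.add_mem _ (h _) (h _)) (h _)) (h _)) (Submodule.smul_mem _ _ (h _)))
    (Submodule.smul_mem _ _ (Submodule.add_mem _ (Submodule.add_mem _ (Submodule.add_mem _ (h _) (h _))
      (h _)) (h _)))

private theorem GG_mem (m N : ℕ) (H : ℝ → ℝ → ℝ) :
    (fun z : P => GG ((2 : ℝ) ^ m)⁻¹ N H z.1 z.2) ∈ Submodule.span ℝ (Set.range (ee m)) := by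
  have key : (fun z : P => GG ((2 : ℝ) ^ m)⁻¹ N H z.1 z.2) =
      ∑ a ∈ Finset.Icc (-(N : ℤ)) N, ∑ b ∈ Finset.Icc (-(N : ℤ)) N,
        H (a * ((2 : ℝ) ^ m)⁻¹) (b * ((2 : ℝ) ^ m)⁻¹) •
          (fun z : P => hat ((2 : ℝ) ^ m)⁻¹ b z.2 * hat ((2 : ℝ) ^ m)⁻¹ a z.1) := by
    funext z
    simp only [GG, Finset.sum_apply, Pi.smul_apply, smul_eq_mul, Finset.sum_mul]
    refine Finset.sum_congr rfl fun a _ => Finset.sum_congr rfl fun b _ => ?_
    ring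
  rw [key]
  exact Submodule.sum_mem _ fun a _ => Submodule.sum_mem _ fun b _ =>
    Submodule.smul_mem _ _ (hat_mem m a b)

private theorem cell_mv {H : P → ℝ} (hH : ContDiff ℝ 1 H) {ω δ : ℝ} {K : ℝ}
    (hω : ∀ p q : P, ‖p‖ ≤ K → ‖q‖ ≤ K → dist p q ≤ δ → ‖fderiv ℝ H p - fderiv ℝ H q‖ ≤ ω)
    {lo hi : P} (hlo : ‖lo‖ ≤ K) (hhi : ‖hi‖ ≤ K) (h1 : hi.1 - lo.1 ≤ δ) (h2 : hi.2 - lo.2 ≤ δ)
    {p q : P} (hp : p ∈ Set.Icc lo hi) (hq : q ∈ Set.Icc lo hi) :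
    |H p - H q - fderiv ℝ H lo (p - q)| ≤ ω * ‖p - q‖ := by
  have hball : ∀ x ∈ Set.Icc lo hi, ‖x‖ ≤ K := by
    intro x hx
    rw [Prod.norm_def] at hlo hhi ⊢
    have a1 := hx.1.1
    have a2 := hx.1.2
    have a3 := hx.2.1
    have a4 := hx.2.2
    simp only [Real.norm_eq_abs] at *
    refine max_le ?_ ?_
    · have b1 := abs_le.1 ((le_max_left _ _).trans hlo)
      have b2 := abs_le.1 ((le_max_left _ _).trans hhi)
      exact abs_le.2 ⟨by linarith, by linarith⟩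
    · have b1 := abs_le.1 ((le_max_right _ _).trans hlo)
      have b2 := abs_le.1 ((le_max_right _ _).trans hhi)
      exact abs_le.2 ⟨by linarith, by linarith⟩
  have hd : ∀ x ∈ Set.Icc lo hi, dist x lo ≤ δ := by
    intro x hx
    have a1 := hx.1.1
    have a2 := hx.1.2
    have a3 := hx.2.1
    have a4 := hx.2.2
    rw [Prod.dist_eq, Real.dist_eq, Real.dist_eq]
    exact max_le (abs_le.2 ⟨by linarith, by linarith⟩) (abs_le.2 ⟨by linarith, by linarith⟩)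
  have := Convex.norm_image_sub_le_of_norm_fderiv_le' (𝕜 := ℝ) (f := H) (C := ω)
    (s := Set.Icc lo hi) (x := q) (y := p) (φ := fderiv ℝ H lo)
    (fun x _ => (hH.differentiable (by norm_num)) x)
    (fun x hx => hω x lo (hball x hx) hlo (hd x hx)) (convex_Icc lo hi) hq hp
  simpa [Real.norm_eq_abs] using this

theorem interp {H : P → ℝ} (hH : ContDiff ℝ 1 H) (K : ℕ) {ε : ℝ} (hε : 0 < ε) :
    ∃ (t : Finset (ℤ × ℤ)) (m : ℕ) (c : ℤ × ℤ → ℝ), ∀ z w : P, ‖z‖ ≤ K → ‖w‖ ≤ K →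
      |(H z - ∑ i ∈ t, c i * (|z.1 - i.1 / 2 ^ m| * |z.2 - i.2 / 2 ^ m|)) -
        (H w - ∑ i ∈ t, c i * (|w.1 - i.1 / 2 ^ m| * |w.2 - i.2 / 2 ^ m|))| ≤ ε * ‖z - w‖ := by
  have hcont : Continuous (fderiv ℝ H) := hH.continuous_fderiv (by norm_num)
  have hcomp : IsCompact (Metric.closedBall (0 : P) K) := isCompact_closedBall 0 _
  have huc := hcomp.uniformContinuousOn_of_continuous hcont.continuousOn
  rw [Metric.uniformContinuousOn_iff_le] at huc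
  obtain ⟨δ₀, hδ₀, huc⟩ := huc (ε / 4) (by positivity)
  obtain ⟨m, hm⟩ := exists_pow_lt_of_lt_one hδ₀ (by norm_num : (2 : ℝ)⁻¹ < 1)
  rw [inv_pow] at hm
  set δ : ℝ := ((2 : ℝ) ^ m)⁻¹ with hδdef
  have hδ : 0 < δ := by positivity
  have hω : ∀ p q : P, ‖p‖ ≤ K → ‖q‖ ≤ K → dist p q ≤ δ → ‖fderiv ℝ H p - fderiv ℝ H q‖ ≤ ε / 4 := by
    intro p q hp hq hd
    rw [← dist_eq_norm]
    exact huc p (by simpa using hp) q (by simpa using hq) (hd.trans hm.le)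
  set N : ℕ := K * 2 ^ m with hNdef
  have hNδ : (N : ℝ) * δ = K := by
    rw [hNdef, hδdef]; push_cast; field_simp
  have hnode : ∀ i : ℤ, -(N : ℤ) ≤ i → i ≤ N → |(i : ℝ) * δ| ≤ K := by
    intro i h1 h2
    have h1' : -(N : ℝ) ≤ i := by exact_mod_cast h1
    have h2' : (i : ℝ) ≤ N := by exact_mod_cast h2
    rw [← hNδ]
    exact abs_le.2 ⟨by nlinarith, by nlinarith⟩
  have hmv : ∀ i j : ℤ, -(N : ℤ) ≤ i → i < N → -(N : ℤ) ≤ j → j < N → ∀ p q : P,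
      p ∈ Set.Icc ((i * δ, j * δ) : P) ((i + 1) * δ, (j + 1) * δ) →
      q ∈ Set.Icc ((i * δ, j * δ) : P) ((i + 1) * δ, (j + 1) * δ) →
      |H p - H q - fderiv ℝ H (i * δ, j * δ) (p - q)| ≤ ε / 4 * ‖p - q‖ := by
    intro i j hi1 hi2 hj1 hj2 p q hp hq
    have a1 := hnode i hi1 hi2.le
    have a2 := hnode (i + 1) (by omega) (by omega)
    have a3 := hnode j hj1 hj2.le
    have a4 := hnode (j + 1) (by omega) (by omega)
    push_cast at a2 a4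
    refine cell_mv hH (K := K) (δ := δ) hω ?_ ?_ ?_ ?_ hp hq
    · rw [Prod.norm_def, Real.norm_eq_abs, Real.norm_eq_abs]; exact max_le a1 a3
    · rw [Prod.norm_def, Real.norm_eq_abs, Real.norm_eq_abs]; exact max_le a2 a4
    · simp only; linarith [show ((i : ℝ) + 1) * δ - i * δ = δ by ring]
    · simp only; linarith [show ((j : ℝ) + 1) * δ - j * δ = δ by ring]
  have h1 : ∀ y s s' : ℝ, |y| ≤ N * δ → |s| ≤ N * δ → |s'| ≤ N * δ →
      |(H (s, y) - GG δ N (fun a b => H (a, b)) s y) - (H (s', y) - GG δ N (fun a b => H (a, b)) s' y)| ≤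
        2 * (ε / 4) * |s - s'| := by
    intro y s s' hy hs hs'
    refine one_var (H := fun a b => H (a, b)) hδ ?_ hy hs hs'
    intro i j hi1 hi2 hj1 hj2
    refine ⟨fderiv ℝ H (i * δ, j * δ) (1, 0), ?_⟩
    intro y s s' hy1 hy2 hs1 hs2 hs1' hs2'
    have := hmv i j hi1 hi2 hj1 hj2 (s, y) (s', y) ⟨⟨hs1, hy1⟩, ⟨hs2, hy2⟩⟩ ⟨⟨hs1', hy1⟩, ⟨hs2', hy2⟩⟩
    have e : ((s, y) : P) - (s', y) = (s - s') • ((1, 0) : P) := by
      ext <;> simp
    rw [e, map_smul, smul_eq_mul, norm_smul] at this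
    have e2 : ‖((1, 0) : P)‖ = 1 := by simp [Prod.norm_def]
    rw [e2, mul_one, Real.norm_eq_abs] at this
    rw [mul_comm (fderiv ℝ H _ _)]
    exact this
  have h2 : ∀ s y y' : ℝ, |s| ≤ N * δ → |y| ≤ N * δ → |y'| ≤ N * δ →
      |(H (s, y) - GG δ N (fun a b => H (a, b)) s y) - (H (s, y') - GG δ N (fun a b => H (a, b)) s y')| ≤
        2 * (ε / 4) * |y - y'| := by
    intro s y y' hs hy hy'
    have := one_var (H := fun a b => H (b, a)) (ω := ε / 4) hδ ?_ hs hy hy'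
    · have g1 := GG_comm δ N (fun a b => H (a, b)) s y
      have g2 := GG_comm δ N (fun a b => H (a, b)) s y'
      rw [← g1, ← g2]
      exact this
    intro i j hi1 hi2 hj1 hj2
    refine ⟨fderiv ℝ H (j * δ, i * δ) (0, 1), ?_⟩
    intro y s s' hy1 hy2 hs1 hs2 hs1' hs2'
    have := hmv j i hj1 hj2 hi1 hi2 (y, s) (y, s') ⟨⟨hy1, hs1⟩, ⟨hy2, hs2⟩⟩ ⟨⟨hy1, hs1'⟩, ⟨hy2, hs2'⟩⟩
    have e : ((y, s) : P) - (y, s') = (s - s') • ((0, 1) : P) := by
      ext <;> simp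
    rw [e, map_smul, smul_eq_mul, norm_smul] at this
    have e2 : ‖((0, 1) : P)‖ = 1 := by simp [Prod.norm_def]
    rw [e2, mul_one, Real.norm_eq_abs] at this
    rw [mul_comm (fderiv ℝ H _ _)]
    exact this
  obtain ⟨c, hc⟩ := (Finsupp.mem_span_range_iff_exists_finsupp).1 (GG_mem m N (fun a b => H (a, b)))
  have hG : ∀ z : P, ∑ i ∈ c.support, c i * (|z.1 - i.1 / 2 ^ m| * |z.2 - i.2 / 2 ^ m|) =
      GG δ N (fun a b => H (a, b)) z.1 z.2 := by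
    intro z
    have := congrFun hc z
    rw [Finsupp.sum, Finset.sum_apply] at this
    rw [← this]
    rfl
  refine ⟨c.support, m, c, ?_⟩
  intro z w hz hw
  rw [hG, hG]
  rw [Prod.norm_def, Real.norm_eq_abs, Real.norm_eq_abs] at hz hw
  have z1 : |z.1| ≤ N * δ := by rw [hNδ]; exact (le_max_left _ _).trans hz
  have z2 : |z.2| ≤ N * δ := by rw [hNδ]; exact (le_max_right _ _).trans hz
  have w1 : |w.1| ≤ N * δ := by rw [hNδ]; exact (le_max_left _ _).trans hw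
  have w2 : |w.2| ≤ N * δ := by rw [hNδ]; exact (le_max_right _ _).trans hw
  have k1 := h1 z.2 z.1 w.1 z2 z1 w1
  have k2 := h2 w.1 z.2 w.2 w1 z2 w2
  have n1 : |z.1 - w.1| ≤ ‖z - w‖ := by
    rw [Prod.norm_def]; exact le_max_left _ _
  have n2 : |z.2 - w.2| ≤ ‖z - w‖ := by
    rw [Prod.norm_def]; exact le_max_right _ _
  set F : P → ℝ := fun p => H p - GG δ N (fun a b => H (a, b)) p.1 p.2 with hF
  have k1' : |F (z.1, z.2) - F (w.1, z.2)| ≤ 2 * (ε / 4) * |z.1 - w.1| := k1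
  have k2' : |F (w.1, z.2) - F (w.1, w.2)| ≤ 2 * (ε / 4) * |z.2 - w.2| := k2
  calc |(H z - GG δ N (fun a b => H (a, b)) z.1 z.2) - (H w - GG δ N (fun a b => H (a, b)) w.1 w.2)|
      = |(F (z.1, z.2) - F (w.1, z.2)) + (F (w.1, z.2) - F (w.1, w.2))| := by
        congr 1; simp only [hF]; ring
    _ ≤ |F (z.1, z.2) - F (w.1, z.2)| + |F (w.1, z.2) - F (w.1, w.2)| := abs_add_le _ _
    _ ≤ 2 * (ε / 4) * |z.1 - w.1| + 2 * (ε / 4) * |z.2 - w.2| := add_le_add k1' k2'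
    _ ≤ 2 * (ε / 4) * ‖z - w‖ + 2 * (ε / 4) * ‖z - w‖ := by gcongr
    _ = ε * ‖z - w‖ := by ring

end Pool.Agent.LR
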