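import Pool.Agent.LR.B2b.GammaRep

/-! # LR-B2b-2: the kernel `((s_i+s_j)² + (t_i-t_j)²)^(-a/2)` is positive semidefinite

PLAN (uses `gamma_rep`).  Put `σ = a/2 > 0`, `z i = s i - I * t i` (so `0 < (z i).re` on `L`).
1. `psd_one`: for complex `c`: `0 ≤ (∑ i ∈ L, ∑ j ∈ L, c i * conj (c j) * (z i + conj (z j))^(-σ)).re`.
   Proof: by `gamma_rep`, `Γ(σ) * (sum) = ∫_{p>0} p^(σ-1) * |∑ i c i exp(-p z i)|^2 dp`, because
   `exp(-(p (z i + conj (z j)))) = exp(-p z i) * conj (exp(-p z j))`.  (Interchange the finite sums with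
   the integral: `integral_finsetSum`, integrable by `gamma_rep`.)
2. For real `c`: `((s i+s j)²+(t i-t j)²)^(-a/2) = ‖w‖^(-2σ) = w^(-σ) * (conj w)^(-σ)`, `w = z i + conj (z j)`
   (`0 < w.re`, so `(conj w)^(-σ) = conj (w^(-σ))` by `Complex.cpow_conj` with `w.arg ≠ π`, and
   `‖w^(-σ)‖ = ‖w‖^(-σ)`).
3. `Γ(σ) * (conj w)^(-σ) = ∫_{q>0} q^(σ-1) exp(-q conj w) dq` and `exp(-q (conj (z i) + z j)) = e_i * conj(e_j)` with
   `e_i = exp(-q conj (z i))`.  So `Γ(σ) * (double sum) = ∫_{q>0} q^(σ-1) (∑∑ (c i e_i) conj (c j e_j) w_ij^(-σ)) dq`,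
   whose real part is `≥ 0` by 1 for every `q`. -/

set_option autoImplicit false

noncomputable section

open scoped BigOperators Topology
open MeasureTheory Filter Set

namespace Pool.Agent.LR

private lemma normSq_expand {ι : Type*} (L : Finset ι) (b : ι → ℂ) :
    ((Complex.normSq (∑ i ∈ L, b i) : ℝ) : ℂ) =
      ∑ i ∈ L, ∑ j ∈ L, b i * (starRingEnd ℂ) (b j) := by
  rw [← Complex.mul_conj, map_sum, Finset.sum_mul_sum]

theorem psd_one {ι : Type*} (L : Finset ι) {σ : ℝ} (hσ : 0 < σ) (z : ι → ℂ)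
    (hz : ∀ i ∈ L, 0 < (z i).re) (c : ι → ℂ) :
    0 ≤ (∑ i ∈ L, ∑ j ∈ L, c i * (starRingEnd ℂ) (c j) *
      (z i + (starRingEnd ℂ) (z j)) ^ (-(σ : ℂ))).re := by
  have hre : ∀ i ∈ L, ∀ j ∈ L, 0 < (z i + (starRingEnd ℂ) (z j)).re := by
    intro i hi j hj
    have h1 := hz i hi
    have h2 := hz j hj
    simp only [Complex.add_re, Complex.conj_re]
    linarith
  have hG : 0 < Real.Gamma σ := Real.Gamma_pos_of_pos hσ
  -- key identity
  have key : (Real.Gamma σ : ℂ) * (∑ i ∈ L, ∑ j ∈ L, c i * (starRingEnd ℂ) (c j) *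
      (z i + (starRingEnd ℂ) (z j)) ^ (-(σ : ℂ))) =
      ((∫ p in Ioi (0 : ℝ), p ^ (σ - 1) *
        Complex.normSq (∑ i ∈ L, c i * Complex.exp (-((p : ℂ) * z i))) : ℝ) : ℂ) := by
    rw [← integral_complex_ofReal]
    have hpt : ∀ p : ℝ, ((p ^ (σ - 1) *
        Complex.normSq (∑ i ∈ L, c i * Complex.exp (-((p : ℂ) * z i))) : ℝ) : ℂ) =
        ∑ i ∈ L, ∑ j ∈ L, (c i * (starRingEnd ℂ) (c j)) *
          (((p ^ (σ - 1) : ℝ) : ℂ) *
            Complex.exp (-((p : ℂ) * (z i + (starRingEnd ℂ) (z j))))) := by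
      intro p
      rw [Complex.ofReal_mul, normSq_expand, Finset.mul_sum]
      refine Finset.sum_congr rfl fun i _ => ?_
      rw [Finset.mul_sum]
      refine Finset.sum_congr rfl fun j _ => ?_
      have he : Complex.exp (-((p : ℂ) * (z i + (starRingEnd ℂ) (z j)))) =
          Complex.exp (-((p : ℂ) * z i)) *
            (starRingEnd ℂ) (Complex.exp (-((p : ℂ) * z j))) := by
        rw [← Complex.exp_conj, ← Complex.exp_add]
        congr 1
        simp only [map_neg, map_mul, Complex.conj_ofReal]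
        ring
      rw [he, map_mul]
      ring
    simp_rw [hpt]
    rw [integral_finsetSum]
    · rw [Finset.mul_sum]
      refine Finset.sum_congr rfl fun i hi => ?_
      rw [integral_finsetSum]
      · rw [Finset.mul_sum]
        refine Finset.sum_congr rfl fun j hj => ?_
        rw [integral_const_mul, (gamma_rep hσ (hre i hi j hj)).2]
        ring
      · intro j hj
        exact (gamma_rep hσ (hre i hi j hj)).1.const_mul _
    · intro i hi
      refine integrable_finsetSum _ fun j hj => ?_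
      exact (gamma_rep hσ (hre i hi j hj)).1.const_mul _
  have hnn : 0 ≤ ∫ p in Ioi (0 : ℝ), p ^ (σ - 1) *
        Complex.normSq (∑ i ∈ L, c i * Complex.exp (-((p : ℂ) * z i))) := by
    refine setIntegral_nonneg measurableSet_Ioi fun p hp => ?_
    exact mul_nonneg (Real.rpow_nonneg (le_of_lt hp) _) (Complex.normSq_nonneg _)
  have hk := congrArg Complex.re key
  rw [Complex.re_ofReal_mul, Complex.ofReal_re] at hk
  rw [← hk] at hnn
  exact nonneg_of_mul_nonneg_right hnn hG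

private lemma ker_split {σ : ℝ} {w : ℂ} (hw : 0 < w.re) :
    (((w.re ^ 2 + w.im ^ 2) ^ (-σ) : ℝ) : ℂ) =
      w ^ (-(σ : ℂ)) * ((starRingEnd ℂ) w) ^ (-(σ : ℂ)) := by
  have harg : w.arg ≠ Real.pi := by
    have := Complex.abs_arg_lt_pi_div_two_iff.mpr (Or.inl hw)
    intro h
    rw [h, abs_of_pos Real.pi_pos] at this
    linarith [Real.pi_pos]
  have hc : ((starRingEnd ℂ) w) ^ (-(σ : ℂ)) = (starRingEnd ℂ) (w ^ (-(σ : ℂ))) := by
    rw [Complex.conj_cpow _ _ harg]
    simp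
  rw [hc, Complex.mul_conj]
  congr 1
  rw [Complex.normSq_eq_norm_sq]
  have h2 : ‖w ^ (-(σ : ℂ))‖ = ‖w‖ ^ (-σ) := by
    have := Complex.norm_cpow_real w (-σ)
    push_cast at this
    exact this
  rw [h2]
  have h3 : w.re ^ 2 + w.im ^ 2 = ‖w‖ ^ 2 := by
    rw [← Complex.normSq_eq_norm_sq, Complex.normSq_apply]; ring
  rw [h3, ← Real.rpow_natCast, ← Real.rpow_natCast, ← Real.rpow_mul (norm_nonneg _),
    ← Real.rpow_mul (norm_nonneg _)]
  congr 1
  push_cast
  ring

theorem psd_ker {ι : Type*} (L : Finset ι) {a : ℝ} (ha : 0 < a) (s t : ι → ℝ)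
    (hs : ∀ i ∈ L, 0 < s i) (c : ι → ℝ) :
    0 ≤ ∑ i ∈ L, ∑ j ∈ L, c i * c j * ((s i + s j) ^ 2 + (t i - t j) ^ 2) ^ (-(a / 2)) := by
  set σ : ℝ := a / 2 with hσdef
  have hσ : 0 < σ := by positivity
  set z : ι → ℂ := fun i => (s i : ℂ) - Complex.I * (t i : ℂ) with hz
  have hzre : ∀ i, (z i).re = s i := by intro i; simp [hz]
  have hzim : ∀ i, (z i).im = -(t i) := by intro i; simp [hz]
  have hzpos : ∀ i ∈ L, 0 < (z i).re := by intro i hi; rw [hzre]; exact hs i hi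
  have hre : ∀ i ∈ L, ∀ j ∈ L, 0 < (z i + (starRingEnd ℂ) (z j)).re := by
    intro i hi j hj
    have h1 := hzpos i hi
    have h2 := hzpos j hj
    simp only [Complex.add_re, Complex.conj_re]
    linarith
  have hrec : ∀ i ∈ L, ∀ j ∈ L, 0 < ((starRingEnd ℂ) (z i + (starRingEnd ℂ) (z j))).re := by
    intro i hi j hj
    rw [Complex.conj_re]
    exact hre i hi j hj
  have hG : 0 < Real.Gamma σ := Real.Gamma_pos_of_pos hσ
  -- integrand
  set Φ : ℝ → ℂ := fun q => ∑ i ∈ L, ∑ j ∈ L,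
      ((c i : ℂ) * (c j : ℂ) * (z i + (starRingEnd ℂ) (z j)) ^ (-(σ : ℂ))) *
        (((q ^ (σ - 1) : ℝ) : ℂ) *
          Complex.exp (-((q : ℂ) * (starRingEnd ℂ) (z i + (starRingEnd ℂ) (z j))))) with hΦ
  have hint : IntegrableOn Φ (Ioi 0) := by
    refine integrable_finsetSum _ fun i hi => integrable_finsetSum _ fun j hj => ?_
    exact (gamma_rep hσ (hrec i hi j hj)).1.const_mul _
  have key : ((Real.Gamma σ * ∑ i ∈ L, ∑ j ∈ L, c i * c j *
      ((s i + s j) ^ 2 + (t i - t j) ^ 2) ^ (-σ) : ℝ) : ℂ) = ∫ q in Ioi (0 : ℝ), Φ q := by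
    rw [hΦ, integral_finsetSum]
    · push_cast
      rw [Finset.mul_sum]
      refine Finset.sum_congr rfl fun i hi => ?_
      rw [integral_finsetSum]
      · rw [Finset.mul_sum]
        refine Finset.sum_congr rfl fun j hj => ?_
        rw [integral_const_mul, (gamma_rep hσ (hrec i hi j hj)).2]
        have hs1 := ker_split (σ := σ) (hre i hi j hj)
        have e1 : (z i + (starRingEnd ℂ) (z j)).re = s i + s j := by
          rw [Complex.add_re, Complex.conj_re, hzre, hzre]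
        have e2 : (z i + (starRingEnd ℂ) (z j)).im = -(t i - t j) := by
          rw [Complex.add_im, Complex.conj_im, hzim, hzim]; ring
        rw [e1, e2, neg_sq] at hs1
        have hs2 : (((((s i + s j) ^ 2 + (t i - t j) ^ 2) ^ (-σ) : ℝ)) : ℂ) =
          (z i + (starRingEnd ℂ) (z j)) ^ (-(σ : ℂ)) *
            ((starRingEnd ℂ) (z i + (starRingEnd ℂ) (z j))) ^ (-(σ : ℂ)) := hs1
        have hs3 : (Real.Gamma σ : ℂ) * ((c i : ℂ) * (c j : ℂ) *
            ((((s i + s j) ^ 2 + (t i - t j) ^ 2) ^ (-σ) : ℝ) : ℂ)) =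
            (c i : ℂ) * (c j : ℂ) * (z i + (starRingEnd ℂ) (z j)) ^ (-(σ : ℂ)) *
            ((Real.Gamma σ : ℂ) *
              ((starRingEnd ℂ) (z i + (starRingEnd ℂ) (z j))) ^ (-(σ : ℂ))) := by
          rw [hs2]; ring
        exact hs3
      · intro j hj
        exact (gamma_rep hσ (hrec i hi j hj)).1.const_mul _
    · intro i hi
      refine integrable_finsetSum _ fun j hj => ?_
      exact (gamma_rep hσ (hrec i hi j hj)).1.const_mul _
  have hΦnn : ∀ q ∈ Ioi (0 : ℝ), 0 ≤ (Φ q).re := by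
    intro q hq
    have hq0 : (0 : ℝ) ≤ q ^ (σ - 1) := Real.rpow_nonneg (le_of_lt hq) _
    have h1 := psd_one L hσ z hzpos
      (fun i => (c i : ℂ) * Complex.exp (-((q : ℂ) * (starRingEnd ℂ) (z i))))
    have h2 : Φ q = ((q ^ (σ - 1) : ℝ) : ℂ) * (∑ i ∈ L, ∑ j ∈ L,
        ((c i : ℂ) * Complex.exp (-((q : ℂ) * (starRingEnd ℂ) (z i)))) *
        (starRingEnd ℂ) ((c j : ℂ) * Complex.exp (-((q : ℂ) * (starRingEnd ℂ) (z j)))) *
        (z i + (starRingEnd ℂ) (z j)) ^ (-(σ : ℂ))) := by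
      rw [hΦ, Finset.mul_sum]
      refine Finset.sum_congr rfl fun i _ => ?_
      rw [Finset.mul_sum]
      refine Finset.sum_congr rfl fun j _ => ?_
      have he : Complex.exp (-((q : ℂ) * (starRingEnd ℂ) (z i + (starRingEnd ℂ) (z j)))) =
          Complex.exp (-((q : ℂ) * (starRingEnd ℂ) (z i))) *
            (starRingEnd ℂ) (Complex.exp (-((q : ℂ) * (starRingEnd ℂ) (z j)))) := by
        rw [← Complex.exp_conj, ← Complex.exp_add]
        congr 1
        simp only [map_neg, map_mul, map_add, Complex.conj_ofReal, Complex.conj_conj]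
        ring
      rw [he, map_mul, Complex.conj_ofReal]
      ring
    rw [h2, Complex.re_ofReal_mul]
    exact mul_nonneg hq0 h1
  have hnn : 0 ≤ (∫ q in Ioi (0 : ℝ), Φ q).re := by
    have h3 : (∫ q in Ioi (0 : ℝ), Φ q).re = ∫ q in Ioi (0 : ℝ), (Φ q).re := by
      have := integral_re (𝕜 := ℂ) hint
      exact this.symm
    rw [h3]
    exact setIntegral_nonneg measurableSet_Ioi hΦnn
  rw [← key, Complex.ofReal_re] at hnn
  exact nonneg_of_mul_nonneg_right hnn hG

end Pool.Agent.LR
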