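import Pool.Agent.LR.B2b.PsdKer

/-! # LR-B2b-3: reflected couplings are positive semidefinite on one side of a mirror

PLAN (uses `psd_ker`).  Vertical mirror: `x - (2m - y.1, y.2) = (x.1 + y.1 - 2m, x.2 - y.2) ≠ 0` because the first
coordinate is negative; `len = sqrt((s_x+s_y)²+(t_x-t_y)²)` with `s_x = m - x.1 > 0`, `t_x = x.2`, so
`Jc = 4β (.)^(-α/2)` (`Real.sqrt_eq_rpow`, `Real.rpow_mul`).  Diagonal mirror: `x - (y.2+m, y.1-m)
 = (x.1-y.2-m, x.2-y.1+m)`; with `s_x = (m - (x.1-x.2))/√2 > 0`, `t_x = (x.1+x.2)/√2` the squared length is again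
`(s_x+s_y)² + (t_x-t_y)²` (and it is `≠ 0` because the difference of the coordinates is `< 0`). -/

set_option autoImplicit false

noncomputable section

open scoped BigOperators Topology
open MeasureTheory Filter Set

namespace Pool.Agent.LR

/-- Reflection in the vertical line `x₁ = m`. -/
def mirV (m : ℤ) (x : V) : V := (2 * m - x.1, x.2)

/-- Reflection in the diagonal `x₁ - x₂ = m`. -/
def mirD (m : ℤ) (x : V) : V := (x.2 + m, x.1 - m)

private theorem sqrt_rpow_neg {A : ℝ} (hA : 0 ≤ A) (α : ℝ) :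
    Real.sqrt A ^ (-α) = A ^ (-(α / 2)) := by
  rw [Real.sqrt_eq_rpow, ← Real.rpow_mul hA]
  congr 1
  ring

private theorem psd_aux {α β : ℝ} (hα : 0 < α) (hβ : 0 ≤ β) (L : Finset V) (s t : V → ℝ)
    (hs : ∀ x ∈ L, 0 < s x) (K : V → V → ℝ)
    (hK : ∀ x ∈ L, ∀ y ∈ L, K x y = 4 * β * ((s x + s y) ^ 2 + (t x - t y) ^ 2) ^ (-(α / 2)))
    (c : V → ℝ) : 0 ≤ ∑ x ∈ L, ∑ y ∈ L, c x * c y * K x y := by
  have h := psd_ker L hα s t hs c
  have e : ∑ x ∈ L, ∑ y ∈ L, c x * c y * K x y =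
      4 * β * ∑ x ∈ L, ∑ y ∈ L, c x * c y * ((s x + s y) ^ 2 + (t x - t y) ^ 2) ^ (-(α / 2)) := by
    rw [Finset.mul_sum]
    refine Finset.sum_congr rfl fun x hx => ?_
    rw [Finset.mul_sum]
    refine Finset.sum_congr rfl fun y hy => ?_
    rw [hK x hx y hy]
    ring
  rw [e]
  positivity

theorem psd_vert {α β : ℝ} (hα : 0 < α) (hβ : 0 ≤ β) (m : ℤ) (L : Finset V) (hL : ∀ x ∈ L, x.1 < m)
    (c : V → ℝ) : 0 ≤ ∑ x ∈ L, ∑ y ∈ L, c x * c y * JJ α β x (mirV m y) := by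
  refine psd_aux hα hβ L (fun x => (m : ℝ) - x.1) (fun x => (x.2 : ℝ)) ?_ _ ?_ c
  · intro x hx
    have : ((x.1 : ℤ) : ℝ) < m := by exact_mod_cast hL x hx
    simpa using this
  · intro x hx y hy
    have h1 := hL x hx
    have h2 := hL y hy
    have hne : x - mirV m y ≠ 0 := by
      intro h0
      have := congrArg Prod.fst h0
      simp only [mirV, Prod.fst_sub, Prod.fst_zero] at this
      omega
    unfold JJ Jc
    rw [if_neg hne]
    unfold len
    rw [sqrt_rpow_neg (by positivity)]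
    congr 2
    simp only [mirV, Prod.fst_sub, Prod.snd_sub]
    push_cast
    ring

theorem psd_diag {α β : ℝ} (hα : 0 < α) (hβ : 0 ≤ β) (m : ℤ) (L : Finset V)
    (hL : ∀ x ∈ L, x.1 - x.2 < m) (c : V → ℝ) :
    0 ≤ ∑ x ∈ L, ∑ y ∈ L, c x * c y * JJ α β x (mirD m y) := by
  have h2 : (Real.sqrt 2) ^ 2 = 2 := Real.sq_sqrt (by norm_num)
  have h2p : (0 : ℝ) < Real.sqrt 2 := Real.sqrt_pos.2 (by norm_num)
  refine psd_aux hα hβ L (fun x => ((m : ℝ) - (x.1 - x.2)) / Real.sqrt 2)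
    (fun x => ((x.1 : ℝ) + x.2) / Real.sqrt 2) ?_ _ ?_ c
  · intro x hx
    have : (((x.1 : ℤ) : ℝ) - x.2) < m := by exact_mod_cast hL x hx
    have h3 : (0 : ℝ) < (m : ℝ) - (x.1 - x.2) := by linarith
    positivity
  · intro x hx y hy
    have h3 := hL x hx
    have h4 := hL y hy
    have hne : x - mirD m y ≠ 0 := by
      intro h0
      have h5 := congrArg Prod.fst h0
      have h6 := congrArg Prod.snd h0
      simp only [mirD, Prod.fst_sub, Prod.fst_zero, Prod.snd_sub, Prod.snd_zero] at h5 h6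
      omega
    unfold JJ Jc
    rw [if_neg hne]
    unfold len
    rw [sqrt_rpow_neg (by positivity)]
    congr 2
    simp only [mirD, Prod.fst_sub, Prod.snd_sub]
    rw [← add_div, ← sub_div, div_pow, div_pow, h2]
    push_cast
    ring

end Pool.Agent.LR
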