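import Pool.Agent.LR.Defs

/-! # Reflection data (definitions of block B2b) -/

set_option autoImplicit false

noncomputable section

open scoped BigOperators Topology
open MeasureTheory Filter Set

namespace Pool.Agent.LR

variable {W : Type*} [DecidableEq W]

/-- Reflection data: `θ` involution of the sites, `C` = mirror sites, `L` = left sites. -/
structure RPD (J : W → W → ℝ) (θ : W → W) (L C : Finset W) : Prop where
  inv : ∀ x, θ (θ x) = x
  fix : ∀ x ∈ C, θ x = x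
  dLC : Disjoint L C
  dLR : ∀ x ∈ L, θ x ∉ L
  sym : ∀ x y, J x y = J y x
  isym : ∀ x y, J (θ x) (θ y) = J x y
  psd : ∀ c : W → ℝ, 0 ≤ ∑ x ∈ L, ∑ y ∈ L, c x * c y * J x (θ y)

/-- All sites: left, mirror, right. -/
def hul (θ : W → W) (L C : Finset W) : Finset W := L ∪ C ∪ L.image θ

/-- Left fold: keep `h` on the left and on the mirror, copy it to the right. -/
def fdL (θ : W → W) (L : Finset W) (h : W → ℝ) : W → ℝ :=
  fun x => if x ∈ L.image θ then h (θ x) else h x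

/-- Right fold. -/
def fdR (θ : W → W) (L : Finset W) (h : W → ℝ) : W → ℝ :=
  fun x => if x ∈ L then h (θ x) else h x

/-- One sided energy. -/
def eA (J : W → W → ℝ) (θ : W → W) (L C : Finset W) (u : W → ℝ) : ℝ :=
  1 / 2 * ∑ x ∈ L, ∑ y ∈ L, J x y * (u x - u y) ^ 2 + ∑ x ∈ L, ∑ y ∈ C, J x y * (u x - u y) ^ 2
    + ∑ x ∈ L, (∑ y ∈ L, J x (θ y)) * u x ^ 2

/-- Mirror energy. -/
def eB (J : W → W → ℝ) (C : Finset W) (u : W → ℝ) : ℝ :=
  1 / 2 * ∑ x ∈ C, ∑ y ∈ C, J x y * (u x - u y) ^ 2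

/-- Interaction through the mirror. -/
def eK (J : W → W → ℝ) (θ : W → W) (L : Finset W) (u v : W → ℝ) : ℝ :=
  ∑ x ∈ L, ∑ y ∈ L, J x (θ y) * u x * v y

/-- One sided weight. -/
def wtA (J : W → W → ℝ) (θ : W → W) (L C : Finset W) (x₀ : W) (c : ↥(C.erase x₀) → ℤ)
    (l : ↥L → ℤ) (h : W → ℝ) : ℝ :=
  Real.exp (-(1 / 2) * eA J θ L C (emb (C.erase x₀) c + emb L l - h))

/-- Mirror weight. -/
def wtB (J : W → W → ℝ) (C : Finset W) (x₀ : W) (c : ↥(C.erase x₀) → ℤ) (h : W → ℝ) : ℝ :=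
  Real.exp (-(1 / 2) * eB J C (emb (C.erase x₀) c - h))

/-- The interaction weight `exp K(l - h, r - h')`. -/
def wtK (J : W → W → ℝ) (θ : W → W) (L : Finset W) (l r : ↥L → ℤ) (h h' : W → ℝ) : ℝ :=
  Real.exp (eK J θ L (emb L l - h) (emb L r - h'))

end Pool.Agent.LR
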