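import Pool.Agent.LR.B2b.RPSplit

/-! # LR-B2b-6: fields on the hull = (mirror, left, right) and the product formula for the weights

PLAN. `O = (hul θ L C).erase x₀`, `C' = C.erase x₀`, `x₀ ∈ C`. The map `(c, l, r) ↦ ψ`, `ψ x = c x` (`x ∈ C'`), `l x` (`x ∈ L`),
`r (θ x)` (`x ∈ θL`) is a bijection (the three sets are disjoint with union `O`).  A convenient way: prove
`glue_exists`: for `c l r` there is a UNIQUE `ψ : O → ℤ` with `emb O ψ = emb C' c + emb L l + (emb L r) ∘ θ` and every `ψ` is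
obtained from a unique `(c, l, r)`; then `Equiv.ofBijective`.
Weights (`wt_glue`): with `φ = emb O ψ - h`: on `L` `φ = emb C' c + emb L l - h`, on `C` the same (`emb L l = 0`, `emb L r (θ x) = emb L r x = 0`
there), so by `eA_congr` `eA φ = eA (emb C' c + emb L l - h)`; `φ ∘ θ` on `L` is `emb L r - h ∘ θ`, on `C` it is `emb C' c - h ∘ θ`
(`θ x = x`), so `eA (φ ∘ θ) = eA (emb C' c + emb L r - h ∘ θ)`; `eB φ = eB (emb C' c - h)`, `eK φ (φ∘θ) = eK (emb L l - h) (emb L r - h∘θ)`.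
Use `Qfr_split`, `Real.exp_add`. -/

set_option autoImplicit false

noncomputable section

open scoped BigOperators Topology
open MeasureTheory Filter Set

namespace Pool.Agent.LR

variable {W : Type*} [DecidableEq W]

private theorem gl_C {J : W → W → ℝ} {θ : W → W} {L C : Finset W} (hr : RPD J θ L C) {x : W}
    (h : x ∈ C) : x ∉ L ∧ θ x ∉ L :=
  ⟨fun h' => Finset.disjoint_left.1 hr.dLC h' h,
    fun h' => Finset.disjoint_left.1 hr.dLC (hr.fix x h ▸ h') h⟩

private theorem gl_L {J : W → W → ℝ} {θ : W → W} {L C : Finset W} (hr : RPD J θ L C) {x : W}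
    (h : x ∈ L) : x ∉ C ∧ θ x ∉ C ∧ θ x ∉ L := by
  refine ⟨fun h' => (gl_C hr h').1 h, fun h' => ?_, hr.dLR x h⟩
  have h1 := hr.fix _ h'
  rw [hr.inv] at h1
  exact (gl_C hr (h1 ▸ h')).1 h

private theorem gl_mem {J : W → W → ℝ} {θ : W → W} {L C : Finset W} (hr : RPD J θ L C) {x₀ : W}
    (hx : x₀ ∈ C) (x : W) :
    x ∈ (hul θ L C).erase x₀ ↔ x ∈ C.erase x₀ ∨ x ∈ L ∨ θ x ∈ L := by
  simp only [hul, Finset.mem_erase, Finset.mem_union, Finset.mem_image]
  constructor
  · rintro ⟨h0, (h1 | h1) | ⟨a, ha, rfl⟩⟩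
    · exact Or.inr (Or.inl h1)
    · exact Or.inl ⟨h0, h1⟩
    · right; right; rwa [hr.inv]
  · rintro (⟨h0, h1⟩ | h1 | h1)
    · exact ⟨h0, Or.inl (Or.inr h1)⟩
    · exact ⟨fun h => (gl_L hr h1).1 (h ▸ hx), Or.inl (Or.inl h1)⟩
    · exact ⟨fun h => (gl_C hr hx).2 (h ▸ h1), Or.inr ⟨θ x, h1, hr.inv x⟩⟩

theorem exists_glue {J : W → W → ℝ} {θ : W → W} {L C : Finset W} (hr : RPD J θ L C) {x₀ : W}
    (hx : x₀ ∈ C) :
    ∃ e : (↥(C.erase x₀) → ℤ) × (↥L → ℤ) × (↥L → ℤ) ≃ (↥((hul θ L C).erase x₀) → ℤ),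
      ∀ c l r, emb ((hul θ L C).erase x₀) (e (c, l, r)) =
        emb (C.erase x₀) c + emb L l + (emb L r) ∘ θ := by
  let e : (↥(C.erase x₀) → ℤ) × (↥L → ℤ) × (↥L → ℤ) ≃ (↥((hul θ L C).erase x₀) → ℤ) :=
    { toFun := fun p x =>
        if hC : x.1 ∈ C.erase x₀ then p.1 ⟨x.1, hC⟩
        else if hL : x.1 ∈ L then p.2.1 ⟨x.1, hL⟩
        else if hR : θ x.1 ∈ L then p.2.2 ⟨θ x.1, hR⟩ else 0
      invFun := fun ψ =>
        (fun x => ψ ⟨x.1, (gl_mem hr hx _).2 (Or.inl x.2)⟩,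
          fun x => ψ ⟨x.1, (gl_mem hr hx _).2 (Or.inr (Or.inl x.2))⟩,
          fun x => ψ ⟨θ x.1, (gl_mem hr hx _).2 (Or.inr (Or.inr (by rw [hr.inv]; exact x.2)))⟩)
      left_inv := by
        rintro ⟨c, l, r⟩
        refine Prod.ext ?_ (Prod.ext ?_ ?_)
        · funext x
          simp only [x.2, dif_pos]
        · funext x
          have h1 : x.1 ∉ C.erase x₀ := fun h => (gl_L hr x.2).1 (Finset.mem_of_mem_erase h)
          simp only [h1, x.2, dif_pos, dif_neg, not_false_eq_true]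
        · funext x
          have h1 : θ x.1 ∉ C.erase x₀ := fun h => (gl_L hr x.2).2.1 (Finset.mem_of_mem_erase h)
          have h2 : θ x.1 ∉ L := (gl_L hr x.2).2.2
          have h3 : θ (θ x.1) ∈ L := by rw [hr.inv]; exact x.2
          simp only [h1, h2, h3, dif_pos, dif_neg, not_false_eq_true]
          congr 1
          exact Subtype.ext (hr.inv x.1)
      right_inv := by
        intro ψ
        funext x
        by_cases hC : x.1 ∈ C.erase x₀
        · simp only [hC, dif_pos]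
        · by_cases hL : x.1 ∈ L
          · simp only [hC, hL, dif_pos, dif_neg, not_false_eq_true]
          · have hR : θ x.1 ∈ L := by
              rcases (gl_mem hr hx x.1).1 x.2 with h | h | h
              · exact absurd h hC
              · exact absurd h hL
              · exact h
            simp only [hC, hL, hR, dif_pos, dif_neg, not_false_eq_true]
            congr 1
            exact Subtype.ext (hr.inv x.1) }
  refine ⟨e, fun c l r => ?_⟩
  funext x
  simp only [Pi.add_apply, Function.comp_apply]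
  by_cases hC : x ∈ C.erase x₀
  · have hO := (gl_mem hr hx x).2 (Or.inl hC)
    have h1 := gl_C hr (Finset.mem_of_mem_erase hC)
    have h2 : emb ((hul θ L C).erase x₀) (e (c, l, r)) x = c ⟨x, hC⟩ := by
      rw [emb, dif_pos hO]
      change ((if hC : x ∈ C.erase x₀ then c ⟨x, hC⟩
        else if hL : x ∈ L then l ⟨x, hL⟩
        else if hR : θ x ∈ L then r ⟨θ x, hR⟩ else 0 : ℤ) : ℝ) = _
      rw [dif_pos hC]
    rw [h2, emb, emb, emb, dif_pos hC, dif_neg h1.1, dif_neg h1.2]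
    ring
  · by_cases hL : x ∈ L
    · have hO := (gl_mem hr hx x).2 (Or.inr (Or.inl hL))
      have h2 : emb ((hul θ L C).erase x₀) (e (c, l, r)) x = l ⟨x, hL⟩ := by
        rw [emb, dif_pos hO]
        change ((if hC : x ∈ C.erase x₀ then c ⟨x, hC⟩
          else if hL : x ∈ L then l ⟨x, hL⟩
          else if hR : θ x ∈ L then r ⟨θ x, hR⟩ else 0 : ℤ) : ℝ) = _
        rw [dif_neg hC, dif_pos hL]
      rw [h2, emb, emb, emb, dif_neg hC, dif_pos hL, dif_neg (gl_L hr hL).2.2]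
      ring
    · by_cases hR : θ x ∈ L
      · have hO := (gl_mem hr hx x).2 (Or.inr (Or.inr hR))
        have h2 : emb ((hul θ L C).erase x₀) (e (c, l, r)) x = r ⟨θ x, hR⟩ := by
          rw [emb, dif_pos hO]
          change ((if hC : x ∈ C.erase x₀ then c ⟨x, hC⟩
            else if hL : x ∈ L then l ⟨x, hL⟩
            else if hR : θ x ∈ L then r ⟨θ x, hR⟩ else 0 : ℤ) : ℝ) = _
          rw [dif_neg hC, dif_neg hL, dif_pos hR]
        rw [h2, emb, emb, emb, dif_neg hC, dif_neg hL, dif_pos hR]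
        ring
      · have hO : x ∉ (hul θ L C).erase x₀ := fun h => by
          rcases (gl_mem hr hx x).1 h with h | h | h
          · exact hC h
          · exact hL h
          · exact hR h
        rw [emb, emb, emb, emb, dif_neg hO, dif_neg hC, dif_neg hL, dif_neg hR]
        ring

/-- The product formula. -/
theorem wt_glue {J : W → W → ℝ} {θ : W → W} {L C : Finset W} (hr : RPD J θ L C) {x₀ : W}
    (hx : x₀ ∈ C) (h : W → ℝ) (c : ↥(C.erase x₀) → ℤ) (l r : ↥L → ℤ)
    (ψ : ↥((hul θ L C).erase x₀) → ℤ)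
    (hψ : emb ((hul θ L C).erase x₀) ψ = emb (C.erase x₀) c + emb L l + (emb L r) ∘ θ) :
    wt (Qfr J (hul θ L C)) ((hul θ L C).erase x₀) h ψ =
      wtB J C x₀ c h * (wtA J θ L C x₀ c l h * wtA J θ L C x₀ c r (h ∘ θ) *
        wtK J θ L l r h (h ∘ θ)) := by
  have zC : ∀ (c : ↥(C.erase x₀) → ℤ) (y : W), y ∉ C → emb (C.erase x₀) c y = 0 := fun c y hy => by
    rw [emb, dif_neg (fun h => hy (Finset.mem_of_mem_erase h))]
  have zL : ∀ (l : ↥L → ℤ) (y : W), y ∉ L → emb L l y = 0 := fun l y hy => by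
    rw [emb, dif_neg hy]
  have e1 : eA J θ L C (emb ((hul θ L C).erase x₀) ψ - h) =
      eA J θ L C (emb (C.erase x₀) c + emb L l - h) := by
    refine eA_congr J θ L C _ _ fun x hxx => ?_
    rw [hψ]
    simp only [Pi.sub_apply, Pi.add_apply, Function.comp_apply]
    rcases hxx with h1 | h1
    · rw [zL r (θ x) (gl_L hr h1).2.2]; ring
    · rw [zL r (θ x) (gl_C hr h1).2]; ring
  have e2 : eA J θ L C ((emb ((hul θ L C).erase x₀) ψ - h) ∘ θ) =
      eA J θ L C (emb (C.erase x₀) c + emb L r - h ∘ θ) := by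
    refine eA_congr J θ L C _ _ fun x hxx => ?_
    rw [hψ]
    simp only [Pi.sub_apply, Pi.add_apply, Function.comp_apply, hr.inv]
    rcases hxx with h1 | h1
    · rw [zL l (θ x) (gl_L hr h1).2.2, zC c (θ x) (gl_L hr h1).2.1, zC c x (gl_L hr h1).1]; ring
    · rw [zL l (θ x) (gl_C hr h1).2, hr.fix x h1]; ring
  have e3 : eB J C (emb ((hul θ L C).erase x₀) ψ - h) = eB J C (emb (C.erase x₀) c - h) := by
    refine eB_congr J C _ _ fun x h1 => ?_
    rw [hψ]
    simp only [Pi.sub_apply, Pi.add_apply, Function.comp_apply]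
    rw [zL r (θ x) (gl_C hr h1).2, zL l x (gl_C hr h1).1]; ring
  have e4 : eK J θ L (emb ((hul θ L C).erase x₀) ψ - h)
      ((emb ((hul θ L C).erase x₀) ψ - h) ∘ θ) = eK J θ L (emb L l - h) (emb L r - h ∘ θ) := by
    refine eK_congr J θ L _ _ _ _ (fun x h1 => ?_) (fun x h1 => ?_)
    · rw [hψ]
      simp only [Pi.sub_apply, Pi.add_apply, Function.comp_apply]
      rw [zL r (θ x) (gl_L hr h1).2.2, zC c x (gl_L hr h1).1]; ring
    · rw [hψ]
      simp only [Pi.sub_apply, Pi.add_apply, Function.comp_apply, hr.inv]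
      rw [zL l (θ x) (gl_L hr h1).2.2, zC c (θ x) (gl_L hr h1).2.1]; ring
  unfold wt wtA wtB wtK
  rw [Qfr_split hr, e1, e2, e3, e4, ← Real.exp_add, ← Real.exp_add, ← Real.exp_add]
  congr 1
  ring

end Pool.Agent.LR
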