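import Pool.Agent.LR.B2b.ExpPsd
import Pool.Agent.LR.B2b.RPGlue

/-! # LR-B2b-7: reflection positivity for `Th` and `En`

PLAN. Let `M = Qfr J S`, `S = hul θ L C`, `O = S.erase x₀`, `e` from `exists_glue`.
`rp_th` (t > 0): sum over `(c, l, r)` of the nonnegative-kernel inequality.
For fixed `c` put `a l = √t * wtA c l h`, `b l = (√t)⁻¹ * wtA c l (h∘θ)`, `u l = emb L l - h`, `v l = emb L l - h∘θ`.
`fdL θ L h` equals `h` on `L ∪ C` and `(fdL θ L h) ∘ θ` equals `h` on `L ∪ C`; `fdR θ L h` equals `h∘θ` on `L ∪ C` and so does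
`(fdR θ L h) ∘ θ` (use `eA_congr`, `eB_congr`, `eK_congr`; `h∘θ = h` on `C`).  Hence by `wt_glue`
 t * wt (fdL h) (e (c,l,r)) = wtB c h * (a l * a r * exp (eK (u l) (u r))),
 t⁻¹ * wt (fdR h) (e (c,l,r)) = wtB c h * (b l * b r * exp (eK (v l) (v r))),
 wt h (e (c,l,r)) = wtB c h * (a l * b r * exp (eK (u l) (v r))),
 wt h (e (c,r,l)) = wtB c h * (b l * a r * exp (eK (v l) (u r)))   [eK symmetric in its arguments: `J x (θ y) = J y (θ x)`].
`F (c,l,r) := t wt(fdL h)(e(c,l,r)) + t⁻¹ wt(fdR h)(e(c,l,r)) - wt h (e(c,l,r)) - wt h (e(c,r,l))` is summable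
(`hs` composed with the equivalences), `Summable.tsum_prod`/`Summable.prod_factor`: for fixed `c` the inner sum is `≥ 0` by `exp_psd_pair` +
`tsum_kernel_nonneg`; so `0 ≤ ∑' F = t Th(fdL h) + t⁻¹ Th(fdR h) - 2 Th h` (`Equiv.tsum_eq`, the last term with the swap equivalence).
`rp_en`: `Th > 0` (`hs`, `Summable.tsum_pos`/`exp_pos`); take `t = √(Th⁺/Th⁻)`: `Th h ≤ √(Th⁻ Th⁺)`; take logarithms. -/

set_option autoImplicit false

noncomputable section

open scoped BigOperators Topology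
open MeasureTheory Filter Set

namespace Pool.Agent.LR

variable {W : Type*} [DecidableEq W]

private theorem rpineq_notmem_image {J : W → W → ℝ} {θ : W → W} {L C : Finset W}
    (hr : RPD J θ L C) {x : W} (hx : x ∈ L ∨ x ∈ C) : x ∉ L.image θ := by
  intro hx'
  obtain ⟨y, hy, rfl⟩ := Finset.mem_image.1 hx'
  rcases hx with h | h
  · exact hr.dLR y hy h
  · have h1 := hr.fix _ h
    rw [hr.inv y] at h1
    rw [← h1] at h
    exact (Finset.disjoint_left.1 hr.dLC) hy h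

private theorem rpineq_notmem_L {J : W → W → ℝ} {θ : W → W} {L C : Finset W}
    (hr : RPD J θ L C) {x : W} (hx : x ∈ C) : x ∉ L := fun h =>
  (Finset.disjoint_left.1 hr.dLC) h hx

private theorem rpineq_eK_symm {J : W → W → ℝ} {θ : W → W} {L C : Finset W}
    (hr : RPD J θ L C) (u v : W → ℝ) : eK J θ L u v = eK J θ L v u := by
  unfold eK
  rw [Finset.sum_comm]
  refine Finset.sum_congr rfl fun x _ => Finset.sum_congr rfl fun y _ => ?_
  have h1 : J y (θ x) = J x (θ y) := by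
    rw [← hr.isym y (θ x), hr.inv x, hr.sym]
  rw [h1]
  ring

private theorem rpineq_wt {J : W → W → ℝ} {θ : W → W} {L C : Finset W} (hr : RPD J θ L C)
    {x₀ : W} (hx : x₀ ∈ C) (g h' h'' : W → ℝ)
    (h1 : ∀ x, x ∈ L ∨ x ∈ C → g x = h' x) (h2 : ∀ x, x ∈ L ∨ x ∈ C → g (θ x) = h'' x)
    (c : ↥(C.erase x₀) → ℤ) (l r : ↥L → ℤ)
    (ψ : ↥((hul θ L C).erase x₀) → ℤ)
    (hψ : emb ((hul θ L C).erase x₀) ψ = emb (C.erase x₀) c + emb L l + (emb L r) ∘ θ) :
    wt (Qfr J (hul θ L C)) ((hul θ L C).erase x₀) g ψ =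
      wtB J C x₀ c h' * (wtA J θ L C x₀ c l h' * wtA J θ L C x₀ c r h'' *
        Real.exp (eK J θ L (emb L l - h') (emb L r - h''))) := by
  rw [wt_glue hr hx g c l r ψ hψ]
  have e1 : wtB J C x₀ c g = wtB J C x₀ c h' := by
    unfold wtB
    rw [eB_congr J C (emb (C.erase x₀) c - g) (emb (C.erase x₀) c - h')
      (fun x hxC => by simp only [Pi.sub_apply]; rw [h1 x (Or.inr hxC)])]
  have e2 : wtA J θ L C x₀ c l g = wtA J θ L C x₀ c l h' := by
    unfold wtA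
    rw [eA_congr J θ L C (emb (C.erase x₀) c + emb L l - g) (emb (C.erase x₀) c + emb L l - h')
      (fun x hxC => by simp only [Pi.sub_apply]; rw [h1 x hxC])]
  have e3 : wtA J θ L C x₀ c r (g ∘ θ) = wtA J θ L C x₀ c r h'' := by
    unfold wtA
    rw [eA_congr J θ L C (emb (C.erase x₀) c + emb L r - g ∘ θ)
      (emb (C.erase x₀) c + emb L r - h'')
      (fun x hxC => by simp only [Pi.sub_apply, Function.comp_apply]; rw [h2 x hxC])]
  have e4 : wtK J θ L l r g (g ∘ θ) =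
      Real.exp (eK J θ L (emb L l - h') (emb L r - h'')) := by
    unfold wtK
    rw [eK_congr J θ L (emb L l - g) (emb L r - g ∘ θ) (emb L l - h') (emb L r - h'')
      (fun x hxC => by simp only [Pi.sub_apply]; rw [h1 x (Or.inl hxC)])
      (fun x hxC => by
        simp only [Pi.sub_apply, Function.comp_apply]; rw [h2 x (Or.inl hxC)])]
  rw [e1, e2, e3, e4]

theorem rp_th {J : W → W → ℝ} {θ : W → W} {L C : Finset W} (hr : RPD J θ L C) {x₀ : W}
    (hx : x₀ ∈ C) (hs : ∀ h, Summable (wt (Qfr J (hul θ L C)) ((hul θ L C).erase x₀) h))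
    (h : W → ℝ) {t : ℝ} (ht : 0 < t) :
    2 * Th (Qfr J (hul θ L C)) ((hul θ L C).erase x₀) h ≤
      t * Th (Qfr J (hul θ L C)) ((hul θ L C).erase x₀) (fdL θ L h) +
      t⁻¹ * Th (Qfr J (hul θ L C)) ((hul θ L C).erase x₀) (fdR θ L h) := by
  obtain ⟨e, he⟩ := exists_glue (J := J) hr hx
  obtain ⟨w, hw⟩ : ∃ w : (W → ℝ) → (↥((hul θ L C).erase x₀) → ℤ) → ℝ,
    w = wt (Qfr J (hul θ L C)) ((hul θ L C).erase x₀) := ⟨_, rfl⟩
  have hs' : ∀ g, Summable (w g) := by rw [hw]; exact hs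
  obtain ⟨sw, hsw⟩ : ∃ sw : (↥(C.erase x₀) → ℤ) × (↥L → ℤ) × (↥L → ℤ) ≃
      (↥(C.erase x₀) → ℤ) × (↥L → ℤ) × (↥L → ℤ), ∀ c l r, sw (c, l, r) = (c, r, l) :=
    ⟨Equiv.prodCongr (Equiv.refl _) (Equiv.prodComm _ _), fun c l r => rfl⟩
  have hse : ∀ g, Summable fun p => w g (e p) := fun g => (e.summable_iff).2 (hs' g)
  have hse' : Summable fun p => w h (e (sw p)) := (sw.summable_iff (f := fun p => w h (e p))).2
    (hse h)
  obtain ⟨F, hF⟩ : ∃ F : (↥(C.erase x₀) → ℤ) × (↥L → ℤ) × (↥L → ℤ) → ℝ,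
    F = fun p => t * w (fdL θ L h) (e p) + t⁻¹ * w (fdR θ L h) (e p) - w h (e p)
      - w h (e (sw p)) := ⟨_, rfl⟩
  have hFs : Summable F := by
    rw [hF]
    exact ((((hse _).mul_left t).add ((hse _).mul_left t⁻¹)).sub (hse h)).sub hse'
  have htot : ∑' p, F p = t * Th (Qfr J (hul θ L C)) ((hul θ L C).erase x₀) (fdL θ L h) +
      t⁻¹ * Th (Qfr J (hul θ L C)) ((hul θ L C).erase x₀) (fdR θ L h) -
      2 * Th (Qfr J (hul θ L C)) ((hul θ L C).erase x₀) h := by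
    have q1 : ∀ g, ∑' p, w g (e p) = Th (Qfr J (hul θ L C)) ((hul θ L C).erase x₀) g := by
      intro g
      rw [e.tsum_eq (w g), hw]
      rfl
    have q2 : ∑' p, w h (e (sw p)) = Th (Qfr J (hul θ L C)) ((hul θ L C).erase x₀) h := by
      rw [sw.tsum_eq (fun p => w h (e p)), q1]
    rw [hF]
    rw [Summable.tsum_sub ((((hse _).mul_left t).add ((hse _).mul_left t⁻¹)).sub (hse h)) hse',
      Summable.tsum_sub (((hse _).mul_left t).add ((hse _).mul_left t⁻¹)) (hse h),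
      Summable.tsum_add ((hse _).mul_left t) ((hse _).mul_left t⁻¹),
      tsum_mul_left, tsum_mul_left, q1, q1, q1, q2]
    ring
  have hnn : 0 ≤ ∑' p, F p := by
    rw [hFs.tsum_prod]
    refine tsum_nonneg fun c => ?_
    refine tsum_kernel_nonneg (fun q => F (c, q)) (hFs.prod_factor c) fun s => ?_
    have hst : 0 < Real.sqrt t := Real.sqrt_pos.2 ht
    have hsq : Real.sqrt t * Real.sqrt t = t := Real.mul_self_sqrt ht.le
    have hsqi : (Real.sqrt t)⁻¹ * (Real.sqrt t)⁻¹ = t⁻¹ := by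
      rw [← mul_inv, hsq]
    have hsi : Real.sqrt t * (Real.sqrt t)⁻¹ = 1 := mul_inv_cancel₀ hst.ne'
    have hK := exp_psd_pair L (fun x y => J x (θ y))
      (fun x y => by
        show J x (θ y) = J y (θ x)
        rw [← hr.isym x (θ y), hr.inv y, hr.sym])
      (fun c => hr.psd c) s (fun l : ↥L → ℤ => emb L l - h)
      (fun l : ↥L → ℤ => emb L l - h ∘ θ)
      (fun l => Real.sqrt t * wtA J θ L C x₀ c l h)
      (fun l => (Real.sqrt t)⁻¹ * wtA J θ L C x₀ c l (h ∘ θ))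
    have hB : 0 ≤ wtB J C x₀ c h := (Real.exp_pos _).le
    have key : ∑ i ∈ s, ∑ j ∈ s, F (c, (i, j)) = wtB J C x₀ c h *
        ∑ i ∈ s, ∑ j ∈ s,
      ((Real.sqrt t * wtA J θ L C x₀ c i h) * (Real.sqrt t * wtA J θ L C x₀ c j h) *
          Real.exp (∑ x ∈ L, ∑ y ∈ L, J x (θ y) * (emb L i - h) x * (emb L j - h) y)
        + ((Real.sqrt t)⁻¹ * wtA J θ L C x₀ c i (h ∘ θ)) *
          ((Real.sqrt t)⁻¹ * wtA J θ L C x₀ c j (h ∘ θ)) *
          Real.exp (∑ x ∈ L, ∑ y ∈ L, J x (θ y) * (emb L i - h ∘ θ) x * (emb L j - h ∘ θ) y)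
        - (Real.sqrt t * wtA J θ L C x₀ c i h) *
          ((Real.sqrt t)⁻¹ * wtA J θ L C x₀ c j (h ∘ θ)) *
          Real.exp (∑ x ∈ L, ∑ y ∈ L, J x (θ y) * (emb L i - h) x * (emb L j - h ∘ θ) y)
        - ((Real.sqrt t)⁻¹ * wtA J θ L C x₀ c i (h ∘ θ)) *
          (Real.sqrt t * wtA J θ L C x₀ c j h) *
          Real.exp (∑ x ∈ L, ∑ y ∈ L, J x (θ y) * (emb L i - h ∘ θ) x * (emb L j - h) y)) := by
      rw [Finset.mul_sum]
      refine Finset.sum_congr rfl fun i _ => ?_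
      rw [Finset.mul_sum]
      refine Finset.sum_congr rfl fun j _ => ?_
      have hL1 : ∀ x, x ∈ L ∨ x ∈ C → fdL θ L h x = h x := by
        intro x hx'
        unfold fdL
        rw [if_neg (rpineq_notmem_image hr hx')]
      have hL2 : ∀ x, x ∈ L ∨ x ∈ C → fdL θ L h (θ x) = h x := by
        intro x hx'
        rcases hx' with h1 | h1
        · unfold fdL
          rw [if_pos (Finset.mem_image_of_mem θ h1), hr.inv]
        · rw [hr.fix x h1]
          exact hL1 x (Or.inr h1)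
      have hR1 : ∀ x, x ∈ L ∨ x ∈ C → fdR θ L h x = (h ∘ θ) x := by
        intro x hx'
        rcases hx' with h1 | h1
        · unfold fdR
          rw [if_pos h1]
          rfl
        · unfold fdR
          rw [if_neg (rpineq_notmem_L hr h1), Function.comp_apply, hr.fix x h1]
      have hR2 : ∀ x, x ∈ L ∨ x ∈ C → fdR θ L h (θ x) = (h ∘ θ) x := by
        intro x hx'
        rcases hx' with h1 | h1
        · unfold fdR
          rw [if_neg (hr.dLR x h1)]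
          rfl
        · rw [hr.fix x h1]
          exact hR1 x (Or.inr h1)
      have hBθ : wtB J C x₀ c (h ∘ θ) = wtB J C x₀ c h := by
        unfold wtB
        rw [eB_congr J C (emb (C.erase x₀) c - h ∘ θ) (emb (C.erase x₀) c - h)
          (fun x hxC => by
            simp only [Pi.sub_apply, Function.comp_apply]; rw [hr.fix x hxC])]
      have w1 := rpineq_wt hr hx (fdL θ L h) h h hL1 hL2 c i j (e (c, i, j)) (he c i j)
      have w2 := rpineq_wt hr hx (fdR θ L h) (h ∘ θ) (h ∘ θ) hR1 hR2 c i j (e (c, i, j))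
        (he c i j)
      have w3 := rpineq_wt hr hx h h (h ∘ θ) (fun _ _ => rfl) (fun _ _ => rfl) c i j
        (e (c, i, j)) (he c i j)
      have w4 := rpineq_wt hr hx h h (h ∘ θ) (fun _ _ => rfl) (fun _ _ => rfl) c j i
        (e (c, j, i)) (he c j i)
      rw [rpineq_eK_symm hr (emb L j - h) (emb L i - h ∘ θ)] at w4
      rw [hBθ] at w2
      rw [← hw] at w1 w2 w3 w4
      have hFc : F (c, (i, j)) = t * w (fdL θ L h) (e (c, i, j)) +
          t⁻¹ * w (fdR θ L h) (e (c, i, j)) - w h (e (c, i, j)) - w h (e (c, j, i)) := by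
        rw [hF]
        simp only [hsw]
      rw [hFc, w1, w2, w3, w4]
      have k1 : ∀ u v : W → ℝ, Real.exp (∑ x ∈ L, ∑ y ∈ L, J x (θ y) * u x * v y) =
        Real.exp (eK J θ L u v) := fun u v => rfl
      rw [k1, k1, k1, k1]
      obtain ⟨E1, hE1⟩ : ∃ z, z = Real.exp (eK J θ L (emb L i - h) (emb L j - h)) := ⟨_, rfl⟩
      obtain ⟨E2, hE2⟩ : ∃ z, z = Real.exp (eK J θ L (emb L i - h ∘ θ) (emb L j - h ∘ θ)) :=
        ⟨_, rfl⟩
      obtain ⟨E3, hE3⟩ : ∃ z, z = Real.exp (eK J θ L (emb L i - h) (emb L j - h ∘ θ)) :=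
        ⟨_, rfl⟩
      obtain ⟨E4, hE4⟩ : ∃ z, z = Real.exp (eK J θ L (emb L i - h ∘ θ) (emb L j - h)) :=
        ⟨_, rfl⟩
      rw [← hE1, ← hE2, ← hE3, ← hE4]
      obtain ⟨B, hB'⟩ : ∃ z, z = wtB J C x₀ c h := ⟨_, rfl⟩
      obtain ⟨A1, hA1⟩ : ∃ z, z = wtA J θ L C x₀ c i h := ⟨_, rfl⟩
      obtain ⟨A2, hA2⟩ : ∃ z, z = wtA J θ L C x₀ c j h := ⟨_, rfl⟩
      obtain ⟨A3, hA3⟩ : ∃ z, z = wtA J θ L C x₀ c i (h ∘ θ) := ⟨_, rfl⟩
      obtain ⟨A4, hA4⟩ : ∃ z, z = wtA J θ L C x₀ c j (h ∘ θ) := ⟨_, rfl⟩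
      rw [← hB', ← hA1, ← hA2, ← hA3, ← hA4]
      obtain ⟨q, hq⟩ : ∃ z, z = Real.sqrt t := ⟨_, rfl⟩
      rw [← hq] at hsq hsqi hsi ⊢
      have r1 : t * (B * (A1 * A2 * E1)) = B * (q * A1 * (q * A2) * E1) := by
        rw [← hsq]; ring
      have r2 : t⁻¹ * (B * (A3 * A4 * E2)) = B * (q⁻¹ * A3 * (q⁻¹ * A4) * E2) := by
        rw [← hsqi]; ring
      have r3 : B * (A1 * A4 * E3) = B * (q * A1 * (q⁻¹ * A4) * E3) := by
        have : B * (q * A1 * (q⁻¹ * A4) * E3) = (q * q⁻¹) * (B * (A1 * A4 * E3)) := by ring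
        rw [this, hsi, one_mul]
      have r4 : B * (A2 * A3 * E4) = B * (q⁻¹ * A3 * (q * A2) * E4) := by
        have : B * (q⁻¹ * A3 * (q * A2) * E4) = (q * q⁻¹) * (B * (A2 * A3 * E4)) := by ring
        rw [this, hsi, one_mul]
      rw [r1, r2, r3, r4]
      ring
    show 0 ≤ ∑ i ∈ s, ∑ j ∈ s, F (c, (i, j))
    rw [key]
    exact mul_nonneg hB hK
  rw [htot] at hnn
  linarith

theorem rp_en {J : W → W → ℝ} {θ : W → W} {L C : Finset W} (hr : RPD J θ L C) {x₀ : W}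
    (hx : x₀ ∈ C) (hs : ∀ h, Summable (wt (Qfr J (hul θ L C)) ((hul θ L C).erase x₀) h))
    (h : W → ℝ) :
    En (Qfr J (hul θ L C)) ((hul θ L C).erase x₀) (fdL θ L h) +
      En (Qfr J (hul θ L C)) ((hul θ L C).erase x₀) (fdR θ L h) ≤
      2 * En (Qfr J (hul θ L C)) ((hul θ L C).erase x₀) h := by
  have hpos : ∀ g, 0 < Th (Qfr J (hul θ L C)) ((hul θ L C).erase x₀) g := by
    intro g
    exact (hs g).tsum_pos (fun i => (Real.exp_pos _).le) 0 (Real.exp_pos _)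
  have p0 := hpos 0
  have p1 := hpos h
  have p2 := hpos (fdL θ L h)
  have p3 := hpos (fdR θ L h)
  have hth := rp_th hr hx hs h (t := Th (Qfr J (hul θ L C)) ((hul θ L C).erase x₀) h /
    Th (Qfr J (hul θ L C)) ((hul θ L C).erase x₀) (fdL θ L h)) (div_pos p1 p2)
  unfold En
  obtain ⟨T0, hT0⟩ : ∃ z, z = Th (Qfr J (hul θ L C)) ((hul θ L C).erase x₀) 0 := ⟨_, rfl⟩
  obtain ⟨T, hT⟩ : ∃ z, z = Th (Qfr J (hul θ L C)) ((hul θ L C).erase x₀) h := ⟨_, rfl⟩
  obtain ⟨Tl, hTl⟩ : ∃ z, z = Th (Qfr J (hul θ L C)) ((hul θ L C).erase x₀) (fdL θ L h) :=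
    ⟨_, rfl⟩
  obtain ⟨Tr, hTr⟩ : ∃ z, z = Th (Qfr J (hul θ L C)) ((hul θ L C).erase x₀) (fdR θ L h) :=
    ⟨_, rfl⟩
  rw [← hT0] at p0 ⊢
  rw [← hT] at p1 hth ⊢
  rw [← hTl] at p2 hth ⊢
  rw [← hTr] at p3 hth ⊢
  have h1 : T / Tl * Tl = T := div_mul_cancel₀ _ p2.ne'
  rw [h1, inv_div] at hth
  have h2 : T ≤ Tl / T * Tr := by linarith
  have h3 : T * T ≤ Tl * Tr := by
    have h4 : T * T ≤ T * (Tl / T * Tr) := mul_le_mul_of_nonneg_left h2 p1.le
    have h5 : T * (Tl / T * Tr) = Tl * Tr := by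
      field_simp
    linarith
  have h6 : Real.log (T * T) ≤ Real.log (Tl * Tr) := Real.log_le_log (mul_pos p1 p1) h3
  rw [Real.log_mul p1.ne' p1.ne', Real.log_mul p2.ne' p3.ne'] at h6
  rw [Real.log_div p2.ne' p0.ne', Real.log_div p3.ne' p0.ne', Real.log_div p1.ne' p0.ne']
  linarith

end Pool.Agent.LR
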