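import Pool.Agent.LR.B2b.RPDef

/-! # LR-B2b-5: splitting of the energy at the mirror

PLAN. `Qfr J S φ φ = 1/2 ∑_{x,y∈S} J x y (φ x - φ y)²` (unfold `Qfr`, `rk`, `ev`; `LinearMap.sum_apply`, `mk₂_apply`).
`S = L ⊔ C ⊔ θL` is a disjoint union (`dLC`, `dLR`; `θ x ∈ C` for `x ∈ L` is impossible by `fix`, `inv`), so
`∑_{S} = ∑_L + ∑_C + ∑_{θL}`, `∑_{x ∈ L.image θ} f x = ∑_{x ∈ L} f (θ x)` (`Finset.sum_image`, `θ` injective by `inv`).
Nine blocks: `LL`, `CC`, `θL θL` (`isym`), `LC = CL`, `θL C = C θL` (`J (θ x) y = J (θ x) (θ y) = J x y` for `y ∈ C`, `φ y = φ (θ y)`),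
`L θL = θL L`: `∑_{x,y∈L} J x (θ y) (φ x - φ (θ y))²` expanded; `∑_{x,y} J x (θ y) φ(θ y)² = ∑_y (∑_x J y (θ x)) φ(θ y)²` by
`J x (θ y) = J (θ x) y = J y (θ x)`.
`eA_congr`: `eA` only depends on the values on `L ∪ C`; etc. -/

set_option autoImplicit false

noncomputable section

open scoped BigOperators Topology
open MeasureTheory Filter Set

namespace Pool.Agent.LR

variable {W : Type*} [DecidableEq W]

theorem Qfr_apply_half (J : W → W → ℝ) (S : Finset W) (φ χ : W → ℝ) :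
    Qfr J S φ χ = 1 / 2 * ∑ x ∈ S, ∑ y ∈ S, J x y * ((φ x - φ y) * (χ x - χ y)) := by
  unfold Qfr
  rw [LinearMap.sum_apply, LinearMap.sum_apply, Finset.mul_sum]
  refine Finset.sum_congr rfl fun x _ => ?_
  rw [LinearMap.sum_apply, LinearMap.sum_apply, Finset.mul_sum]
  refine Finset.sum_congr rfl fun y _ => ?_
  simp only [rk, ev, LinearMap.mk₂_apply, LinearMap.sub_apply, LinearMap.proj_apply]
  ring

private theorem sum_hul {J : W → W → ℝ} {θ : W → W} {L C : Finset W} (hr : RPD J θ L C)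
    (g : W → ℝ) :
    ∑ x ∈ hul θ L C, g x = ∑ x ∈ L, g x + ∑ x ∈ C, g x + ∑ x ∈ L, g (θ x) := by
  have hd : Disjoint (L ∪ C) (L.image θ) := by
    rw [Finset.disjoint_left]
    intro x hx hx'
    obtain ⟨y, hy, rfl⟩ := Finset.mem_image.1 hx'
    rcases Finset.mem_union.1 hx with h | h
    · exact hr.dLR y hy h
    · have h1 := hr.fix _ h
      rw [hr.inv] at h1
      exact hr.dLR y hy (h1 ▸ hy)
  rw [hul, Finset.sum_union hd, Finset.sum_union hr.dLC, Finset.sum_image]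
  intro x _ y _ h
  have h1 := congrArg θ h
  rwa [hr.inv, hr.inv] at h1

theorem Qfr_split {J : W → W → ℝ} {θ : W → W} {L C : Finset W} (hr : RPD J θ L C) (φ : W → ℝ) :
    Qfr J (hul θ L C) φ φ = eA J θ L C φ + eA J θ L C (φ ∘ θ) + eB J C φ
      - 2 * eK J θ L φ (φ ∘ θ) := by
  have hJ1 : ∀ x y, J (θ x) y = J x (θ y) := fun x y => by
    rw [← hr.isym x (θ y), hr.inv]
  rw [Qfr_apply_half, sum_hul hr]
  simp only [sum_hul hr, Finset.sum_add_distrib]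
  have eCL : ∑ x ∈ C, ∑ y ∈ L, J x y * ((φ x - φ y) * (φ x - φ y)) =
      ∑ x ∈ L, ∑ y ∈ C, J x y * (φ x - φ y) ^ 2 := by
    rw [Finset.sum_comm]
    refine Finset.sum_congr rfl fun x _ => Finset.sum_congr rfl fun y _ => ?_
    rw [hr.sym]; ring
  have eCR : ∑ x ∈ C, ∑ y ∈ L, J x (θ y) * ((φ x - φ (θ y)) * (φ x - φ (θ y))) =
      ∑ x ∈ L, ∑ y ∈ C, J x y * ((φ ∘ θ) x - (φ ∘ θ) y) ^ 2 := by
    rw [Finset.sum_comm]
    refine Finset.sum_congr rfl fun x _ => Finset.sum_congr rfl fun y hy => ?_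
    have h1 : J y (θ x) = J x y := by
      rw [← hJ1, hr.fix y hy, hr.sym]
    rw [h1, Function.comp_apply, Function.comp_apply, hr.fix y hy]; ring
  have eRC : ∑ x ∈ L, ∑ y ∈ C, J (θ x) y * ((φ (θ x) - φ y) * (φ (θ x) - φ y)) =
      ∑ x ∈ L, ∑ y ∈ C, J x y * ((φ ∘ θ) x - (φ ∘ θ) y) ^ 2 := by
    refine Finset.sum_congr rfl fun x _ => Finset.sum_congr rfl fun y hy => ?_
    rw [hJ1, Function.comp_apply, Function.comp_apply, hr.fix y hy]; ring
  have eRR : ∑ x ∈ L, ∑ y ∈ L, J (θ x) (θ y) * ((φ (θ x) - φ (θ y)) * (φ (θ x) - φ (θ y))) =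
      ∑ x ∈ L, ∑ y ∈ L, J x y * ((φ ∘ θ) x - (φ ∘ θ) y) ^ 2 := by
    refine Finset.sum_congr rfl fun x _ => Finset.sum_congr rfl fun y hy => ?_
    rw [hr.isym, Function.comp_apply, Function.comp_apply]; ring
  have eRL : ∑ x ∈ L, ∑ y ∈ L, J (θ x) y * ((φ (θ x) - φ y) * (φ (θ x) - φ y)) =
      ∑ x ∈ L, ∑ y ∈ L, J x (θ y) * ((φ x - φ (θ y)) * (φ x - φ (θ y))) := by
    rw [Finset.sum_comm]
    refine Finset.sum_congr rfl fun x _ => Finset.sum_congr rfl fun y hy => ?_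
    rw [hr.sym (θ y) x]; ring
  have eLR : ∑ x ∈ L, ∑ y ∈ L, J x (θ y) * ((φ x - φ (θ y)) * (φ x - φ (θ y))) =
      ∑ x ∈ L, (∑ y ∈ L, J x (θ y)) * φ x ^ 2 +
      ∑ x ∈ L, (∑ y ∈ L, J x (θ y)) * (φ ∘ θ) x ^ 2
      - 2 * ∑ x ∈ L, ∑ y ∈ L, J x (θ y) * φ x * (φ ∘ θ) y := by
    have h2 : ∑ x ∈ L, (∑ y ∈ L, J x (θ y)) * (φ ∘ θ) x ^ 2 =
        ∑ x ∈ L, ∑ y ∈ L, J x (θ y) * φ (θ y) ^ 2 := by
      rw [Finset.sum_comm]
      refine Finset.sum_congr rfl fun x _ => ?_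
      rw [Finset.sum_mul]
      refine Finset.sum_congr rfl fun y _ => ?_
      rw [← hJ1, hr.sym, Function.comp_apply]
    rw [h2, Finset.mul_sum, ← Finset.sum_add_distrib, ← Finset.sum_sub_distrib]
    refine Finset.sum_congr rfl fun x _ => ?_
    rw [Finset.sum_mul, Finset.mul_sum, ← Finset.sum_add_distrib, ← Finset.sum_sub_distrib]
    refine Finset.sum_congr rfl fun y _ => ?_
    rw [Function.comp_apply]; ring
  have eLL : ∑ x ∈ L, ∑ y ∈ L, J x y * ((φ x - φ y) * (φ x - φ y)) =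
      ∑ x ∈ L, ∑ y ∈ L, J x y * (φ x - φ y) ^ 2 :=
    Finset.sum_congr rfl fun x _ => Finset.sum_congr rfl fun y _ => by ring
  have eLC : ∑ x ∈ L, ∑ y ∈ C, J x y * ((φ x - φ y) * (φ x - φ y)) =
      ∑ x ∈ L, ∑ y ∈ C, J x y * (φ x - φ y) ^ 2 :=
    Finset.sum_congr rfl fun x _ => Finset.sum_congr rfl fun y _ => by ring
  have eCC : ∑ x ∈ C, ∑ y ∈ C, J x y * ((φ x - φ y) * (φ x - φ y)) =
      ∑ x ∈ C, ∑ y ∈ C, J x y * (φ x - φ y) ^ 2 :=
    Finset.sum_congr rfl fun x _ => Finset.sum_congr rfl fun y _ => by ring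
  rw [eCL, eCR, eRC, eRR, eRL, eLR, eLL, eLC, eCC]
  unfold eA eB eK
  ring

theorem eA_congr (J : W → W → ℝ) (θ : W → W) (L C : Finset W) (u v : W → ℝ)
    (h : ∀ x, x ∈ L ∨ x ∈ C → u x = v x) : eA J θ L C u = eA J θ L C v := by
  unfold eA
  congr 1
  · congr 1
    · congr 1
      refine Finset.sum_congr rfl fun x hx => Finset.sum_congr rfl fun y hy => ?_
      rw [h x (Or.inl hx), h y (Or.inl hy)]
    · refine Finset.sum_congr rfl fun x hx => Finset.sum_congr rfl fun y hy => ?_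
      rw [h x (Or.inl hx), h y (Or.inr hy)]
  · refine Finset.sum_congr rfl fun x hx => ?_
    rw [h x (Or.inl hx)]

theorem eB_congr (J : W → W → ℝ) (C : Finset W) (u v : W → ℝ)
    (h : ∀ x ∈ C, u x = v x) : eB J C u = eB J C v := by
  unfold eB
  congr 1
  refine Finset.sum_congr rfl fun x hx => Finset.sum_congr rfl fun y hy => ?_
  rw [h x hx, h y hy]

theorem eK_congr (J : W → W → ℝ) (θ : W → W) (L : Finset W) (u v u' v' : W → ℝ)
    (h : ∀ x ∈ L, u x = u' x) (h' : ∀ x ∈ L, v x = v' x) : eK J θ L u v = eK J θ L u' v' := by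
  unfold eK
  refine Finset.sum_congr rfl fun x hx => Finset.sum_congr rfl fun y hy => ?_
  rw [h x hx, h' y hy]

end Pool.Agent.LR
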