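import Pool.Agent.LR.B2b.Gen
import Pool.Agent.LR.B2b.Interp
import Pool.Agent.LR.B2b.DilNear

/-! # LR-B2b-20: `T_A` for `C¹` functions and all `n`

PLAN.
`tc_C1`: `tc_closed` + `interp` + `tc_sum`, `tc_smul`, `tc_prod` (dyadic nodes), `ll_of_contDiff`.
`ta_upper` (all `n`): fix `ε`.  For `r ∈ [1,2]` let `H_r z = H (z.1/r, z.2/r)` (`C¹`).  For `n ≥ 1` write `n = r 2^k`, `r ∈ [1,2)`
(`k = Nat.log 2 n`): `smp H n = smp H_r (2^k)` and `bx a b c d n = bx (r a) (r b) (r c) (r d) (2^k)`.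
Finite net: `δ' > 0` small, `r_i = 1 + i δ'`; for `r` with `r_i ≤ r < r_i + δ'`: `rct (ra) ..  ⊆ R_i := rct (r_i a - δ'|a|) (r_i b + δ'|b|) ...`, so
`Efr(bx rU)(smp H_r) ≤ Efr(bx R_i)(smp H_r)` (`efr_mono`), and `√(2 Efr(bx R_i)(smp H_r)) ≤ √(2 Efr(bx R_i)(smp H_{r_i})) + √(Q)`
(`efr_lip`), `qfr_crude` with `|(H_r - H_{r_i})(z) - (H_r - H_{r_i})(w)| ≤ ω ‖z-w‖`, `ω → 0` as `δ' → 0` (uniform continuity of `fderiv H`
on a compact set: `fderiv H_r z = r⁻¹ fderiv H (z/r)`), so `Q ≤ C ω²`.  `tc_ub` for `H_{r_i}` on `R_i` gives eventually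
`Efr(bx R_i)(smp H_{r_i}) ≤ κ/2 ∫_{R_i} gsq H_{r_i} + ε'`, and `∫_{R_i} gsq H_{r_i} = ∫_{R_i/r_i} gsq H ≤ ∫_{rct a b c d} gsq H + ε'` for `δ'`
small (`int_dil`; bounded density, the area of `R_i/r_i` minus the rectangle is `O(δ')`).
`ta`: with `lower_rct`. -/

set_option autoImplicit false

noncomputable section

open scoped BigOperators Topology
open MeasureTheory Filter Set

namespace Pool.Agent.LR

theorem tc_C1 {α β κ : ℝ} (hα : 4 < α) (hβ : 0 < β) (hκ : KLow α β κ) {H : P → ℝ}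
    (hH : ContDiff ℝ 1 H) : TC α β κ H := by
  refine tc_closed hα hβ hκ (ll_of_contDiff hH) (fun K ε hε => ?_)
  obtain ⟨t, m, c, h⟩ := interp hH K hε
  refine ⟨fun z => ∑ i ∈ t, c i * (|z.1 - i.1 / 2 ^ m| * |z.2 - i.2 / 2 ^ m|), ?_, h⟩
  exact tc_sum hα hβ hκ t (fun i z => c i * (|z.1 - i.1 / 2 ^ m| * |z.2 - i.2 / 2 ^ m|))
    (fun i _ => tc_smul hκ (tc_prod hα hβ hκ ⟨i.1, m, rfl⟩ ⟨i.2, m, rfl⟩) (c i))

/-- Distance of rescaled sites. -/
private theorem ta_len {m : ℕ} (hm : 0 < m) (x y : V) :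
    ‖sc m x - sc m y‖ ≤ len (x - y) / m := by
  have hm' : (0 : ℝ) < m := by exact_mod_cast hm
  have e1 : (sc m x - sc m y).1 = (((x - y).1 : ℤ) : ℝ) / m := by
    simp only [sc, Prod.fst_sub]
    push_cast
    ring
  have e2 : (sc m x - sc m y).2 = (((x - y).2 : ℤ) : ℝ) / m := by
    simp only [sc, Prod.snd_sub]
    push_cast
    ring
  rw [Prod.norm_def, e1, e2]
  refine max_le ?_ ?_
  · rw [Real.norm_eq_abs, abs_div, abs_of_pos hm']
    refine div_le_div_of_nonneg_right ?_ hm'.le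
    rw [len]
    refine Real.le_sqrt_of_sq_le ?_
    rw [sq_abs]
    nlinarith [sq_nonneg (((x - y).2 : ℤ) : ℝ)]
  · rw [Real.norm_eq_abs, abs_div, abs_of_pos hm']
    refine div_le_div_of_nonneg_right ?_ hm'.le
    rw [len]
    refine Real.le_sqrt_of_sq_le ?_
    rw [sq_abs]
    nlinarith [sq_nonneg (((x - y).1 : ℤ) : ℝ)]

/-- A set of sites in the square of half side `K` at scale `m` has at most `((2K+1)m)²` elements. -/
private theorem ta_card {m K : ℕ} (hm : 0 < m) (S : Finset V) (hS : ∀ x ∈ S, ‖sc m x‖ ≤ K) :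
    (S.card : ℝ) ≤ ((2 * K + 1) * m) ^ 2 := by
  have hm' : (0 : ℝ) < m := by exact_mod_cast hm
  have hsub : S ⊆ Finset.Icc (-((K * m : ℕ) : ℤ)) ((K * m : ℕ) : ℤ) ×ˢ
      Finset.Icc (-((K * m : ℕ) : ℤ)) ((K * m : ℕ) : ℤ) := by
    intro x hx
    have h1 := hS x hx
    rw [Prod.norm_def, max_le_iff, Real.norm_eq_abs, Real.norm_eq_abs] at h1
    have key : ∀ y : ℤ, |(y : ℝ) / m| ≤ K →
        y ∈ Finset.Icc (-((K * m : ℕ) : ℤ)) ((K * m : ℕ) : ℤ) := by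
      intro y hy
      rw [abs_div, abs_of_pos hm', div_le_iff₀ hm', abs_le] at hy
      rw [Finset.mem_Icc]
      constructor
      · have h2 : ((-((K * m : ℕ) : ℤ) : ℤ) : ℝ) ≤ (y : ℝ) := by
          push_cast
          linarith [hy.1]
        exact_mod_cast h2
      · have h2 : (y : ℝ) ≤ (((K * m : ℕ) : ℤ) : ℝ) := by
          push_cast
          exact hy.2
        exact_mod_cast h2
    exact Finset.mem_product.mpr ⟨key x.1 h1.1, key x.2 h1.2⟩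
  have h2 := Finset.card_le_card hsub
  rw [Finset.card_product, Int.card_Icc] at h2
  have h3 : ((((K * m : ℕ) : ℤ) + 1 - -((K * m : ℕ) : ℤ)).toNat : ℕ) = 2 * (K * m) + 1 := by
    omega
  rw [h3] at h2
  have h4 : (S.card : ℝ) ≤ ((2 * (K * m) + 1) * (2 * (K * m) + 1) : ℕ) := by exact_mod_cast h2
  push_cast at h4
  have h5 : (1 : ℝ) ≤ m := by exact_mod_cast hm
  have h6 : (0 : ℝ) ≤ K := Nat.cast_nonneg K
  have h7 : 2 * ((K : ℝ) * m) + 1 ≤ (2 * K + 1) * m := by nlinarith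
  have h8 : 0 ≤ 2 * ((K : ℝ) * m) + 1 := by positivity
  calc (S.card : ℝ) ≤ (2 * ((K : ℝ) * m) + 1) * (2 * ((K : ℝ) * m) + 1) := h4
    _ ≤ ((2 * K + 1) * m) * ((2 * K + 1) * m) := mul_le_mul h7 h7 h8 (by positivity)
    _ = ((2 * K + 1) * m) ^ 2 := by ring

/-- Comparison of the energies of two functions which are close in Lipschitz seminorm. -/
private theorem ta_comp {α β : ℝ} (hα : 4 < α) (hβ : 0 < β) {F G : P → ℝ} {K : ℕ} {ω : ℝ}
    (hFG : ∀ z w : P, ‖z‖ ≤ K → ‖w‖ ≤ K → |(F z - G z) - (F w - G w)| ≤ ω * ‖z - w‖)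
    (hω : 0 ≤ ω) {m : ℕ} (hm : 0 < m) (S : Finset V) (hS : ∀ x ∈ S, ‖sc m x‖ ≤ K) {t : ℝ}
    (ht : 0 < t) :
    Efr (JJ α β) S (smp F m) ≤ (1 + t) * Efr (JJ α β) S (smp G m) +
      (1 + t⁻¹) * (cc α β * ω ^ 2 * (2 * K + 1) ^ 2) := by
  have hm' : (0 : ℝ) < m := by exact_mod_cast hm
  have hcc := cc_nn hα hβ
  have hcard := ta_card hm S hS
  have hQ := qfr_crude hα hβ S (smp F m - smp G m) (A := ω / m) (by
    intro x hx y hy
    have h1 := hFG (sc m x) (sc m y) (hS x hx) (hS y hy)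
    have h2 := ta_len hm x y
    have h3 : ω * ‖sc m x - sc m y‖ ≤ ω * (len (x - y) / m) := mul_le_mul_of_nonneg_left h2 hω
    calc |(smp F m - smp G m) x - (smp F m - smp G m) y|
        = |(F (sc m x) - G (sc m x)) - (F (sc m y) - G (sc m y))| := rfl
      _ ≤ ω * (len (x - y) / m) := h1.trans h3
      _ = ω / m * len (x - y) := by ring)
  have hQ2 : Qfr (JJ α β) S (smp F m - smp G m) (smp F m - smp G m) ≤
      2 * (cc α β * ω ^ 2 * (2 * K + 1) ^ 2) := by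
    refine hQ.trans ?_
    have h1 : 2 * cc α β * (ω / m) ^ 2 * S.card ≤
        2 * cc α β * (ω / m) ^ 2 * ((2 * K + 1) * m) ^ 2 :=
      mul_le_mul_of_nonneg_left hcard (by positivity)
    refine h1.trans (le_of_eq ?_)
    field_simp
  have hlip := efr_lip hα hβ S (smp F m) (smp G m)
  have hF0 := efr_nonneg hα hβ S (smp F m)
  have hG0 := efr_nonneg hα hβ S (smp G m)
  have hB0 : 0 ≤ cc α β * ω ^ 2 * (2 * K + 1) ^ 2 := by positivity
  have h1 : Real.sqrt (2 * Efr (JJ α β) S (smp F m)) ≤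
      Real.sqrt (2 * Efr (JJ α β) S (smp G m)) +
        Real.sqrt (2 * (cc α β * ω ^ 2 * (2 * K + 1) ^ 2)) := by
    have h2 := (abs_le.1 hlip).2
    have h3 := Real.sqrt_le_sqrt hQ2
    linarith
  have h4 : Real.sqrt (2 * Efr (JJ α β) S (smp F m)) ^ 2 = 2 * Efr (JJ α β) S (smp F m) :=
    Real.sq_sqrt (by linarith)
  have h5 : Real.sqrt (2 * Efr (JJ α β) S (smp G m)) ^ 2 = 2 * Efr (JJ α β) S (smp G m) :=
    Real.sq_sqrt (by linarith)
  have h6 : Real.sqrt (2 * (cc α β * ω ^ 2 * (2 * K + 1) ^ 2)) ^ 2 =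
      2 * (cc α β * ω ^ 2 * (2 * K + 1) ^ 2) := Real.sq_sqrt (by linarith)
  have h7 := Real.sqrt_nonneg (2 * Efr (JJ α β) S (smp F m))
  have h8 := Real.sqrt_nonneg (2 * Efr (JJ α β) S (smp G m))
  have h9 := Real.sqrt_nonneg (2 * (cc α β * ω ^ 2 * (2 * K + 1) ^ 2))
  generalize Real.sqrt (2 * Efr (JJ α β) S (smp F m)) = u at *
  generalize Real.sqrt (2 * Efr (JJ α β) S (smp G m)) = v at *
  generalize Real.sqrt (2 * (cc α β * ω ^ 2 * (2 * K + 1) ^ 2)) = q at *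
  have h10 : u ^ 2 ≤ (v + q) ^ 2 := by
    exact pow_le_pow_left₀ h7 h1 2
  have h11 : 2 * v * q ≤ t * v ^ 2 + t⁻¹ * q ^ 2 := by
    have h12 : 0 ≤ t⁻¹ * (t * v - q) ^ 2 := by positivity
    have h13 : t⁻¹ * (t * v - q) ^ 2 = t * v ^ 2 - 2 * v * q + t⁻¹ * q ^ 2 := by
      field_simp
      ring
    linarith
  have h14 : u ^ 2 ≤ (1 + t) * v ^ 2 + (1 + t⁻¹) * q ^ 2 := by nlinarith
  rw [h4, h5, h6] at h14
  linarith

/-- The enlarged rectangle. -/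
private def ta_R (a b c d : ℝ) (N : ℕ) : Set P :=
  rct (a - |a| / (N + 1)) (b + |b| / (N + 1)) (c - |c| / (N + 1)) (d + |d| / (N + 1))

private theorem ta_bdd (a b c d : ℝ) : Bornology.IsBounded (rct a b c d) :=
  (Metric.isBounded_Icc a b).prod (Metric.isBounded_Icc c d)

private theorem ta_meas (a b c d : ℝ) : MeasurableSet (rct a b c d) :=
  measurableSet_Icc.prod measurableSet_Icc

private theorem ta_R_inter (a b c d : ℝ) : ⋂ N : ℕ, ta_R a b c d N = rct a b c d := by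
  have hlow : ∀ x y : ℝ, (∀ N : ℕ, x - |x| / (N + 1) ≤ y) → x ≤ y := by
    intro x y h
    have h1 : Tendsto (fun N : ℕ => x - |x| / ((N : ℝ) + 1)) atTop (𝓝 (x - 0)) :=
      tendsto_const_nhds.sub (tendsto_const_div_atTop_nhds_zero_nat |x| |>.comp
        (tendsto_add_atTop_nat 1) |>.congr (fun N => by simp))
    rw [sub_zero] at h1
    exact le_of_tendsto' h1 h
  have hup : ∀ x y : ℝ, (∀ N : ℕ, y ≤ x + |x| / (N + 1)) → y ≤ x := by
    intro x y h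
    have h1 : Tendsto (fun N : ℕ => x + |x| / ((N : ℝ) + 1)) atTop (𝓝 (x + 0)) :=
      tendsto_const_nhds.add (tendsto_const_div_atTop_nhds_zero_nat |x| |>.comp
        (tendsto_add_atTop_nat 1) |>.congr (fun N => by simp))
    rw [add_zero] at h1
    exact ge_of_tendsto' h1 h
  ext z
  simp only [Set.mem_iInter, ta_R, rct, Set.mem_prod, Set.mem_Icc]
  constructor
  · intro h
    exact ⟨⟨hlow a _ fun N => (h N).1.1, hup b _ fun N => (h N).1.2⟩,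
      ⟨hlow c _ fun N => (h N).2.1, hup d _ fun N => (h N).2.2⟩⟩
  · rintro ⟨⟨h1, h2⟩, h3, h4⟩ N
    have e : ∀ x : ℝ, 0 ≤ |x| / ((N : ℝ) + 1) := fun x => by positivity
    refine ⟨⟨?_, ?_⟩, ?_, ?_⟩
    · linarith [e a]
    · linarith [e b]
    · linarith [e c]
    · linarith [e d]

private theorem ta_R_anti (a b c d : ℝ) : Antitone (ta_R a b c d) := by
  intro N M hNM z hz
  simp only [ta_R, rct, Set.mem_prod, Set.mem_Icc] at hz ⊢
  have e : ∀ x : ℝ, |x| / ((M : ℝ) + 1) ≤ |x| / ((N : ℝ) + 1) := by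
    intro x
    have : (N : ℝ) ≤ M := by exact_mod_cast hNM
    exact div_le_div_of_nonneg_left (abs_nonneg x) (by positivity) (by linarith)
  refine ⟨⟨?_, ?_⟩, ?_, ?_⟩
  · linarith [e a, hz.1.1]
  · linarith [e b, hz.1.2]
  · linarith [e c, hz.2.1]
  · linarith [e d, hz.2.2]

private theorem ta_int {H : P → ℝ} (hH : LL H) (a b c d : ℝ) {ε : ℝ} (hε : 0 < ε) :
    ∀ᶠ N : ℕ in atTop,
      (∫ z in ta_R a b c d N, gsq H z) ≤ (∫ z in rct a b c d, gsq H z) + ε := by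
  have h1 := tendsto_setIntegral_of_antitone (μ := volume) (f := gsq H) (s := ta_R a b c d)
    (fun N => (ta_meas _ _ _ _ : MeasurableSet (ta_R a b c d N))) (ta_R_anti a b c d)
    ⟨0, ll_int hH (ta_bdd _ _ _ _)⟩
  rw [ta_R_inter] at h1
  have h2 := h1.eventually (gt_mem_nhds (lt_add_of_pos_right _ hε))
  exact h2.mono (fun N hN => le_of_lt hN)

private theorem ta_gsq_nn (H : P → ℝ) (z : P) : 0 ≤ gsq H z := by
  rw [gsq]; positivity

/-- The dyadic decomposition of the scale. -/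
private theorem ta_scale (H : P → ℝ) (a b c d : ℝ) {n : ℕ} (hn : 0 < n) :
    ∃ r : ℝ, 1 ≤ r ∧ r < 2 ∧
      bx a b c d n = bx (r * a) (r * b) (r * c) (r * d) (2 ^ Nat.log 2 n) ∧
      smp H n = smp (fun w => H (w.1 / r, w.2 / r)) (2 ^ Nat.log 2 n) := by
  have h1 : 2 ^ Nat.log 2 n ≤ n := Nat.pow_log_le_self 2 (by omega)
  have h2 : n < 2 ^ (Nat.log 2 n + 1) := Nat.lt_pow_succ_log_self (by norm_num) n
  generalize Nat.log 2 n = k at *
  have hk : (0 : ℝ) < 2 ^ k := by positivity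
  have h1' : (2 : ℝ) ^ k ≤ n := by exact_mod_cast h1
  have h2' : (n : ℝ) < 2 ^ (k + 1) := by exact_mod_cast h2
  have hn' : (0 : ℝ) < n := by exact_mod_cast hn
  refine ⟨n / 2 ^ k, ?_, ?_, ?_, ?_⟩
  · rw [one_le_div hk]; exact h1'
  · rw [div_lt_iff₀ hk]
    calc (n : ℝ) < 2 ^ (k + 1) := h2'
      _ = 2 * 2 ^ k := by ring
  · have e : ∀ x : ℝ, ((2 ^ k : ℕ) : ℝ) * (n / 2 ^ k * x) = n * x := by
      intro x
      push_cast
      field_simp
    rw [bx, bx, e, e, e, e]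
  · funext x
    rw [smp, smp]
    have e : ∀ y : ℤ, (y : ℝ) / ((2 ^ k : ℕ) : ℝ) / (n / 2 ^ k) = (y : ℝ) / n := by
      intro y
      push_cast
      field_simp
    simp only [sc]
    rw [e, e]

private theorem ta_dilC {H : P → ℝ} (hH : ContDiff ℝ 1 H) (r : ℝ) :
    ContDiff ℝ 1 (fun w : P => H (w.1 / r, w.2 / r)) := by
  refine hH.comp ?_
  exact (contDiff_fst.div_const r).prodMk (contDiff_snd.div_const r)

theorem ta_upper {α β κ : ℝ} (hα : 4 < α) (hβ : 0 < β) (hκ : KLow α β κ) {H : P → ℝ}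
    (hH : ContDiff ℝ 1 H) (a b c d : ℝ) {ε : ℝ} (hε : 0 < ε) : ∀ᶠ n : ℕ in atTop,
      Efr (JJ α β) (bx a b c d n) (smp H n) ≤ κ / 2 * (∫ z in rct a b c d, gsq H z) + ε := by
  have hcc := cc_nn hα hβ
  have hκ0 := hκ.nonneg
  have hI0 : 0 ≤ ∫ z in rct a b c d, gsq H z := by
    exact setIntegral_nonneg (ta_meas _ _ _ _) (fun z _ => ta_gsq_nn H z)
  obtain ⟨I, hI⟩ : ∃ I, I = ∫ z in rct a b c d, gsq H z := ⟨_, rfl⟩
  rw [← hI] at hI0 ⊢
  -- the constants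
  obtain ⟨K, hK⟩ := exists_nat_ge (4 * (|a| + |b| + |c| + |d|))
  have hA0 : 0 ≤ κ / 2 * I := by positivity
  obtain ⟨t, ht⟩ : ∃ t, t = min 1 (ε / (4 * (κ / 2 * I + 1))) := ⟨_, rfl⟩
  have ht0 : 0 < t := by
    rw [ht]
    exact lt_min one_pos (by positivity)
  have ht1 : t ≤ 1 := by rw [ht]; exact min_le_left _ _
  have ht2 : t * (κ / 2 * I) ≤ ε / 4 := by
    have h1 : t ≤ ε / (4 * (κ / 2 * I + 1)) := by rw [ht]; exact min_le_right _ _
    rw [le_div_iff₀ (by positivity)] at h1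
    nlinarith
  obtain ⟨ω, hω⟩ : ∃ ω, ω = Real.sqrt (ε / (4 * ((1 + t⁻¹) * ((cc α β + 1) * (2 * K + 1) ^ 2)))) :=
    ⟨_, rfl⟩
  have hD : 0 < 4 * ((1 + t⁻¹) * ((cc α β + 1) * (2 * (K : ℝ) + 1) ^ 2)) := by positivity
  have hω0 : 0 < ω := by
    rw [hω]
    exact Real.sqrt_pos.mpr (div_pos hε hD)
  have hω2 : (1 + t⁻¹) * (cc α β * ω ^ 2 * (2 * K + 1) ^ 2) ≤ ε / 4 := by
    have h1 : ω ^ 2 = ε / (4 * ((1 + t⁻¹) * ((cc α β + 1) * (2 * K + 1) ^ 2))) := by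
      rw [hω]
      exact Real.sq_sqrt (div_pos hε hD).le
    have h2 : (1 + t⁻¹) * (cc α β * ω ^ 2 * (2 * K + 1) ^ 2) ≤
        (1 + t⁻¹) * ((cc α β + 1) * ω ^ 2 * (2 * K + 1) ^ 2) := by
      refine mul_le_mul_of_nonneg_left ?_ (by positivity)
      refine mul_le_mul_of_nonneg_right ?_ (by positivity)
      exact mul_le_mul_of_nonneg_right (by linarith) (by positivity)
    refine h2.trans (le_of_eq ?_)
    rw [h1]
    have h3 : (1 + t⁻¹) ≠ 0 := by positivity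
    have h4 : (cc α β + 1) ≠ 0 := by positivity
    have h5 : (2 * (K : ℝ) + 1) ≠ 0 := by positivity
    field_simp
  obtain ⟨e2, he2⟩ : ∃ e2, e2 = ε / (4 * (κ + 1)) := ⟨_, rfl⟩
  have he20 : 0 < e2 := by rw [he2]; positivity
  have he2' : κ * e2 ≤ ε / 4 := by
    rw [he2, mul_div_assoc', div_le_div_iff₀ (by positivity) (by norm_num)]
    nlinarith
  obtain ⟨δ, hδ, hnear⟩ := dil_near hH K hω0
  have hN := ((ta_int (ll_of_contDiff hH) a b c d he20).and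
    (tendsto_one_div_add_atTop_nhds_zero_nat.eventually (gt_mem_nhds hδ))).exists
  obtain ⟨N, hN1, hN2⟩ := hN
  rw [← hI] at hN1
  have hNp : (0 : ℝ) < (N : ℝ) + 1 := by positivity
  -- the net
  obtain ⟨ρ, hρ⟩ : ∃ ρ : ℕ → ℝ, ∀ i, ρ i = 1 + i / ((N : ℝ) + 1) :=
    ⟨fun i => 1 + i / ((N : ℝ) + 1), fun i => rfl⟩
  have hρ1 : ∀ i, 1 ≤ ρ i := fun i => by
    rw [hρ]
    have : 0 ≤ (i : ℝ) / ((N : ℝ) + 1) := by positivity
    linarith
  have hρ2 : ∀ i ∈ Finset.range (N + 1), ρ i ≤ 2 := fun i hi => by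
    rw [hρ]
    have h1 : (i : ℝ) / ((N : ℝ) + 1) ≤ 1 := by
      rw [div_le_one hNp]
      have : i ≤ N := by
        have := Finset.mem_range.mp hi
        omega
      have h2 : (i : ℝ) ≤ N := by exact_mod_cast this
      linarith
    linarith
  have hub : ∀ᶠ k : ℕ in atTop, ∀ i ∈ Finset.range (N + 1),
      Efr (JJ α β) (bx (ρ i * (a - |a| / (N + 1))) (ρ i * (b + |b| / (N + 1)))
        (ρ i * (c - |c| / (N + 1))) (ρ i * (d + |d| / (N + 1))) (2 ^ k))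
        (smp (fun w => H (w.1 / ρ i, w.2 / ρ i)) (2 ^ k)) ≤ κ / 2 * (I + e2) + ε / 8 := by
    rw [Filter.eventually_all_finset]
    intro i _
    have h1 := tc_ub hα hβ hκ (tc_C1 hα hβ hκ (ta_dilC hH (ρ i))) (ρ i * (a - |a| / (N + 1)))
      (ρ i * (b + |b| / (N + 1))) (ρ i * (c - |c| / (N + 1))) (ρ i * (d + |d| / (N + 1))) 1
      (ε / 8) (by positivity)
    refine h1.mono (fun k hk => ?_)
    have e1 : (fun z : P => 1 * (fun w : P => H (w.1 / ρ i, w.2 / ρ i)) z) =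
        fun w : P => H (w.1 / ρ i, w.2 / ρ i) := by
      funext z
      rw [one_mul]
    rw [e1, int_dil H (lt_of_lt_of_le one_pos (hρ1 i)), one_pow, mul_one] at hk
    refine hk.trans ?_
    have h2 : κ / 2 * (∫ z in ta_R a b c d N, gsq H z) ≤ κ / 2 * (I + e2) :=
      mul_le_mul_of_nonneg_left hN1 (by positivity)
    have h3 : (∫ z in ta_R a b c d N, gsq H z) = ∫ z in rct (a - |a| / (N + 1))
      (b + |b| / (N + 1)) (c - |c| / (N + 1)) (d + |d| / (N + 1)), gsq H z := rfl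
    rw [h3] at h2
    linarith
  obtain ⟨k₀, hk₀⟩ := Filter.eventually_atTop.mp hub
  refine Filter.eventually_atTop.mpr ⟨2 ^ k₀, fun n hn => ?_⟩
  have hn0 : 0 < n := lt_of_lt_of_le (by positivity) hn
  obtain ⟨r, hr1, hr2, hbx, hsmp⟩ := ta_scale H a b c d hn0
  have hlog : k₀ ≤ Nat.log 2 n := Nat.le_log_of_pow_le (by norm_num) hn
  have hU := hk₀ _ hlog
  have hpow : 0 < 2 ^ Nat.log 2 n := by positivity
  rw [hbx, hsmp]
  generalize Nat.log 2 n = k at *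
  -- the net point
  have hi0 : 0 ≤ (r - 1) * ((N : ℝ) + 1) := mul_nonneg (by linarith) hNp.le
  have hi1 := Nat.floor_le hi0
  have hi2 := Nat.lt_floor_add_one ((r - 1) * ((N : ℝ) + 1))
  have hi3 : ⌊(r - 1) * ((N : ℝ) + 1)⌋₊ ∈ Finset.range (N + 1) := by
    rw [Finset.mem_range]
    rw [Nat.floor_lt hi0]
    push_cast
    nlinarith
  obtain ⟨i, hi⟩ : ∃ i, i = ⌊(r - 1) * ((N : ℝ) + 1)⌋₊ := ⟨_, rfl⟩
  rw [← hi] at hi1 hi2 hi3
  have hUi := hU i hi3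
  have hri1 : ρ i ≤ r := by
    rw [hρ]
    have : (i : ℝ) / ((N : ℝ) + 1) ≤ r - 1 := by
      rw [div_le_iff₀ hNp]; exact hi1
    linarith
  have hri2 : r ≤ ρ i + 1 / ((N : ℝ) + 1) := by
    rw [hρ]
    have : r - 1 ≤ ((i : ℝ) + 1) / ((N : ℝ) + 1) := by
      rw [le_div_iff₀ hNp]; exact hi2.le
    have h2 : ((i : ℝ) + 1) / ((N : ℝ) + 1) = i / ((N : ℝ) + 1) + 1 / ((N : ℝ) + 1) := by ring
    linarith
  have hrρ : |r - ρ i| ≤ 1 / ((N : ℝ) + 1) := by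
    rw [abs_le]
    have : 0 ≤ 1 / ((N : ℝ) + 1) := by positivity
    constructor <;> linarith
  have hrδ : |r - ρ i| ≤ δ := hrρ.trans hN2.le
  have hn1N : 1 / ((N : ℝ) + 1) ≤ 1 := by
    rw [div_le_one hNp]
    have : (0 : ℝ) ≤ N := Nat.cast_nonneg N
    linarith
  have hlow : ∀ x : ℝ, ρ i * (x - |x| / (N + 1)) ≤ r * x := by
    intro x
    have h1 : |(r - ρ i) * x| ≤ 1 / ((N : ℝ) + 1) * |x| := by
      rw [abs_mul]
      exact mul_le_mul_of_nonneg_right hrρ (abs_nonneg x)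
    have h2 := (abs_le.1 h1).1
    have h3 : 1 * (|x| / ((N : ℝ) + 1)) ≤ ρ i * (|x| / ((N : ℝ) + 1)) :=
      mul_le_mul_of_nonneg_right (hρ1 i) (by positivity)
    have h4 : 1 / ((N : ℝ) + 1) * |x| = |x| / ((N : ℝ) + 1) := by ring
    rw [h4] at h2
    nlinarith
  have hup : ∀ x : ℝ, r * x ≤ ρ i * (x + |x| / (N + 1)) := by
    intro x
    have h1 : |(r - ρ i) * x| ≤ 1 / ((N : ℝ) + 1) * |x| := by
      rw [abs_mul]
      exact mul_le_mul_of_nonneg_right hrρ (abs_nonneg x)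
    have h2 := (abs_le.1 h1).2
    have h3 : 1 * (|x| / ((N : ℝ) + 1)) ≤ ρ i * (|x| / ((N : ℝ) + 1)) :=
      mul_le_mul_of_nonneg_right (hρ1 i) (by positivity)
    have h4 : 1 / ((N : ℝ) + 1) * |x| = |x| / ((N : ℝ) + 1) := by ring
    rw [h4] at h2
    nlinarith
  have hsub : bx (r * a) (r * b) (r * c) (r * d) (2 ^ k) ⊆
      bx (ρ i * (a - |a| / (N + 1))) (ρ i * (b + |b| / (N + 1)))
        (ρ i * (c - |c| / (N + 1))) (ρ i * (d + |d| / (N + 1))) (2 ^ k) := by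
    intro x hx
    rw [mem_bx hpow] at hx ⊢
    simp only [rct, Set.mem_prod, Set.mem_Icc] at hx ⊢
    exact ⟨⟨(hlow a).trans hx.1.1, hx.1.2.trans (hup b)⟩,
      ⟨(hlow c).trans hx.2.1, hx.2.2.trans (hup d)⟩⟩
  have habs : ∀ x : ℝ, |x| / ((N : ℝ) + 1) ≤ |x| := by
    intro x
    rw [div_le_iff₀ hNp]
    have : (0 : ℝ) ≤ N := Nat.cast_nonneg N
    nlinarith [abs_nonneg x]
  have hρ2i := hρ2 i hi3
  have hKlow : ∀ x : ℝ, 4 * |x| ≤ K → -(K : ℝ) ≤ ρ i * (x - |x| / (N + 1)) := by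
    intro x hx
    have h1 := habs x
    have h2 := neg_abs_le x
    have h3 : -(2 * |x|) ≤ x - |x| / ((N : ℝ) + 1) := by linarith
    have h4 : ρ i * -(2 * |x|) ≤ ρ i * (x - |x| / ((N : ℝ) + 1)) :=
      mul_le_mul_of_nonneg_left h3 (by linarith [hρ1 i])
    nlinarith [abs_nonneg x]
  have hKup : ∀ x : ℝ, 4 * |x| ≤ K → ρ i * (x + |x| / (N + 1)) ≤ (K : ℝ) := by
    intro x hx
    have h1 := habs x
    have h2 := le_abs_self x
    have h3 : x + |x| / ((N : ℝ) + 1) ≤ 2 * |x| := by linarith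
    have h4 : ρ i * (x + |x| / ((N : ℝ) + 1)) ≤ ρ i * (2 * |x|) :=
      mul_le_mul_of_nonneg_left h3 (by linarith [hρ1 i])
    nlinarith [abs_nonneg x]
  have hS : ∀ x ∈ bx (ρ i * (a - |a| / (N + 1))) (ρ i * (b + |b| / (N + 1)))
        (ρ i * (c - |c| / (N + 1))) (ρ i * (d + |d| / (N + 1))) (2 ^ k),
        ‖sc (2 ^ k) x‖ ≤ K := by
    intro x hx
    rw [mem_bx hpow] at hx
    simp only [rct, Set.mem_prod, Set.mem_Icc] at hx
    have ha := abs_nonneg a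
    have hb := abs_nonneg b
    have hc := abs_nonneg c
    have hd := abs_nonneg d
    rw [Prod.norm_def, max_le_iff, Real.norm_eq_abs, Real.norm_eq_abs, abs_le, abs_le]
    exact ⟨⟨(hKlow a (by linarith)).trans hx.1.1, hx.1.2.trans (hKup b (by linarith))⟩,
      ⟨(hKlow c (by linarith)).trans hx.2.1, hx.2.2.trans (hKup d (by linarith))⟩⟩
  have hcomp := ta_comp hα hβ (F := fun w : P => H (w.1 / r, w.2 / r))
    (G := fun w : P => H (w.1 / ρ i, w.2 / ρ i)) (K := K) (ω := ω)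
    (fun z w hz hw => hnear r (ρ i) hr1 hr2.le (hρ1 i) hρ2i hrδ z w hz hw) hω0.le hpow _ hS ht0
  have hmono := efr_mono hα hβ hsub (smp (fun w : P => H (w.1 / r, w.2 / r)) (2 ^ k))
  have hfin : (1 + t) * Efr (JJ α β) (bx (ρ i * (a - |a| / (N + 1))) (ρ i * (b + |b| / (N + 1)))
        (ρ i * (c - |c| / (N + 1))) (ρ i * (d + |d| / (N + 1))) (2 ^ k))
        (smp (fun w : P => H (w.1 / ρ i, w.2 / ρ i)) (2 ^ k)) ≤
      (1 + t) * (κ / 2 * (I + e2) + ε / 8) := mul_le_mul_of_nonneg_left hUi (by linarith)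
  have hfin2 : (1 + t) * (κ / 2 * (I + e2) + ε / 8) ≤ κ / 2 * I + 3 / 4 * ε := by
    have h1 : t * (κ / 2 * e2 + ε / 8) ≤ 1 * (κ / 2 * e2 + ε / 8) :=
      mul_le_mul_of_nonneg_right ht1 (by positivity)
    nlinarith
  linarith

theorem ta {α β κ : ℝ} (hα : 4 < α) (hβ : 0 < β) (hκ : KLow α β κ) {H : P → ℝ}
    (hH : ContDiff ℝ 1 H) (a b c d : ℝ) :
    Tendsto (fun n : ℕ => Efr (JJ α β) (bx a b c d n) (smp H n)) atTop
      (𝓝 (κ / 2 * ∫ z in rct a b c d, gsq H z)) := by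
  rw [Metric.tendsto_nhds]
  intro ε hε
  have h1 := ta_upper hα hβ hκ hH a b c d (half_pos hε)
  have h2 := lower_rct hκ (ll_of_contDiff hH) a b c d (half_pos hε)
  filter_upwards [h1, h2] with n hn1 hn2
  rw [Real.dist_eq, abs_lt]
  constructor <;> linarith

end Pool.Agent.LR
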