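import Pool.Agent.LR.B2b.TCbase

/-! # LR-B2b-13: the class `TC` is a linear space closed in the local Lipschitz seminorm

PLAN.
`tc_smul`: replace `s` by `s * t`; `gsq_smul`. `tc_const`: `efr_const` (`smp` of a constant), right side `≥ 0`.
`tc_add`: on any rectangle, at `n = 2^k`: `efr_rsd` for `smp (s F)`, `smp (s G)`: `Efr(sF+sG) ≤ 2 Efr(sF) + 2 Efr(sG) - Efr(sF-sG)`;
`tc_ub` for `F`, `G`, `lower_rct` for `s (F - G)` (along `2^k`), `ll_para`, `gsq_smul`.
`tc_closed`: fix `K`, the square `rct (-K) K (-K) K ⊆ {‖z‖ ≤ K}`; for `s ≠ 0`, `ε > 0`: choose `ε'` small, `H'` with Lipschitz error `≤ ε'` on `{‖·‖ ≤ K}`.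
`efr_lip`: `√(2Efr(sH)) ≤ √(2Efr(sH')) + √(Q(s(H-H')))`, `qfr_crude` with `A = |s| ε' / n` (`‖v‖ ≤ len v`), `|S| ≤ (2Kn+1)²`:
`Q ≤ 2 cc s² ε'² (2K+1)²`.  `Efr(sH') ≤ κ/2 s² ∫ gsq H' + ε'` eventually (`tc_ub`), `∫ gsq H' ≤ (1+t) ∫ gsq H + (1+1/t) 8 ε'² K²` (`ll_near`).
Then `Efr(sH) ≤ (1+t) Efr(sH') + (1+1/t) Q/2`; first `t` small, then `ε'` small. (`K = 0`: take `K+1` instead and enlarge.) -/

set_option autoImplicit false

noncomputable section

open scoped BigOperators Topology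
open MeasureTheory Filter Set

namespace Pool.Agent.LR

private theorem tcl_gsq_nonneg (H : P → ℝ) (z : P) : 0 ≤ gsq H z := by
  unfold gsq
  positivity

private theorem tcl_int_smul (H : P → ℝ) (s : ℝ) (U : Set P) :
    (∫ z in U, gsq (fun w => s * H w) z) = s ^ 2 * ∫ z in U, gsq H z := by
  rw [← integral_const_mul]
  refine integral_congr_ae (Eventually.of_forall fun z => ?_)
  exact gsq_smul H s z

private theorem tcl_pow : Tendsto (fun k : ℕ => (2 ^ k : ℕ)) atTop atTop :=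
  tendsto_pow_atTop_atTop_of_one_lt (by norm_num)

theorem tc_smul {α β κ : ℝ} (hκ : KLow α β κ) {F : P → ℝ} (hF : TC α β κ F) (t : ℝ) :
    TC α β κ (fun z => t * F z) := by
  refine ⟨ll_smul hF.1 t, fun K => ?_⟩
  obtain ⟨a, b, c, d, h1, h2, h3, h4, hU⟩ := hF.2 K
  refine ⟨a, b, c, d, h1, h2, h3, h4, fun s ε hε => ?_⟩
  filter_upwards [hU (s * t) ε hε] with k hk
  have e1 : (fun z => s * (t * F z)) = fun z => s * t * F z := by
    funext z
    ring
  rw [e1, tcl_int_smul]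
  calc _ ≤ _ := hk
    _ = _ := by ring

theorem tc_const {α β κ : ℝ} (hα : 4 < α) (hβ : 0 < β) (hκ : KLow α β κ) (t : ℝ) :
    TC α β κ (fun _ => t) := by
  refine ⟨fun K => ⟨0, fun z w _ _ => by simp⟩, fun K => ?_⟩
  refine ⟨-K, K, -K, K, le_refl _, le_refl _, le_refl _, le_refl _, fun s ε hε => ?_⟩
  refine Eventually.of_forall fun k => ?_
  have e1 : smp (fun _ : P => s * t) (2 ^ k) = fun _ => s * t := rfl
  rw [e1, efr_const hα hβ]
  have h1 : 0 ≤ ∫ z in rct (-(K : ℝ)) K (-K) K, gsq (fun _ : P => t) z :=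
    integral_nonneg fun z => tcl_gsq_nonneg _ z
  have h2 := hκ.nonneg
  positivity

theorem tc_add {α β κ : ℝ} (hα : 4 < α) (hβ : 0 < β) (hκ : KLow α β κ) {F G : P → ℝ}
    (hF : TC α β κ F) (hG : TC α β κ G) : TC α β κ (fun z => F z + G z) := by
  refine ⟨ll_add hF.1 hG.1, fun K => ?_⟩
  refine ⟨-K, K, -K, K, le_refl _, le_refl _, le_refl _, le_refl _, fun s ε hε => ?_⟩
  have u1 := tc_ub hα hβ hκ hF (-K) K (-K) K s (ε / 8) (by positivity)
  have u2 := tc_ub hα hβ hκ hG (-K) K (-K) K s (ε / 8) (by positivity)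
  have hFG : LL (fun z => s * (F z - G z)) := ll_smul (ll_sub hF.1 hG.1) s
  have u3 := tcl_pow.eventually (lower_rct hκ hFG (-K) K (-K) K (show 0 < ε / 4 by positivity))
  filter_upwards [u1, u2, u3] with k h1 h2 h3
  have hr := efr_rsd hα hβ (bx (-K) K (-K) K (2 ^ k)) (smp (fun z => s * F z) (2 ^ k))
    (smp (fun z => s * G z) (2 ^ k))
  have e1 : (fun x => smp (fun z => s * F z) (2 ^ k) x + smp (fun z => s * G z) (2 ^ k) x) =
      smp (fun z => s * (F z + G z)) (2 ^ k) := by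
    funext x
    simp only [smp]
    ring
  have e2 : (fun x => smp (fun z => s * F z) (2 ^ k) x - smp (fun z => s * G z) (2 ^ k) x) =
      smp (fun z => s * (F z - G z)) (2 ^ k) := by
    funext x
    simp only [smp]
    ring
  rw [e1, e2] at hr
  rw [tcl_int_smul] at h3
  have hp := ll_para hF.1 hG.1 (U := rct (-(K : ℝ)) K (-K) K)
    ((Metric.isBounded_Icc _ _).prod (Metric.isBounded_Icc _ _))
  set IF := ∫ z in rct (-(K : ℝ)) K (-K) K, gsq F z
  set IG := ∫ z in rct (-(K : ℝ)) K (-K) K, gsq G z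
  set IP := ∫ z in rct (-(K : ℝ)) K (-K) K, gsq (fun w => F w + G w) z
  set IM := ∫ z in rct (-(K : ℝ)) K (-K) K, gsq (fun w => F w - G w) z
  have hIP : IP = 2 * IF + 2 * IG - IM := by linarith
  rw [hIP]
  have e3 : κ / 2 * s ^ 2 * (2 * IF + 2 * IG - IM) =
      2 * (κ / 2 * s ^ 2 * IF) + 2 * (κ / 2 * s ^ 2 * IG) - κ / 2 * (s ^ 2 * IM) := by ring
  rw [e3]
  linarith

theorem tc_sum {α β κ : ℝ} (hα : 4 < α) (hβ : 0 < β) (hκ : KLow α β κ) {ι : Type*} (t : Finset ι)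
    (F : ι → P → ℝ) (hF : ∀ i ∈ t, TC α β κ (F i)) : TC α β κ (fun z => ∑ i ∈ t, F i z) := by
  classical
  induction t using Finset.induction_on with
  | empty =>
    simp only [Finset.sum_empty]
    exact tc_const hα hβ hκ 0
  | insert i t hi ih =>
    simp only [Finset.sum_insert hi]
    exact tc_add hα hβ hκ (hF i (Finset.mem_insert_self i t))
      (ih fun j hj => hF j (Finset.mem_insert_of_mem hj))

private theorem tcl_rct_norm (m : ℕ) {z : P} (hz : z ∈ rct (-(m : ℝ)) m (-m) m) : ‖z‖ ≤ m := by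
  obtain ⟨h1, h2⟩ := hz
  rw [Prod.norm_def]
  refine max_le ?_ ?_
  · rw [Real.norm_eq_abs, abs_le]
    exact ⟨h1.1, h1.2⟩
  · rw [Real.norm_eq_abs, abs_le]
    exact ⟨h2.1, h2.2⟩

private theorem tcl_sc {n : ℕ} (hn : 0 < n) (x y : V) :
    ‖sc n x - sc n y‖ ≤ len (x - y) / n := by
  have hn' : (0 : ℝ) < n := by exact_mod_cast hn
  have h1 : |((x.1 : ℝ) - y.1)| ≤ len (x - y) := by
    unfold len
    apply Real.le_sqrt_of_sq_le
    rw [sq_abs]
    simp only [Prod.fst_sub, Prod.snd_sub]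
    push_cast
    nlinarith [sq_nonneg ((x.2 : ℝ) - y.2)]
  have h2 : |((x.2 : ℝ) - y.2)| ≤ len (x - y) := by
    unfold len
    apply Real.le_sqrt_of_sq_le
    rw [sq_abs]
    simp only [Prod.fst_sub, Prod.snd_sub]
    push_cast
    nlinarith [sq_nonneg ((x.1 : ℝ) - y.1)]
  rw [Prod.norm_def]
  refine max_le ?_ ?_
  · simp only [sc, Prod.fst_sub]
    rw [Real.norm_eq_abs, ← sub_div, abs_div, abs_of_pos hn']
    exact div_le_div_of_nonneg_right h1 hn'.le
  · simp only [sc, Prod.snd_sub]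
    rw [Real.norm_eq_abs, ← sub_div, abs_div, abs_of_pos hn']
    exact div_le_div_of_nonneg_right h2 hn'.le

private theorem tcl_card (m n : ℕ) :
    ((bx (-(m : ℝ)) m (-m) m n).card : ℝ) = (2 * (n : ℝ) * m + 1) ^ 2 := by
  have e1 : ⌈(n : ℝ) * (-(m : ℝ))⌉ = -((n * m : ℕ) : ℤ) := by
    have : (n : ℝ) * (-(m : ℝ)) = ((-((n * m : ℕ) : ℤ) : ℤ) : ℝ) := by
      push_cast
      ring
    rw [this, Int.ceil_intCast]
  have e2 : ⌊(n : ℝ) * (m : ℝ)⌋ = ((n * m : ℕ) : ℤ) := by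
    have : (n : ℝ) * (m : ℝ) = ((((n * m : ℕ) : ℤ) : ℤ) : ℝ) := by
      push_cast
      ring
    rw [this, Int.floor_intCast]
  unfold bx
  rw [e1, e2, Finset.card_product, Int.card_Icc]
  have e3 : (((n * m : ℕ) : ℤ) + 1 - -((n * m : ℕ) : ℤ)).toNat = 2 * (n * m) + 1 := by
    have : (((n * m : ℕ) : ℤ) + 1 - -((n * m : ℕ) : ℤ)) = ((2 * (n * m) + 1 : ℕ) : ℤ) := by
      push_cast
      ring
    rw [this, Int.toNat_natCast]
  rw [e3]
  push_cast
  ring

private theorem tcl_sqrt {x y q t : ℝ} (hx : 0 ≤ x) (hy : 0 ≤ y) (hq : 0 ≤ q) (ht : 0 < t)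
    (h : |Real.sqrt (2 * x) - Real.sqrt (2 * y)| ≤ Real.sqrt q) :
    x ≤ (1 + t) * y + (1 + t⁻¹) * (q / 2) := by
  have h1 : Real.sqrt (2 * x) ≤ Real.sqrt (2 * y) + Real.sqrt q := by
    have := (abs_le.1 h).2
    linarith
  have h2 : 2 * x ≤ (Real.sqrt (2 * y) + Real.sqrt q) ^ 2 := by
    calc 2 * x = Real.sqrt (2 * x) ^ 2 := (Real.sq_sqrt (by positivity)).symm
      _ ≤ _ := pow_le_pow_left₀ (Real.sqrt_nonneg _) h1 2
  have h3 : Real.sqrt (2 * y) ^ 2 = 2 * y := Real.sq_sqrt (by positivity)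
  have h4 : Real.sqrt q ^ 2 = q := Real.sq_sqrt hq
  have h5 : (Real.sqrt (2 * y) + Real.sqrt q) ^ 2 ≤
      (1 + t) * Real.sqrt (2 * y) ^ 2 + (1 + t⁻¹) * Real.sqrt q ^ 2 := by
    set u := Real.sqrt (2 * y)
    set v := Real.sqrt q
    have h6 : 0 ≤ t * (u - t⁻¹ * v) ^ 2 := by positivity
    have h7 : t * (u - t⁻¹ * v) ^ 2 = t * u ^ 2 - 2 * u * v + t⁻¹ * v ^ 2 := by
      field_simp
      ring
    nlinarith
  rw [h3, h4] at h5
  linarith

private theorem tcl_Q0 {α β : ℝ} (hβ : 0 ≤ β) (S : Finset V) (f : V → ℝ) :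
    0 ≤ Qfr (JJ α β) S f f := by
  have e : Qfr (JJ α β) S f f = ∑ x ∈ S, ∑ y ∈ S, JJ α β x y / 2 * (f x - f y) * (f x - f y) := by
    simp [Qfr, rk, ev, LinearMap.sum_apply]
  rw [e]
  refine Finset.sum_nonneg fun x _ => Finset.sum_nonneg fun y _ => ?_
  have hJ : 0 ≤ JJ α β x y := by
    unfold JJ Jc
    split_ifs
    · exact le_refl _
    · have : 0 ≤ len (x - y) := Real.sqrt_nonneg _
      positivity
  have h2 : JJ α β x y / 2 * (f x - f y) * (f x - f y) = JJ α β x y / 2 * (f x - f y) ^ 2 := by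
    ring
  rw [h2]
  positivity

theorem tc_closed {α β κ : ℝ} (hα : 4 < α) (hβ : 0 < β) (hκ : KLow α β κ) {H : P → ℝ} (hH : LL H)
    (h : ∀ K : ℕ, ∀ ε > 0, ∃ G : P → ℝ, TC α β κ G ∧
      ∀ z w : P, ‖z‖ ≤ K → ‖w‖ ≤ K → |(H z - G z) - (H w - G w)| ≤ ε * ‖z - w‖) :
    TC α β κ H := by
  refine ⟨hH, fun K => ?_⟩
  set m : ℕ := K + 1 with hm
  have hKm : (K : ℝ) ≤ m := by
    rw [hm]
    push_cast
    linarith
  have hm0 : (0 : ℝ) < m := by
    rw [hm]
    positivity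
  refine ⟨-m, m, -m, m, by linarith, hKm, by linarith, hKm, fun s ε hε => ?_⟩
  set I := ∫ z in rct (-(m : ℝ)) m (-m) m, gsq H z with hI
  have hI0 : 0 ≤ I := integral_nonneg fun z => tcl_gsq_nonneg _ z
  have hκ0 := hκ.nonneg
  have hcc := cc_nn hα hβ (α := α) (β := β)
  set C := κ / 2 * s ^ 2 * I with hC
  have hC0 : 0 ≤ C := by positivity
  -- choice of `t`
  obtain ⟨t, ht0, ht1, htC⟩ : ∃ t : ℝ, 0 < t ∧ t ≤ 1 ∧ t * (3 * C) ≤ ε / 2 := by
    refine ⟨min 1 (ε / (6 * (C + 1))), lt_min one_pos (by positivity), min_le_left _ _, ?_⟩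
    calc min 1 (ε / (6 * (C + 1))) * (3 * C) ≤ ε / (6 * (C + 1)) * (3 * (C + 1)) := by
          apply mul_le_mul (min_le_right _ _) (by linarith) (by positivity) (by positivity)
      _ = ε / 2 := by
          field_simp
          norm_num
  set D := (1 + t) * (κ / 2 * s ^ 2 * ((1 + t⁻¹) * (8 * (m : ℝ) ^ 2))) + (1 + t) +
    (1 + t⁻¹) * (cc α β * s ^ 2 * (2 * (m : ℝ) + 1) ^ 2) with hD
  have hD0 : 0 ≤ D := by positivity
  obtain ⟨e, he0, he1, heD⟩ : ∃ e : ℝ, 0 < e ∧ e ≤ 1 ∧ e * D ≤ ε / 2 := by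
    refine ⟨min 1 (ε / (2 * (D + 1))), lt_min one_pos (by positivity), min_le_left _ _, ?_⟩
    calc min 1 (ε / (2 * (D + 1))) * D ≤ ε / (2 * (D + 1)) * (D + 1) := by
          apply mul_le_mul (min_le_right _ _) (by linarith) (by positivity) (by positivity)
      _ = ε / 2 := by
          field_simp
  obtain ⟨G, hG, hGH⟩ := h m e he0
  have hsub : rct (-(m : ℝ)) m (-m) m ⊆ {z | ‖z‖ ≤ (m : ℝ)} := fun z hz => tcl_rct_norm m hz
  have hnear := ll_near hH hG.1 hm0 he0.le hGH hsub ht0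
  filter_upwards [tc_ub hα hβ hκ hG (-m) m (-m) m s e he0] with k hk
  set n : ℕ := 2 ^ k with hn
  have hn0 : 0 < n := by positivity
  have hn0' : (0 : ℝ) < n := by exact_mod_cast hn0
  have hn1 : (1 : ℝ) ≤ n := by exact_mod_cast hn0
  set S := bx (-(m : ℝ)) m (-m) m n with hS
  -- the quadratic form of the difference
  have hQ : Qfr (JJ α β) S (smp (fun z => s * H z) n - smp (fun z => s * G z) n)
      (smp (fun z => s * H z) n - smp (fun z => s * G z) n) ≤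
      2 * (cc α β * s ^ 2 * (2 * (m : ℝ) + 1) ^ 2) * e ^ 2 := by
    have h1 := qfr_crude hα hβ S (smp (fun z => s * H z) n - smp (fun z => s * G z) n)
      (A := |s| * e / n) (by
        intro x hx y hy
        have hx1 := tcl_rct_norm m ((mem_bx hn0 x).1 hx)
        have hy1 := tcl_rct_norm m ((mem_bx hn0 y).1 hy)
        have h2 := hGH (sc n x) (sc n y) hx1 hy1
        have h3 := tcl_sc hn0 x y
        have e1 : (smp (fun z => s * H z) n - smp (fun z => s * G z) n) x -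
            (smp (fun z => s * H z) n - smp (fun z => s * G z) n) y =
            s * ((H (sc n x) - G (sc n x)) - (H (sc n y) - G (sc n y))) := by
          simp only [smp, Pi.sub_apply]
          ring
        rw [e1, abs_mul]
        calc |s| * |(H (sc n x) - G (sc n x)) - (H (sc n y) - G (sc n y))|
            ≤ |s| * (e * (len (x - y) / n)) := by
              apply mul_le_mul_of_nonneg_left _ (abs_nonneg s)
              exact h2.trans (mul_le_mul_of_nonneg_left h3 he0.le)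
          _ = |s| * e / n * len (x - y) := by ring)
    refine h1.trans ?_
    rw [hS, tcl_card]
    have h4 : (2 * (n : ℝ) * m + 1) ^ 2 ≤ (n * (2 * (m : ℝ) + 1)) ^ 2 := by
      apply pow_le_pow_left₀ (by positivity)
      nlinarith
    calc 2 * cc α β * (|s| * e / n) ^ 2 * (2 * (n : ℝ) * m + 1) ^ 2
        ≤ 2 * cc α β * (|s| * e / n) ^ 2 * (n * (2 * (m : ℝ) + 1)) ^ 2 := by
          apply mul_le_mul_of_nonneg_left h4 (by positivity)
      _ = 2 * (cc α β * s ^ 2 * (2 * (m : ℝ) + 1) ^ 2) * e ^ 2 := by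
          rw [div_pow, mul_pow, sq_abs, mul_pow]
          field_simp
  have hEH := efr_nonneg hα hβ S (smp (fun z => s * H z) n)
  have hEG := efr_nonneg hα hβ S (smp (fun z => s * G z) n)
  have hQ0 : 0 ≤ Qfr (JJ α β) S (smp (fun z => s * H z) n - smp (fun z => s * G z) n)
      (smp (fun z => s * H z) n - smp (fun z => s * G z) n) := tcl_Q0 hβ.le S _
  have hlip := efr_lip hα hβ S (smp (fun z => s * H z) n) (smp (fun z => s * G z) n)
  have hmain := tcl_sqrt hEH hEG hQ0 ht0 hlip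
  have hti : 0 < t⁻¹ := inv_pos.2 ht0
  have hee : e ^ 2 ≤ e := by nlinarith
  have hks : 0 ≤ κ / 2 * s ^ 2 := by positivity
  have hEG2 : Efr (JJ α β) S (smp (fun z => s * G z) n) ≤
      (1 + t) * C + κ / 2 * s ^ 2 * ((1 + t⁻¹) * (8 * (m : ℝ) ^ 2)) * e + e := by
    calc Efr (JJ α β) S (smp (fun z => s * G z) n)
        ≤ κ / 2 * s ^ 2 * (∫ z in rct (-(m : ℝ)) m (-m) m, gsq G z) + e := hk
      _ ≤ κ / 2 * s ^ 2 * ((1 + t) * I + (1 + t⁻¹) * (8 * e ^ 2 * (m : ℝ) ^ 2)) + e := by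
          have := mul_le_mul_of_nonneg_left hnear hks
          linarith
      _ = (1 + t) * C + κ / 2 * s ^ 2 * ((1 + t⁻¹) * (8 * (m : ℝ) ^ 2)) * e ^ 2 + e := by
          rw [hC]
          ring
      _ ≤ _ := by
          have h5 : κ / 2 * s ^ 2 * ((1 + t⁻¹) * (8 * (m : ℝ) ^ 2)) * e ^ 2 ≤
              κ / 2 * s ^ 2 * ((1 + t⁻¹) * (8 * (m : ℝ) ^ 2)) * e :=
            mul_le_mul_of_nonneg_left hee (by positivity)
          linarith
  have hQ2 : (1 + t⁻¹) * (Qfr (JJ α β) S (smp (fun z => s * H z) n - smp (fun z => s * G z) n)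
      (smp (fun z => s * H z) n - smp (fun z => s * G z) n) / 2) ≤
      (1 + t⁻¹) * (cc α β * s ^ 2 * (2 * (m : ℝ) + 1) ^ 2) * e := by
    have h6 : Qfr (JJ α β) S (smp (fun z => s * H z) n - smp (fun z => s * G z) n)
      (smp (fun z => s * H z) n - smp (fun z => s * G z) n) / 2 ≤
        (cc α β * s ^ 2 * (2 * (m : ℝ) + 1) ^ 2) * e := by
      have h7 : (cc α β * s ^ 2 * (2 * (m : ℝ) + 1) ^ 2) * e ^ 2 ≤
        (cc α β * s ^ 2 * (2 * (m : ℝ) + 1) ^ 2) * e := mul_le_mul_of_nonneg_left hee (by positivity)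
      linarith
    have := mul_le_mul_of_nonneg_left h6 (show 0 ≤ 1 + t⁻¹ by positivity)
    linarith
  have hEG3 := mul_le_mul_of_nonneg_left hEG2 (show 0 ≤ 1 + t by positivity)
  have hfin : (1 + t) * ((1 + t) * C + κ / 2 * s ^ 2 * ((1 + t⁻¹) * (8 * (m : ℝ) ^ 2)) * e + e) +
      (1 + t⁻¹) * (cc α β * s ^ 2 * (2 * (m : ℝ) + 1) ^ 2) * e = (1 + t) ^ 2 * C + e * D := by
    rw [hD]
    ring
  have hsq : (1 + t) ^ 2 * C ≤ C + t * (3 * C) := by
    have : t ^ 2 ≤ t := by nlinarith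
    nlinarith
  linarith

end Pool.Agent.LR
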